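import Pool.Agent.Y851.PT.P8

/-! Abstract consequences: large values, and the law of large numbers with boundedly many terms. -/

set_option autoImplicit false

namespace Pool.Agent.Y851.PT
open Finset Filter
open Pool.Agent.Y851.PS

open Classical in
/-- a positive proportion of large values, for almost all columns -/
theorem prop_good (α β : Type) (M δ : ℝ) (hM : 1 ≤ M) (hδ : 0 < δ) (hδ1 : δ ≤ 1) :
    ∀ (A : Finset α) (C : Finset β) (W : α → β → ℝ), (∀ a ∈ A, ∀ c ∈ C, 0 ≤ W a c) → Cut A C W (δ ^ 2 / 8) →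
    ∑ a ∈ A, ∑ c ∈ C, W a c ^ 2 ≤ M * (A.card * C.card) →
    ((C.filter (fun c => ¬ (δ ^ 3 / (8 * M) * A.card ≤ ((A.filter (fun a => 1 - δ ≤ W a c)).card : ℝ)))).card : ℝ) ≤ δ * C.card := by
  intro A C W hW hcut hM2
  have hM0 : 0 < M := by linarith only [hM]
  by_cases hA : A.card = 0
  · rw [filter_false_of_mem]
    · simp only [card_empty, Nat.cast_zero]
      positivity
    · intro y _
      rw [hA, not_not]
      simp
  have hA0 : (0 : ℝ) < A.card := by exact_mod_cast Nat.pos_of_ne_zero hA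
  have hb1 := hcut.mean (half_pos hδ) (by
      have : (δ / 2) ^ 2 = 2 * (δ ^ 2 / 8) := by ring
      rw [this])
  have hb2 := markov C (fun c => ∑ a ∈ A, W a c ^ 2) (fun c _ => sum_nonneg fun a _ => sq_nonneg _) (M * (A.card * C.card))
    (2 * M / δ * A.card) (by positivity) (by rw [sum_comm]; exact hM2) (fun c => 2 * M / δ * A.card < ∑ a ∈ A, W a c ^ 2)
    (fun c _ h => h.le)
  have hb2' : M * ((A.card : ℝ) * C.card) / (2 * M / δ * A.card) = δ / 2 * C.card := by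
    field_simp
  rw [hb2'] at hb2
  have hsub : C.filter (fun c => ¬ (δ ^ 3 / (8 * M) * A.card ≤ ((A.filter (fun a => 1 - δ ≤ W a c)).card : ℝ))) ⊆
      C.filter (fun c => δ / 2 * A.card < |∑ a ∈ A, W a c - A.card|) ∪ C.filter (fun c => 2 * M / δ * A.card < ∑ a ∈ A, W a c ^ 2) := by
    intro c hc
    rw [mem_filter] at hc
    obtain ⟨hcC, hbad⟩ := hc
    rw [mem_union, mem_filter, mem_filter]
    by_contra hcon
    push Not at hcon
    have h1 := (abs_le.1 (hcon.1 hcC)).1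
    have h2 := hcon.2 hcC
    apply hbad
    obtain ⟨S, hS⟩ : ∃ S, S = A.filter (fun a => 1 - δ ≤ W a c) := ⟨_, rfl⟩
    rw [← hS]
    have h3 : ∑ a ∈ A, W a c ≤ ∑ a ∈ S, W a c + (1 - δ) * A.card := by
      rw [hS, ← sum_filter_add_sum_filter_not A (fun a => 1 - δ ≤ W a c)]
      have h4 : ∑ a ∈ A.filter (fun a => ¬ 1 - δ ≤ W a c), W a c ≤ (1 - δ) * A.card := by
        calc ∑ a ∈ A.filter (fun a => ¬ 1 - δ ≤ W a c), W a c ≤ ∑ _a ∈ A.filter (fun a => ¬ 1 - δ ≤ W a c), (1 - δ) := by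
              apply sum_le_sum
              intro a ha
              rw [mem_filter, not_le] at ha
              exact ha.2.le
          _ = ((A.filter (fun a => ¬ 1 - δ ≤ W a c)).card : ℝ) * (1 - δ) := by rw [sum_const, nsmul_eq_mul]
          _ ≤ A.card * (1 - δ) := by
              apply mul_le_mul_of_nonneg_right _ (by linarith only [hδ1])
              exact_mod_cast card_le_card (filter_subset _ _)
          _ = (1 - δ) * A.card := mul_comm _ _
      linarith only [h4]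
    have h4 : δ / 2 * A.card ≤ ∑ a ∈ S, W a c := by linarith only [h1, h3]
    have h5 : (∑ a ∈ S, W a c) ^ 2 ≤ S.card * ∑ a ∈ S, W a c ^ 2 := sq_sum_le_card_mul_sum_sq
    have h6 : ∑ a ∈ S, W a c ^ 2 ≤ 2 * M / δ * A.card := by
      refine le_trans (sum_le_sum_of_subset_of_nonneg ?_ fun a _ _ => sq_nonneg _) h2
      rw [hS]; exact filter_subset _ _
    have h7 : (δ / 2 * A.card) ^ 2 ≤ S.card * (2 * M / δ * A.card) :=
      (pow_le_pow_left₀ (by positivity) h4 2).trans (h5.trans (mul_le_mul_of_nonneg_left h6 (Nat.cast_nonneg _)))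
    have h8 : (2 * M / δ * (A.card : ℝ)) * (δ ^ 3 / (8 * M) * A.card) ≤ (2 * M / δ * A.card) * S.card := by
      calc (2 * M / δ * (A.card : ℝ)) * (δ ^ 3 / (8 * M) * A.card) = (δ / 2 * A.card) ^ 2 := by
            field_simp
            norm_num
        _ ≤ S.card * (2 * M / δ * A.card) := h7
        _ = (2 * M / δ * A.card) * S.card := mul_comm _ _
    exact le_of_mul_le_mul_left h8 (by positivity)
  have h9 : ((C.filter (fun c => ¬ (δ ^ 3 / (8 * M) * A.card ≤ ((A.filter (fun a => 1 - δ ≤ W a c)).card : ℝ)))).card : ℝ) ≤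
      ((C.filter (fun c => δ / 2 * A.card < |∑ a ∈ A, W a c - A.card|)).card : ℝ) +
      ((C.filter (fun c => 2 * M / δ * A.card < ∑ a ∈ A, W a c ^ 2)).card : ℝ) := by
    exact_mod_cast (card_le_card hsub).trans (card_union_le _ _)
  have h10 : ((C.filter (fun c => δ / 2 * A.card < |∑ a ∈ A, W a c - A.card|)).card : ℝ) ≤ δ / 2 * C.card := by
    convert hb1
  have h11 : ((C.filter (fun c => 2 * M / δ * A.card < ∑ a ∈ A, W a c ^ 2)).card : ℝ) ≤ δ / 2 * C.card := by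
    convert hb2
  linarith only [h9, h10, h11]

open Classical in
/-- **law of large numbers** with boundedly many terms -/
theorem mean_good (α β : Type) (M δ : ℝ) (hM : 1 ≤ M) (hδ : 0 < δ) (hδ1 : δ ≤ 1) : ∃ n₀ : ℕ, 1 ≤ n₀ ∧ ∀ n : ℕ, n₀ ≤ n →
    ∀ (A : Finset α) (C : Finset β) (W : α → β → ℝ), (∀ a ∈ A, ∀ c ∈ C, 0 ≤ W a c) → Cut A C W (δ ^ 4 / 8) →
    ∑ a ∈ A, ∑ c ∈ C, W a c ^ 2 ≤ M * (A.card * C.card) →
    (((Fintype.piFinset (fun _ : Fin n => C)).filter (fun y => ¬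
      ((1 - δ) * A.card ≤ ((A.filter (fun a => |∑ j, W a (y j) - n| ≤ δ * n)).card : ℝ)))).card : ℝ) ≤ δ * (C.card : ℝ) ^ n := by
  refine ⟨⌈4 * (M + 1) / δ ^ 4⌉₊ + 1, by omega, fun n hn A C W hW hcut hM2 => ?_⟩
  have hn1 : 1 ≤ n := by omega
  have hn0 : (0 : ℝ) < n := by exact_mod_cast hn1
  have hnM : 4 * (M + 1) / δ ^ 4 ≤ n := by
    have h1 := Nat.le_ceil (4 * (M + 1) / δ ^ 4)
    have h2 : ((⌈4 * (M + 1) / δ ^ 4⌉₊ : ℕ) : ℝ) ≤ n := by exact_mod_cast (by omega : ⌈4 * (M + 1) / δ ^ 4⌉₊ ≤ n)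
    exact h1.trans h2
  rw [div_le_iff₀ (by positivity)] at hnM
  by_cases hA : A.card = 0
  · rw [filter_false_of_mem]
    · simp only [card_empty, Nat.cast_zero]
      positivity
    · intro y _
      rw [hA, not_not]
      simp
  by_cases hC : C.card = 0
  · have : Fintype.piFinset (fun _ : Fin n => C) = ∅ := by
      rw [← card_eq_zero, Fintype.card_piFinset, prod_const, Finset.card_univ, Fintype.card_fin, hC]
      exact zero_pow (by omega)
    rw [this, filter_empty, card_empty, Nat.cast_zero]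
    positivity
  have hA0 : (0 : ℝ) < A.card := by exact_mod_cast Nat.pos_of_ne_zero hA
  have hC0 : (0 : ℝ) < C.card := by exact_mod_cast Nat.pos_of_ne_zero hC
  obtain ⟨N, hN⟩ : ∃ N : ℝ, N = C.card := ⟨_, rfl⟩
  rw [← hN] at hC0 hM2 ⊢
  obtain ⟨Ab, hAb⟩ : ∃ Ab, Ab = A.filter (fun a => δ ^ 2 / 2 * C.card < |∑ c ∈ C, W a c - C.card|) := ⟨_, rfl⟩
  obtain ⟨Ag, hAg⟩ : ∃ Ag, Ag = A.filter (fun a => ¬ δ ^ 2 / 2 * C.card < |∑ c ∈ C, W a c - C.card|) := ⟨_, rfl⟩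
  have hb1 : (Ab.card : ℝ) ≤ δ / 2 * A.card := by
    rw [hAb]
    have h1 := hcut.swap.mean (show 0 < δ ^ 2 / 2 by positivity) (by
      have : (δ ^ 2 / 2) ^ 2 = 2 * (δ ^ 4 / 8) := by ring
      rw [this])
    have h2 : δ ^ 2 / 2 * (A.card : ℝ) ≤ δ / 2 * A.card := by
      apply mul_le_mul_of_nonneg_right _ hA0.le
      have : δ ^ 2 = δ * δ := by ring
      have h3 : δ * δ ≤ δ * 1 := mul_le_mul_of_nonneg_left hδ1 hδ.le
      rw [this]
      linarith only [h3]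
    refine le_trans ?_ h2
    convert h1
  have hg1 : Ag ⊆ A := by rw [hAg]; exact filter_subset _ _
  -- the second moment
  have hT : ∀ a ∈ Ag, N ^ 2 * ∑ y ∈ Fintype.piFinset (fun _ : Fin n => C), (∑ j, (W a (y j) - 1)) ^ 2 ≤
      n * N ^ (n + 1) * (∑ c ∈ C, W a c ^ 2 + N) + n ^ 2 * N ^ n * (δ ^ 2 / 2 * N) ^ 2 := by
    intro a ha
    have haA := hg1 ha
    rw [hAg, mem_filter, not_lt, ← hN] at ha
    have h1 := (sq_tuples C (fun c => W a c - 1) n).2
    rw [← hN] at h1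
    rw [h1]
    have h2 : ∑ c ∈ C, (W a c - 1) ^ 2 ≤ ∑ c ∈ C, W a c ^ 2 + N := by
      have : ∑ c ∈ C, (W a c ^ 2 + 1) = ∑ c ∈ C, W a c ^ 2 + N := by
        rw [sum_add_distrib, sum_const, nsmul_eq_mul, mul_one, hN]
      rw [← this]
      apply sum_le_sum
      intro c hc
      have := hW a haA c hc
      have e : (W a c - 1) ^ 2 = W a c ^ 2 + 1 - 2 * W a c := by ring
      rw [e]; linarith only [this]
    have h3 : (∑ c ∈ C, (W a c - 1)) ^ 2 ≤ (δ ^ 2 / 2 * N) ^ 2 := by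
      have e : ∑ c ∈ C, (W a c - 1) = ∑ c ∈ C, W a c - N := by
        rw [sum_sub_distrib, sum_const, nsmul_eq_mul, mul_one, hN]
      rw [e, ← sq_abs (∑ c ∈ C, W a c - N)]
      exact pow_le_pow_left₀ (abs_nonneg _) ha.2 2
    have h4 : (n : ℝ) * (n - 1) * N ^ n * (∑ c ∈ C, (W a c - 1)) ^ 2 ≤ n ^ 2 * N ^ n * (δ ^ 2 / 2 * N) ^ 2 := by
      have h5 : (n : ℝ) * (n - 1) ≤ n ^ 2 := by
        have : (n : ℝ) ^ 2 = n * (n - 1) + n := by ring
        linarith only [this, hn0]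
      have h6 : 0 ≤ N ^ n := by positivity
      exact mul_le_mul (mul_le_mul_of_nonneg_right h5 h6) h3 (sq_nonneg _) (by positivity)
    have h5 : (n : ℝ) * N ^ (n + 1) * ∑ c ∈ C, (W a c - 1) ^ 2 ≤ n * N ^ (n + 1) * (∑ c ∈ C, W a c ^ 2 + N) :=
      mul_le_mul_of_nonneg_left h2 (by positivity)
    linarith only [h4, h5]
  have hTs : ∑ y ∈ Fintype.piFinset (fun _ : Fin n => C), ∑ a ∈ Ag, (∑ j, (W a (y j) - 1)) ^ 2 ≤ δ ^ 4 / 2 * n ^ 2 * (A.card * N ^ n) := by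
    rw [sum_comm]
    have h1 : N ^ 2 * ∑ a ∈ Ag, ∑ y ∈ Fintype.piFinset (fun _ : Fin n => C), (∑ j, (W a (y j) - 1)) ^ 2 ≤
        ∑ a ∈ A, (n * N ^ (n + 1) * (∑ c ∈ C, W a c ^ 2 + N) + n ^ 2 * N ^ n * (δ ^ 2 / 2 * N) ^ 2) := by
      rw [mul_sum]
      refine (sum_le_sum hT).trans ?_
      apply sum_le_sum_of_subset_of_nonneg hg1
      intro a _ _
      have : 0 ≤ ∑ c ∈ C, W a c ^ 2 := sum_nonneg fun c _ => sq_nonneg _
      positivity
    have h2 : ∑ a ∈ A, (n * N ^ (n + 1) * (∑ c ∈ C, W a c ^ 2 + N) + n ^ 2 * N ^ n * (δ ^ 2 / 2 * N) ^ 2) =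
        n * N ^ (n + 1) * (∑ a ∈ A, ∑ c ∈ C, W a c ^ 2 + A.card * N) + A.card * (n ^ 2 * N ^ n * (δ ^ 2 / 2 * N) ^ 2) := by
      rw [sum_add_distrib, ← mul_sum, sum_add_distrib, sum_const, sum_const, nsmul_eq_mul, nsmul_eq_mul]
    rw [h2] at h1
    have h3 : n * N ^ (n + 1) * (∑ a ∈ A, ∑ c ∈ C, W a c ^ 2 + A.card * N) ≤ n * N ^ (n + 1) * ((M + 1) * (A.card * N)) := by
      apply mul_le_mul_of_nonneg_left _ (by positivity)
      linarith only [hM2]
    have h4 : (n : ℝ) * N ^ (n + 1) * ((M + 1) * (A.card * N)) ≤ N ^ 2 * (δ ^ 4 / 4 * n ^ 2 * (A.card * N ^ n)) := by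
      have e1 : (n : ℝ) * N ^ (n + 1) * ((M + 1) * (A.card * N)) = (n * (A.card * N ^ (n + 2)) / 4) * (4 * (M + 1)) := by ring
      have e2 : N ^ 2 * (δ ^ 4 / 4 * n ^ 2 * (A.card * N ^ n)) = (n * (A.card * N ^ (n + 2)) / 4) * (n * δ ^ 4) := by ring
      rw [e1, e2]
      exact mul_le_mul_of_nonneg_left hnM (by positivity)
    have h5 : (A.card : ℝ) * (n ^ 2 * N ^ n * (δ ^ 2 / 2 * N) ^ 2) = N ^ 2 * (δ ^ 4 / 4 * n ^ 2 * (A.card * N ^ n)) := by ring
    have h6 : N ^ 2 * (∑ a ∈ Ag, ∑ y ∈ Fintype.piFinset (fun _ : Fin n => C), (∑ j, (W a (y j) - 1)) ^ 2) ≤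
        N ^ 2 * (δ ^ 4 / 2 * n ^ 2 * (A.card * N ^ n)) := by
      have e3 : N ^ 2 * (δ ^ 4 / 2 * n ^ 2 * (A.card * N ^ n)) = N ^ 2 * (δ ^ 4 / 4 * n ^ 2 * (A.card * N ^ n)) + N ^ 2 * (δ ^ 4 / 4 * n ^ 2 * (A.card * N ^ n)) := by ring
      rw [e3]
      linarith only [h1, h3, h4, h5]
    exact le_of_mul_le_mul_left h6 (by positivity)
  have hmk := markov (Fintype.piFinset (fun _ : Fin n => C)) (fun y => ∑ a ∈ Ag, (∑ j, (W a (y j) - 1)) ^ 2)
    (fun y _ => sum_nonneg fun a _ => sq_nonneg _) (δ ^ 4 / 2 * n ^ 2 * (A.card * N ^ n)) ((δ * n) ^ 2 * (δ / 2 * A.card)) (by positivity) hTs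
    (fun y => ¬ ((1 - δ) * A.card ≤ ((A.filter (fun a => |∑ j, W a (y j) - n| ≤ δ * n)).card : ℝ))) (by
      intro y hy hbad
      push Not at hbad
      obtain ⟨S, hS⟩ : ∃ S, S = Ag.filter (fun a => ¬ |∑ j, W a (y j) - n| ≤ δ * n) := ⟨_, rfl⟩
      have h1 : δ / 2 * A.card ≤ (S.card : ℝ) := by
        have h2 : A ⊆ A.filter (fun a => |∑ j, W a (y j) - n| ≤ δ * n) ∪ (S ∪ Ab) := by
          intro a ha
          rw [mem_union, mem_union]
          by_cases h3 : |∑ j, W a (y j) - n| ≤ δ * n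
          · left; exact mem_filter.2 ⟨ha, h3⟩
          · right
            by_cases h4 : δ ^ 2 / 2 * C.card < |∑ c ∈ C, W a c - C.card|
            · right; rw [hAb]; exact mem_filter.2 ⟨ha, h4⟩
            · left; rw [hS, hAg]; exact mem_filter.2 ⟨mem_filter.2 ⟨ha, h4⟩, h3⟩
        have h3 : (A.card : ℝ) ≤ ((A.filter (fun a => |∑ j, W a (y j) - n| ≤ δ * n)).card : ℝ) + (S.card + Ab.card) := by
          exact_mod_cast (card_le_card h2).trans ((card_union_le _ _).trans (Nat.add_le_add_left (card_union_le _ _) _))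
        linarith only [h3, hbad, hb1]
      calc (δ * n) ^ 2 * (δ / 2 * A.card) ≤ (δ * n) ^ 2 * S.card := mul_le_mul_of_nonneg_left h1 (by positivity)
        _ = ∑ _a ∈ S, (δ * n) ^ 2 := by rw [sum_const, nsmul_eq_mul, mul_comm]
        _ ≤ ∑ a ∈ S, (∑ j, (W a (y j) - 1)) ^ 2 := by
          apply sum_le_sum
          intro a ha
          rw [hS, mem_filter, not_le] at ha
          have e : ∑ j, (W a (y j) - 1) = ∑ j, W a (y j) - n := by
            rw [sum_sub_distrib, sum_const, Finset.card_univ, Fintype.card_fin, nsmul_eq_mul, mul_one]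
          rw [e, ← sq_abs (∑ j, W a (y j) - n)]
          exact pow_le_pow_left₀ (by positivity) ha.2.le 2
        _ ≤ ∑ a ∈ Ag, (∑ j, (W a (y j) - 1)) ^ 2 := by
          apply sum_le_sum_of_subset_of_nonneg
          · rw [hS]; exact filter_subset _ _
          · intro a _ _; exact sq_nonneg _)
  refine hmk.trans (le_of_eq ?_)
  field_simp

end Pool.Agent.Y851.PT
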