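import Pool.Agent.Y851.PT.P9
import Pool.Agent.Y851.PT.P11

/-! Finite sets of dilations. -/

set_option autoImplicit false

namespace Pool.Agent.Y851.PT
open Finset Filter
open Pool.Agent.Y851.PS

theorem base2 (θ lam ϱ d B β : ℝ) (hθ : 0 < θ) (hlam : 0 < lam) (hϱ : 0 < ϱ) (hd : 0 < d) (hB : 1 ≤ B) (hβ : 0 < β) :
    ∃ M : ℝ, 1 ≤ M ∧ ∀ δ' : ℝ, 0 < δ' → ∀ᶠ X : ℝ in atTop, ∀ H : ℝ, lam * Real.log X ≤ H → H ≤ X ^ (1 - ϱ) →
    ∀ (A : Finset ℕ) (C : Finset ℝ), Adm d θ X A → (∀ a ∈ A, β * X ^ θ ≤ (a : ℝ)) → SpH B H θ X C →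
    0 < H ∧ Cut A C (fun a c => ZH H (a * c)) δ' ∧ ∑ a ∈ A, ∑ c ∈ C, ZH H (a * c) ^ 2 ≤ M * (A.card * C.card) := by
  obtain ⟨C1, X₀, hC1, h2⟩ := sm lam β hlam hβ
  refine ⟨C1 * B, ?_, fun δ' hδ' => ?_⟩
  · calc (1 : ℝ) = 1 * 1 := by norm_num
      _ ≤ C1 * B := mul_le_mul hC1 hB zero_le_one (by linarith only [hC1])
  filter_upwards [eventually_ge_atTop X₀, cutH θ lam ϱ d B δ' hθ hlam hϱ hd hB hδ', eventually_gt_atTop 1]
    with X g2 g3 g4 H hH1 hH2 A C hA hAβ hC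
  have hlog : 0 < Real.log X := Real.log_pos g4
  refine ⟨lt_of_lt_of_le (mul_pos hlam hlog) hH1, g3 H hH1 hH2 A C hA hC, ?_⟩
  have h3 : ∀ a ∈ A, ∑ c ∈ C, ZH H (a * c) ^ 2 ≤ C1 * B * C.card := fun a ha =>
    h2 X g2 B H θ hH1 (by linarith only [hB]) C hC a (hA.1 a ha).1 (hAβ a ha) (hA.1 a ha).2
  refine (sum_le_sum h3).trans (le_of_eq ?_)
  rw [sum_const, nsmul_eq_mul]; ring

open Classical in
/-- almost all dilations -/
theorem finA (θ lam ϱ d B β δ : ℝ) (hθ : 0 < θ) (hlam : 0 < lam) (hϱ : 0 < ϱ) (hd : 0 < d) (hB : 1 ≤ B) (hβ : 0 < β) (hδ : 0 < δ)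
    (hδ1 : δ ≤ 1) : ∃ κ : ℝ, 0 < κ ∧ ∀ᶠ X : ℝ in atTop, ∀ H : ℝ, lam * Real.log X ≤ H → H ≤ X ^ (1 - ϱ) →
    ∀ (A : Finset ℕ) (C : Finset ℝ), Adm d θ X A → (∀ a ∈ A, β * X ^ θ ≤ (a : ℝ)) → SpH B H θ X C →
    ((C.filter (fun c => δ * A.card < |∑ a ∈ A, ZH H (a * c) - A.card|)).card : ℝ) ≤ δ * C.card ∧
    ((C.filter (fun c => ¬ (κ * A.card ≤ ((A.filter (fun a : ℕ => 1 - δ ≤ ZH H (a * c))).card : ℝ)))).card : ℝ) ≤ δ * C.card := by
  obtain ⟨M, hM, hb⟩ := base2 θ lam ϱ d B β hθ hlam hϱ hd hB hβ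
  have hM0 : 0 < M := by linarith only [hM]
  refine ⟨δ ^ 3 / (8 * M), by positivity, ?_⟩
  filter_upwards [hb (δ ^ 2 / 8) (by positivity)] with X h H hH1 hH2 A C hA hAβ hC
  obtain ⟨hH0, hcut, hM2⟩ := h H hH1 hH2 A C hA hAβ hC
  constructor
  · have := hcut.mean hδ (by
      have h1 := sq_nonneg δ
      linarith only [h1])
    convert this
  · have := prop_good ℕ ℝ M δ hM hδ hδ1 A C (fun a c => ZH H (a * c)) (fun a _ c _ => ZH_nonneg hH0.le _) hcut hM2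
    convert this

open Classical in
/-- almost all tuples -/
theorem finB (θ lam ϱ d B β δ : ℝ) (hθ : 0 < θ) (hlam : 0 < lam) (hϱ : 0 < ϱ) (hd : 0 < d) (hB : 1 ≤ B) (hβ : 0 < β) (hδ : 0 < δ)
    (hδ1 : δ ≤ 1) : ∃ n₀ : ℕ, 1 ≤ n₀ ∧ ∀ n : ℕ, n₀ ≤ n → ∀ᶠ X : ℝ in atTop, ∀ H : ℝ, lam * Real.log X ≤ H → H ≤ X ^ (1 - ϱ) →
    ∀ (A : Finset ℕ) (C : Finset ℝ), Adm d θ X A → (∀ a ∈ A, β * X ^ θ ≤ (a : ℝ)) → SpH B H θ X C →
    (((Fintype.piFinset (fun _ : Fin n => A)).filter (fun y => ¬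
      ((1 - δ) * C.card ≤ ((C.filter (fun c => |∑ j, ZH H (y j * c) - n| ≤ δ * n)).card : ℝ)))).card : ℝ) ≤ δ * (A.card : ℝ) ^ n := by
  obtain ⟨M, hM, hb⟩ := base2 θ lam ϱ d B β hθ hlam hϱ hd hB hβ
  obtain ⟨n₀, hn₀, hmg⟩ := mean_good ℝ ℕ M δ hM hδ hδ1
  refine ⟨n₀, hn₀, fun n hn => ?_⟩
  filter_upwards [hb (δ ^ 4 / 8) (by positivity)] with X h H hH1 hH2 A C hA hAβ hC
  obtain ⟨hH0, hcut, hM2⟩ := h H hH1 hH2 A C hA hAβ hC
  have := hmg n hn C A (fun c a => ZH H (a * c)) (fun c _ a _ => ZH_nonneg hH0.le _) hcut.swap (by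
    rw [sum_comm, mul_comm (C.card : ℝ)]; exact hM2)
  convert this

/-- comparison of windows -/
lemma ZH_mono {H H' x x' : ℝ} (hH : 0 < H) (hH' : 0 < H') (hx : x ≤ x') (h : x' - H' ≤ x - H) :
    H * ZH H x ≤ H' * ZH H' x' := by
  have e : ∀ (h : ℝ) (x : ℝ), 0 < h → h * ZH h x = ((PH h x).card : ℝ) * Real.log x := by
    intro h x hh
    unfold ZH
    field_simp
  rw [e H x hH, e H' x' hH']
  by_cases hx2 : x < 2
  · rw [PH_empty hx2, card_empty, Nat.cast_zero, zero_mul, ← e H' x' hH']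
    exact mul_nonneg hH'.le (ZH_nonneg hH'.le _)
  · push Not at hx2
    have hx0 : 0 < x := by linarith only [hx2]
    have hsub : PH H x ⊆ PH H' x' := by
      intro p hp
      rw [mem_PH hx0.le] at hp
      rw [mem_PH (hx0.le.trans hx)]
      exact ⟨hp.1, lt_of_le_of_lt h hp.2.1, lt_of_lt_of_le hp.2.2 hx⟩
    exact mul_le_mul (by exact_mod_cast card_le_card hsub) (Real.log_le_log hx0 hx)
      (Real.log_nonneg (by linarith only [hx2])) (Nat.cast_nonneg _)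

/-- the net -/
lemma net_spread (X H θ η s : ℝ) (hX : 0 < X) (hH : 0 < H) (hη : 0 < η) (hη1 : η ≤ 1 / 2) (hs1 : 1 - η ≤ s) (hs2 : s ≤ 2)
    (hXH : 2 ≤ X / (η * H)) : SpH 12 (s * H) θ X ((Icc 1 ⌊X / (η * H)⌋₊).image (fun k : ℕ => (k : ℝ) * (η * (H / X ^ θ)))) := by
  classical
  have hXθ : 0 < X ^ θ := by positivity
  obtain ⟨l, hl⟩ : ∃ l, l = η * (H / X ^ θ) := ⟨_, rfl⟩
  have hl0 : 0 < l := by rw [hl]; positivity
  rw [← hl]
  obtain ⟨K, hK⟩ : ∃ K : ℕ, K = ⌊X / (η * H)⌋₊ := ⟨_, rfl⟩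
  rw [← hK]
  have hηH : 0 < η * H := mul_pos hη hH
  have hKle : (K : ℝ) ≤ X / (η * H) := by rw [hK]; exact Nat.floor_le (div_nonneg hX.le hηH.le)
  have hKge : X / (2 * (η * H)) ≤ K := by
    have h1 : X / (η * H) < K + 1 := by rw [hK]; exact Nat.lt_floor_add_one _
    have h2 : X / (2 * (η * H)) = X / (η * H) / 2 := by field_simp
    rw [h2]; linarith only [h1, hXH]
  have hinj : Function.Injective (fun k : ℕ => (k : ℝ) * l) := by
    intro k k' h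
    have h1 : (k : ℝ) * l = k' * l := h
    exact_mod_cast mul_right_cancel₀ hl0.ne' h1
  have hcard : (((Icc 1 K).image (fun k : ℕ => (k : ℝ) * l)).card : ℝ) = K := by
    rw [card_image_of_injective _ hinj, Nat.card_Icc]
    simp
  have hTl : X / (η * H) * l = X ^ (1 - θ) := by
    rw [hl, Real.rpow_sub hX, Real.rpow_one]
    field_simp
  refine ⟨?_, ?_, ?_⟩
  · intro c hc
    rw [mem_image] at hc
    obtain ⟨k, hk, rfl⟩ := hc
    rw [mem_Icc] at hk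
    have : (0 : ℝ) < k := by exact_mod_cast hk.1
    positivity
  · intro c hc
    rw [mem_image] at hc
    obtain ⟨k, hk, rfl⟩ := hc
    rw [mem_Icc] at hk
    rw [← hTl]
    apply mul_le_mul_of_nonneg_right _ hl0.le
    exact le_trans (by exact_mod_cast hk.2) hKle
  · intro u
    rw [hcard]
    have hR : 3 / η ≤ 12 * (s * H / X) * K := by
      have h1 : 12 * (s * H / X) * (X / (2 * (η * H))) = 6 * s / η := by
        field_simp
        ring
      have h2 : 12 * (s * H / X) * (X / (2 * (η * H))) ≤ 12 * (s * H / X) * K := by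
        apply mul_le_mul_of_nonneg_left hKge
        have : 0 < s := by linarith only [hs1, hη1]
        positivity
      rw [h1] at h2
      refine le_trans ?_ h2
      apply div_le_div_of_nonneg_right _ hη.le
      linarith only [hs1, hη1]
    refine le_trans ?_ hR
    -- count
    obtain ⟨S, hS⟩ : ∃ S, S = (Icc 1 K).filter (fun k : ℕ => u ≤ (k : ℝ) * l ∧ (k : ℝ) * l ≤ u + s * H / X ^ θ) := ⟨_, rfl⟩
    have h1 : ((Icc 1 K).image (fun k : ℕ => (k : ℝ) * l)).filter (fun c => u ≤ c ∧ c ≤ u + s * H / X ^ θ) = S.image (fun k : ℕ => (k : ℝ) * l) := by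
      rw [hS, filter_image]
    rw [h1, card_image_of_injective _ hinj]
    by_cases hSe : S.Nonempty
    · obtain ⟨k0, hk0, hk0min⟩ := S.exists_min_image (fun k => k) hSe
      have h2 : S ⊆ Icc k0 (k0 + ⌊2 / η⌋₊) := by
        intro k hk
        rw [mem_Icc]
        refine ⟨hk0min k hk, ?_⟩
        have g1 : u ≤ (k0 : ℝ) * l := by rw [hS, mem_filter] at hk0; exact hk0.2.1
        have g2 : (k : ℝ) * l ≤ u + s * H / X ^ θ := by rw [hS, mem_filter] at hk; exact hk.2.2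
        have g3 : s * H / X ^ θ ≤ 2 / η * l := by
          have : 2 / η * l = 2 * H / X ^ θ := by rw [hl]; field_simp
          rw [this]
          apply div_le_div_of_nonneg_right _ hXθ.le
          exact mul_le_mul_of_nonneg_right hs2 hH.le
        have g4 : ((k : ℝ) - k0) * l ≤ 2 / η * l := by
          have : ((k : ℝ) - k0) * l = k * l - k0 * l := by ring
          rw [this]; linarith only [g1, g2, g3]
        have g5 : (k : ℝ) - k0 ≤ 2 / η := le_of_mul_le_mul_right g4 hl0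
        have g6 : k0 ≤ k := hk0min k hk
        have g7 : k - k0 ≤ ⌊2 / η⌋₊ := by
          apply Nat.le_floor
          rw [Nat.cast_sub g6]
          exact g5
        omega
      have h3 : (S.card : ℝ) ≤ (⌊2 / η⌋₊ : ℝ) + 1 := by
        have := card_le_card h2
        rw [Nat.card_Icc] at this
        have h4 : S.card ≤ ⌊2 / η⌋₊ + 1 := by omega
        exact_mod_cast h4
      have h4 : (⌊2 / η⌋₊ : ℝ) ≤ 2 / η := Nat.floor_le (by positivity)
      have h5 : 1 ≤ 1 / η := by rw [le_div_iff₀ hη]; linarith only [hη1]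
      have h6 : 3 / η = 2 / η + 1 / η := by ring
      rw [h6]; linarith only [h3, h4, h5]
    · rw [not_nonempty_iff_eq_empty] at hSe
      rw [hSe, card_empty, Nat.cast_zero]
      positivity

end Pool.Agent.Y851.PT
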