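import Pool.Agent.Y851.PS.G5

/-! Sharp windows against Fejér's kernel: errors without logarithms of the resolution. -/

set_option autoImplicit false

namespace Pool.Agent.Y851.PT
open Finset MeasureTheory intervalIntegral
open Pool.Agent.H376R2.MR (Fj FK ch Fj_nonneg Fj_le Fj_le_sq fej_exp fej_eq_norm ls_norm_ch)
open Pool.Agent.Y851.PS

lemma Fj_at_zero (K : ℕ) (hK : 1 ≤ K) : Fj K 0 = K := by
  have h := fej_eq_norm K 0
  have hK0 : (0 : ℝ) < K := by exact_mod_cast hK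
  have e : ‖∑ k ∈ range K, Complex.exp (Complex.I * ((0 : ℝ) : ℂ)) ^ k‖ ^ 2 = (K : ℝ) ^ 2 := by
    simp
  rw [e] at h
  have : (K : ℝ) * Fj K 0 = K * K := by rw [h]; ring
  exact mul_left_cancel₀ hK0.ne' this

lemma Fj_near {K : ℕ} (hK : 1 ≤ K) {u : ℝ} (hu : |u| ≤ 1 / (2 * K)) : (K : ℝ) / 2 ≤ Fj K u := by
  have hK0 : (0 : ℝ) < K := by exact_mod_cast hK
  have h0 := Fj_at_zero K hK
  unfold Pool.Agent.H376R2.MR.Fj at h0 ⊢
  have h1 : ∀ k ∈ FK K, (1 - |(k : ℝ)| / K) * (1 / 2) ≤ (1 - |(k : ℝ)| / K) * Real.cos (k * u) := by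
    intro k hk
    unfold Pool.Agent.H376R2.MR.FK at hk
    rw [mem_Ioo] at hk
    have h2 : |k| < K := abs_lt.2 hk
    have h3 : |(k : ℝ)| < K := by exact_mod_cast h2
    have h4 : |(k : ℝ)| / K ≤ 1 := by rw [div_le_one hK0]; exact h3.le
    apply mul_le_mul_of_nonneg_left _ (by linarith)
    have h5 : |(k : ℝ) * u| ≤ 1 / 2 := by
      rw [abs_mul]
      calc |(k : ℝ)| * |u| ≤ K * (1 / (2 * K)) := mul_le_mul h3.le hu (abs_nonneg _) hK0.le
        _ = 1 / 2 := by field_simp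
    have h6 := Real.one_sub_sq_div_two_le_cos (x := (k : ℝ) * u)
    have h7 : ((k : ℝ) * u) ^ 2 ≤ 1 / 4 := by
      rw [← sq_abs]
      nlinarith [abs_nonneg ((k : ℝ) * u)]
    linarith
  refine le_trans (le_of_eq ?_) (sum_le_sum h1)
  rw [← sum_mul]
  have h2 : ∑ k ∈ FK K, (1 - |(k : ℝ)| / K) = K := by
    refine Eq.trans ?_ h0
    apply sum_congr rfl
    intro k _
    rw [mul_zero, Real.cos_zero, mul_one]
  rw [h2]
  ring

lemma Psi_far {K : ℕ} (hK : 1 ≤ K) {h y : ℝ} (hh : 0 < h) (hh1 : h ≤ 1) (hy : |y| ≤ 3) (hy2 : 2 * h ≤ |y|) :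
    Psi K h y ≤ 30 * h / (K * y ^ 2) := by
  have hK0 : (0 : ℝ) < K := by exact_mod_cast hK
  have hpi := Real.pi_gt_d2
  have hy0 : 0 < |y| := by linarith
  have hyne : y ≠ 0 := abs_pos.1 hy0
  have hy3 := abs_le.1 hy
  rw [Psi_eq]
  have h1 : ∀ u ∈ Set.Icc y (y + h), Fj K u ≤ 160 / (K * y ^ 2) := by
    intro u hu
    have h2 : |y| / 2 ≤ |u| := by
      have h3 : |y| ≤ |u| + |y - u| := by
        have := abs_add_le u (y - u)
        rwa [add_sub_cancel] at this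
      have h4 : |y - u| ≤ h := by
        rw [abs_le]
        constructor <;> linarith [hu.1, hu.2]
      linarith
    have hu0 : 0 < |u| := by linarith
    have hu4 : |u| ≤ 4 := by
      rw [abs_le]
      constructor <;> linarith [hu.1, hu.2]
    refine (Fj_dec hK (abs_pos.1 hu0) hu4).trans ?_
    have hune : u ≠ 0 := abs_pos.1 hu0
    rw [div_le_div_iff₀ (by positivity) (by positivity)]
    have h5 : (|y| / 2) ^ 2 ≤ |u| ^ 2 := pow_le_pow_left₀ (by positivity) h2 2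
    rw [div_pow, sq_abs, sq_abs] at h5
    have h6 : (K : ℝ) * (y ^ 2 / 2 ^ 2) ≤ K * u ^ 2 := by gcongr
    linarith
  have h2 : ∫ u in y..(y + h), Fj K u ≤ ∫ _u in y..(y + h), 160 / (K * y ^ 2) := by
    apply intervalIntegral.integral_mono_on (by linarith) (Fj_int _ _ _) (by simp)
    exact h1
  rw [intervalIntegral.integral_const, smul_eq_mul, add_sub_cancel_left] at h2
  have h3 : (2 * Real.pi)⁻¹ ≤ 30 / 160 := by
    rw [inv_le_comm₀ (by positivity) (by positivity)]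
    linarith
  have h4 : 0 ≤ ∫ u in y..(y + h), Fj K u := Fj_int_nonneg K (by linarith)
  calc (2 * Real.pi)⁻¹ * ∫ u in y..(y + h), Fj K u ≤ (30 / 160) * (h * (160 / (K * y ^ 2))) :=
        mul_le_mul h3 h2 h4 (by norm_num)
    _ = _ := by field_simp

/-- the kernel `14 / (1 + K |u|)` in the range `R` -/
lemma cell_logR {ι : Type} (S : Finset ι) (x l : ι → ℝ) (hx : ∀ i ∈ S, 0 ≤ x i) (K : ℕ) (hK : 1 ≤ K) (Q : ℝ)
    (hcell : ∀ u : ℝ, ∑ i ∈ S.filter (fun i => u ≤ l i ∧ l i < u + 1 / K), x i ≤ Q / K) (hQ : 0 ≤ Q)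
    (v R : ℝ) (hR : 0 ≤ R) (hv : ∀ i ∈ S, |l i - v| ≤ R) :
    ∑ i ∈ S, x i * (14 / (1 + K * |l i - v|)) ≤ 56 * Q * (1 + Real.log (K * R + 3)) / K := by
  classical
  have hK0 : (0 : ℝ) < K := by exact_mod_cast hK
  set n : ℕ := ⌈(K : ℝ) * R⌉₊ + 1 with hn
  have hn1 : (K : ℝ) * R + 1 ≤ n := by
    rw [hn]; push_cast; linarith [Nat.le_ceil ((K : ℝ) * R)]
  have hn2 : (n : ℝ) + 1 ≤ K * R + 3 := by
    rw [hn]; push_cast; linarith [Nat.ceil_lt_add_one (show 0 ≤ (K : ℝ) * R by positivity)]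
  have hfl : ∀ i ∈ S, |((⌊(K : ℝ) * (l i - v)⌋ : ℤ) : ℝ)| ≤ K * |l i - v| + 1 := by
    intro i _
    set u := l i - v with hu
    set j := ⌊(K : ℝ) * u⌋ with hj
    have h1 : (j : ℝ) ≤ K * u := Int.floor_le _
    have h2 : (K : ℝ) * u < j + 1 := Int.lt_floor_add_one _
    have e : K * |u| = |K * u| := by rw [abs_mul, abs_of_pos hK0]
    rw [e, abs_le]
    constructor
    · have := neg_abs_le (K * u)
      linarith
    · have := le_abs_self (K * u)
      linarith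
  have h := cell_gen S x l hx K hK Q hcell v (fun i => 14 / (1 + K * |l i - v|)) (fun j => 28 * (1 / (1 + |(j : ℝ)|)))
    (Icc (-(n : ℤ)) n) (fun j _ => by positivity) (by
      intro i hi
      have h1 := hfl i hi
      have h2 : K * |l i - v| ≤ K * R := by
        apply mul_le_mul_of_nonneg_left (hv i hi) hK0.le
      have h3 : |((⌊(K : ℝ) * (l i - v)⌋ : ℤ) : ℝ)| ≤ n := by linarith
      have h4 : |⌊(K : ℝ) * (l i - v)⌋| ≤ (n : ℤ) := by exact_mod_cast h3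
      rw [mem_Icc]
      exact abs_le.1 h4) (by
      intro i hi
      have h3 := hfl i hi
      have e : 28 * (1 / (1 + |((⌊(K : ℝ) * (l i - v)⌋ : ℤ) : ℝ)|)) = 28 / (1 + |((⌊(K : ℝ) * (l i - v)⌋ : ℤ) : ℝ)|) := by ring
      have h4 : 0 ≤ K * |l i - v| := by positivity
      show 14 / (1 + K * |l i - v|) ≤ 28 * (1 / (1 + |((⌊(K : ℝ) * (l i - v)⌋ : ℤ) : ℝ)|))
      rw [e, div_le_div_iff₀ (by positivity) (by positivity)]
      linarith)
  refine h.trans ?_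
  rw [← mul_sum]
  have h2 := sum_gamma n
  have h3 : Real.log ((n : ℝ) + 1) ≤ Real.log (K * R + 3) := Real.log_le_log (by positivity) hn2
  calc Q / K * (28 * ∑ j ∈ Icc (-(n : ℤ)) n, 1 / (1 + |(j : ℝ)|))
      ≤ Q / K * (28 * (2 * (1 + Real.log ((n : ℝ) + 1)))) := by gcongr
    _ ≤ Q / K * (28 * (2 * (1 + Real.log (K * R + 3)))) := by gcongr
    _ = _ := by ring

/-- the quadratic tail -/
lemma cell_far {ι : Type} (S : Finset ι) (x l : ι → ℝ) (hx : ∀ i ∈ S, 0 ≤ x i) (K K' : ℕ) (hK : 1 ≤ K) (hK' : 1 ≤ K') (Q : ℝ)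
    (hcell : ∀ u : ℝ, ∑ i ∈ S.filter (fun i => u ≤ l i ∧ l i < u + 1 / K'), x i ≤ Q / K') (hQ : 0 ≤ Q)
    (v h : ℝ) (hh : 0 < h) (hhK : h * K' ≤ 1) (hhK2 : 1 ≤ 2 * h * K') (hv : ∀ i ∈ S, 2 * h ≤ |l i - v| ∧ |l i - v| ≤ 3) :
    ∑ i ∈ S, x i * (30 * h / (K * (l i - v) ^ 2)) ≤ 1200 * Q / K := by
  classical
  have hK0 : (0 : ℝ) < K := by exact_mod_cast hK
  have hK'0 : (0 : ℝ) < K' := by exact_mod_cast hK'
  have hfl : ∀ i ∈ S, |((⌊(K' : ℝ) * (l i - v)⌋ : ℤ) : ℝ)| ≤ K' * |l i - v| + 1 := by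
    intro i _
    set u := l i - v with hu
    set j := ⌊(K' : ℝ) * u⌋ with hj
    have h1 : (j : ℝ) ≤ K' * u := Int.floor_le _
    have h2 : (K' : ℝ) * u < j + 1 := Int.lt_floor_add_one _
    have e : K' * |u| = |K' * u| := by rw [abs_mul, abs_of_pos hK'0]
    rw [e, abs_le]
    constructor
    · have := neg_abs_le (K' * u)
      linarith
    · have := le_abs_self (K' * u)
      linarith
  have h := cell_gen S x l hx K' hK' Q hcell v (fun i => 30 * h / (K * (l i - v) ^ 2)) (fun j => (150 * K' / K) * (1 / (1 + (j : ℝ) ^ 2)))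
    (S.image (fun i => ⌊(K' : ℝ) * (l i - v)⌋)) (fun j _ => by positivity) (fun i hi => mem_image_of_mem _ hi) (by
      intro i hi
      have h3 := hfl i hi
      obtain ⟨h4, h5⟩ := hv i hi
      set j := ⌊(K' : ℝ) * (l i - v)⌋ with hj
      set t := |l i - v| with ht
      have ht0 : 0 < t := by linarith
      have h6 : 1 ≤ K' * t := by nlinarith
      have h7 : 1 + (j : ℝ) ^ 2 ≤ 5 * (K' * t) ^ 2 := by
        have h8 : |(j : ℝ)| ^ 2 ≤ (2 * (K' * t)) ^ 2 := pow_le_pow_left₀ (abs_nonneg _) (by linarith) 2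
        rw [sq_abs] at h8
        nlinarith
      have e1 : (l i - v) ^ 2 = t ^ 2 := by rw [ht, sq_abs]
      show 30 * h / (K * (l i - v) ^ 2) ≤ (150 * K' / K) * (1 / (1 + (j : ℝ) ^ 2))
      rw [e1]
      have e2 : (150 * K' / K : ℝ) * (1 / (1 + (j : ℝ) ^ 2)) = 150 * K' / (K * (1 + (j : ℝ) ^ 2)) := by field_simp
      rw [e2, div_le_div_iff₀ (by positivity) (by positivity)]
      have h9 : 30 * h * (K * (1 + (j : ℝ) ^ 2)) ≤ 30 * h * (K * (5 * (K' * t) ^ 2)) := by gcongr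
      have h10 : 30 * h * (K * (5 * (K' * t) ^ 2)) = 150 * (h * K') * (K' * K * t ^ 2) := by ring
      have h11 : 150 * (h * K') * (K' * K * t ^ 2) ≤ 150 * 1 * (K' * K * t ^ 2) := by gcongr
      linarith)
  refine h.trans ?_
  rw [← mul_sum]
  have h2 := sum_beta (S.image (fun i => ⌊(K' : ℝ) * (l i - v)⌋))
  calc Q / K' * ((150 * K' / K) * ∑ j ∈ S.image (fun i => ⌊(K' : ℝ) * (l i - v)⌋), 1 / (1 + (j : ℝ) ^ 2))
      ≤ Q / K' * ((150 * K' / K) * 8) := by gcongr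
    _ = _ := by field_simp; ring

/-- larger cells -/
lemma cell_coarse {ι : Type} (S : Finset ι) (x l : ι → ℝ) (hx : ∀ i ∈ S, 0 ≤ x i) (K K' : ℕ) (hK' : 1 ≤ K') (hKK : K' ≤ K) (Q : ℝ)
    (hcell : ∀ u : ℝ, ∑ i ∈ S.filter (fun i => u ≤ l i ∧ l i < u + 1 / K), x i ≤ Q / K) (hQ : 0 ≤ Q) (u : ℝ) :
    ∑ i ∈ S.filter (fun i => u ≤ l i ∧ l i < u + 1 / K'), x i ≤ 2 * Q / K' := by
  classical
  have hK'0 : (0 : ℝ) < K' := by exact_mod_cast hK'
  have hK0 : (0 : ℝ) < K := by exact_mod_cast (lt_of_lt_of_le hK' hKK)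
  set J : ℕ := ⌊(K : ℝ) / K'⌋₊ with hJ
  have hJ1 : (J : ℝ) ≤ K / K' := Nat.floor_le (by positivity)
  have hcov : ∀ i ∈ S, (u ≤ l i ∧ l i < u + 1 / K') → ∃ j ∈ range (J + 1), u + (j : ℝ) * (1 / K) ≤ l i ∧ l i < u + (j : ℝ) * (1 / K) + 1 / K := by
    intro i _ hi
    refine ⟨⌊(l i - u) * K⌋₊, ?_, ?_⟩
    · rw [mem_range, Nat.lt_succ_iff]
      apply Nat.floor_mono
      rw [le_div_iff₀ hK'0]
      have h1 : l i - u ≤ 1 / K' := by linarith [hi.2]
      rw [le_div_iff₀ hK'0] at h1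
      nlinarith
    · have h1 : 0 ≤ (l i - u) * K := mul_nonneg (by linarith [hi.1]) hK0.le
      have h2 := Nat.floor_le h1
      have h3 := Nat.lt_floor_add_one ((l i - u) * K)
      constructor
      · rw [mul_one_div, ← sub_nonneg]
        have h4 : (⌊(l i - u) * K⌋₊ : ℝ) / K ≤ l i - u := by rw [div_le_iff₀ hK0]; exact h2
        linarith
      · have h4 : l i - u < (⌊(l i - u) * K⌋₊ + 1 : ℝ) / K := by rw [lt_div_iff₀ hK0]; exact h3
        rw [mul_one_div]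
        rw [add_div] at h4
        linarith
  calc ∑ i ∈ S.filter (fun i => u ≤ l i ∧ l i < u + 1 / K'), x i
      = ∑ i ∈ S, if (u ≤ l i ∧ l i < u + 1 / K') then x i else 0 := sum_filter _ _
    _ ≤ ∑ i ∈ S, ∑ j ∈ range (J + 1), if (u + (j : ℝ) * (1 / K) ≤ l i ∧ l i < u + (j : ℝ) * (1 / K) + 1 / K) then x i else 0 := by
        apply sum_le_sum
        intro i hi
        have hnn : ∀ j ∈ range (J + 1), 0 ≤ (if (u + (j : ℝ) * (1 / K) ≤ l i ∧ l i < u + (j : ℝ) * (1 / K) + 1 / K) then x i else 0) := by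
          intro j _
          split_ifs
          · exact hx i hi
          · exact le_rfl
        split_ifs with hc
        · obtain ⟨j, hj, hj2⟩ := hcov i hi hc
          refine le_trans (le_of_eq ?_) (single_le_sum hnn hj)
          rw [if_pos hj2]
        · exact sum_nonneg hnn
    _ = ∑ j ∈ range (J + 1), ∑ i ∈ S.filter (fun i => u + (j : ℝ) * (1 / K) ≤ l i ∧ l i < u + (j : ℝ) * (1 / K) + 1 / K), x i := by
        rw [sum_comm]
        apply sum_congr rfl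
        intro j _
        rw [sum_filter]
    _ ≤ ∑ j ∈ range (J + 1), Q / K := sum_le_sum fun j _ => hcell _
    _ = (J + 1) * (Q / K) := by rw [sum_const, card_range, nsmul_eq_mul]; push_cast; rfl
    _ ≤ (2 * (K / K')) * (Q / K) := by
        have : (1 : ℝ) ≤ K / K' := by
          rw [le_div_iff₀ hK'0, one_mul]; exact_mod_cast hKK
        gcongr
        linarith
    _ = _ := by field_simp

end Pool.Agent.Y851.PT
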