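import Pool.Agent.Y851.PT.P1

/-! Sharp windows for trilinear counts. -/

set_option autoImplicit false

namespace Pool.Agent.Y851.PT
open Finset MeasureTheory intervalIntegral
open Pool.Agent.H376R2.MR (Fj FK ch Fj_nonneg Fj_le)
open Pool.Agent.Y851.PS

open Classical in
/-- the error kernel -/
lemma E_bound {K : ℕ} (hK : 1 ≤ K) {h y : ℝ} (hh : 0 < h) (hh1 : h ≤ 1) (hy : |y| ≤ 3) :
    |(if -h < y ∧ y < 0 then (1 : ℝ) else 0) - Psi K h y| ≤
      if |y| < 2 * h then 14 / (1 + K * |y|) + 14 / (1 + K * |y + h|) else 30 * h / (K * y ^ 2) := by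
  by_cases h1 : |y| < 2 * h
  · rw [if_pos h1]
    have := Psi_near hK hh.le hh1 hy
    convert this
  · rw [if_neg h1]
    rw [not_lt] at h1
    have h2 : ¬ (-h < y ∧ y < 0) := by
      rintro ⟨h3, h4⟩
      rw [abs_of_neg h4] at h1
      linarith
    rw [if_neg h2, zero_sub, abs_neg]
    have h3 := Psi_far hK hh hh1 hy h1
    have h4 : 0 ≤ Psi K h y := by
      rw [Psi_eq]
      have := Fj_int_nonneg K (a := y) (b := y + h) (by linarith)
      have := Real.pi_pos
      positivity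
    rw [abs_of_nonneg h4]
    exact h3

open Classical in
/-- sharp and smoothed counts -/
theorem win_err {ι : Type} (S : Finset ι) (x l : ι → ℝ) (hx : ∀ i ∈ S, 0 ≤ x i) (K : ℕ) (hK : 1 ≤ K) (Q : ℝ)
    (hcell : ∀ u : ℝ, ∑ i ∈ S.filter (fun i => u ≤ l i ∧ l i < u + 1 / K), x i ≤ Q / K) (hQ : 0 ≤ Q)
    (v h : ℝ) (hh : 0 < h) (hh1 : h ≤ 1 / 2) (hKh : 1 ≤ K * h) (hv : ∀ i ∈ S, |l i - v| ≤ 3) :
    |∑ i ∈ S.filter (fun i => v - h < l i ∧ l i < v), x i - ∑ i ∈ S, x i * Psi K h (l i - v)| ≤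
      Q * (2600 + 112 * Real.log (3 * (K * h) + 3)) / K := by
  have hK0 : (0 : ℝ) < K := by exact_mod_cast hK
  set S1 := S.filter (fun i => |l i - v| < 2 * h) with hS1
  set S2 := S.filter (fun i => ¬ |l i - v| < 2 * h) with hS2
  have hx1 : ∀ i ∈ S1, 0 ≤ x i := fun i hi => hx i (mem_filter.1 hi).1
  have hx2 : ∀ i ∈ S2, 0 ≤ x i := fun i hi => hx i (mem_filter.1 hi).1
  have hsubcell : ∀ T : Finset ι, T ⊆ S → ∀ u : ℝ, ∑ i ∈ T.filter (fun i => u ≤ l i ∧ l i < u + 1 / K), x i ≤ Q / K := by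
    intro T hT u
    refine le_trans ?_ (hcell u)
    apply sum_le_sum_of_subset_of_nonneg (filter_subset_filter _ hT)
    intro i hi _
    exact hx i (mem_filter.1 hi).1
  rw [sum_filter, ← sum_sub_distrib]
  refine (abs_sum_le_sum_abs _ _).trans ?_
  have h1 : ∀ i ∈ S, |(if v - h < l i ∧ l i < v then x i else 0) - x i * Psi K h (l i - v)| ≤
      if |l i - v| < 2 * h then x i * (14 / (1 + K * |l i - v|)) + x i * (14 / (1 + K * |l i - (v - h)|)) else
        x i * (30 * h / (K * (l i - v) ^ 2)) := by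
    intro i hi
    have h2 := E_bound hK hh (by linarith) (hv i hi)
    have e2 : (if v - h < l i ∧ l i < v then x i else 0) - x i * Psi K h (l i - v) =
        x i * ((if -h < l i - v ∧ l i - v < 0 then (1 : ℝ) else 0) - Psi K h (l i - v)) := by
      by_cases hc : v - h < l i ∧ l i < v
      · rw [if_pos hc, if_pos ⟨by linarith [hc.1], by linarith [hc.2]⟩]; ring
      · rw [if_neg hc, if_neg (fun h3 => hc ⟨by linarith [h3.1], by linarith [h3.2]⟩)]; ring
    rw [e2, abs_mul, abs_of_nonneg (hx i hi)]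
    have h3 := mul_le_mul_of_nonneg_left h2 (hx i hi)
    refine h3.trans (le_of_eq ?_)
    have e3 : l i - (v - h) = l i - v + h := by ring
    rw [e3]
    split_ifs
    · rw [mul_add]
    · rfl
  refine (sum_le_sum h1).trans ?_
  rw [← sum_filter_add_sum_filter_not S (fun i => |l i - v| < 2 * h), ← hS1, ← hS2]
  have e1 : ∑ i ∈ S1, (if |l i - v| < 2 * h then x i * (14 / (1 + K * |l i - v|)) + x i * (14 / (1 + K * |l i - (v - h)|)) else
        x i * (30 * h / (K * (l i - v) ^ 2))) = ∑ i ∈ S1, x i * (14 / (1 + K * |l i - v|)) + ∑ i ∈ S1, x i * (14 / (1 + K * |l i - (v - h)|)) := by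
    rw [← sum_add_distrib]
    apply sum_congr rfl
    intro i hi
    rw [hS1, mem_filter] at hi
    rw [if_pos hi.2]
  have e2 : ∑ i ∈ S2, (if |l i - v| < 2 * h then x i * (14 / (1 + K * |l i - v|)) + x i * (14 / (1 + K * |l i - (v - h)|)) else
        x i * (30 * h / (K * (l i - v) ^ 2))) = ∑ i ∈ S2, x i * (30 * h / (K * (l i - v) ^ 2)) := by
    apply sum_congr rfl
    intro i hi
    rw [hS2, mem_filter] at hi
    rw [if_neg hi.2]
  rw [e1, e2]
  have hR : (K : ℝ) * (3 * h) + 3 = 3 * (K * h) + 3 := by ring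
  have b1 := cell_logR S1 x l hx1 K hK Q (hsubcell S1 (filter_subset _ _)) hQ v (3 * h) (by positivity) (by
    intro i hi
    rw [hS1, mem_filter] at hi
    linarith [hi.2])
  have b2 := cell_logR S1 x l hx1 K hK Q (hsubcell S1 (filter_subset _ _)) hQ (v - h) (3 * h) (by positivity) (by
    intro i hi
    rw [hS1, mem_filter] at hi
    have := abs_lt.1 hi.2
    rw [abs_le]
    constructor <;> linarith)
  rw [hR] at b1 b2
  -- far part
  set K' : ℕ := ⌊1 / h⌋₊ with hK'
  have hih : 2 ≤ 1 / h := by rw [le_div_iff₀ hh]; linarith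
  have hK'1 : 1 ≤ K' := by
    apply Nat.le_floor
    push_cast; linarith
  have hK'le : (K' : ℝ) ≤ 1 / h := Nat.floor_le (by positivity)
  have hK'ge : 1 / h < K' + 1 := Nat.lt_floor_add_one _
  have hhK' : h * K' ≤ 1 := by
    rw [le_div_iff₀ hh] at hK'le
    linarith
  have hhK'2 : 1 ≤ 2 * h * K' := by
    rw [div_lt_iff₀ hh] at hK'ge
    linarith
  have hKK : K' ≤ K := by
    have : (K' : ℝ) ≤ K := by
      refine hK'le.trans ?_
      rw [div_le_iff₀ hh]; exact hKh
    exact_mod_cast this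
  have b3 := cell_far S2 x l hx2 K K' hK hK'1 (2 * Q)
    (cell_coarse S2 x l hx2 K K' hK'1 hKK Q (hsubcell S2 (filter_subset _ _)) hQ) (by positivity) v h hh hhK' hhK'2 (by
    intro i hi
    rw [hS2, mem_filter, not_lt] at hi
    exact ⟨hi.2, hv i hi.1⟩)
  calc _ ≤ 56 * Q * (1 + Real.log (3 * (K * h) + 3)) / K + 56 * Q * (1 + Real.log (3 * (K * h) + 3)) / K + 1200 * (2 * Q) / K :=
        add_le_add (add_le_add b1 b2) b3
    _ = Q * (2512 + 112 * Real.log (3 * (K * h) + 3)) / K := by ring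
    _ ≤ _ := by
      gcongr
      norm_num

open Classical in
/-- the same with a bound for the cells near `v` only -/
theorem win_err2 {ι : Type} (S : Finset ι) (x l : ι → ℝ) (hx : ∀ i ∈ S, 0 ≤ x i) (K : ℕ) (hK : 1 ≤ K) (Q : ℝ)
    (v h r P : ℝ) (hcell : ∀ u : ℝ, |u - v| ≤ 2 * r → ∑ i ∈ S.filter (fun i => u ≤ l i ∧ l i < u + 1 / K), x i ≤ Q / K) (hQ : 0 ≤ Q)
    (hh : 0 < h) (hh1 : h ≤ 1 / 2) (hKh : 1 ≤ K * h) (hr : 2 * h ≤ r) (hKr : 1 ≤ K * r)
    (hP : ∑ i ∈ S, x i ≤ P) (hv : ∀ i ∈ S, |l i - v| ≤ 3) :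
    |∑ i ∈ S.filter (fun i => v - h < l i ∧ l i < v), x i - ∑ i ∈ S, x i * Psi K h (l i - v)| ≤
      Q * (2600 + 112 * Real.log (3 * (K * h) + 3)) / K + 30 * h * P / (K * r ^ 2) := by
  have hK0 : (0 : ℝ) < K := by exact_mod_cast hK
  have hr0 : 0 < r := by linarith
  set S1 := S.filter (fun i => |l i - v| < r) with hS1
  set S2 := S.filter (fun i => ¬ |l i - v| < r) with hS2
  have hx1 : ∀ i ∈ S1, 0 ≤ x i := fun i hi => hx i (mem_filter.1 hi).1
  have hx2 : ∀ i ∈ S2, 0 ≤ x i := fun i hi => hx i (mem_filter.1 hi).1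
  have hc1 : ∀ u : ℝ, ∑ i ∈ S1.filter (fun i => u ≤ l i ∧ l i < u + 1 / K), x i ≤ Q / K := by
    intro u
    rcases (S1.filter (fun i => u ≤ l i ∧ l i < u + 1 / K)).eq_empty_or_nonempty with h0 | ⟨i, hi⟩
    · rw [h0, sum_empty]; positivity
    · rw [mem_filter, hS1, mem_filter] at hi
      have h1 : 1 / (K : ℝ) ≤ r := by rw [div_le_iff₀ hK0]; linarith
      have h2 := abs_lt.1 hi.1.2
      refine le_trans ?_ (hcell u (by rw [abs_le]; constructor <;> linarith [hi.2.1, hi.2.2]))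
      apply sum_le_sum_of_subset_of_nonneg (filter_subset_filter _ (filter_subset _ _))
      intro j hj _
      exact hx j (mem_filter.1 hj).1
  have h1 := win_err S1 x l hx1 K hK Q hc1 hQ v h hh hh1 hKh (fun i hi => hv i (mem_filter.1 hi).1)
  have e1 : ∑ i ∈ S.filter (fun i => v - h < l i ∧ l i < v), x i = ∑ i ∈ S1.filter (fun i => v - h < l i ∧ l i < v), x i := by
    congr 1
    rw [hS1, filter_filter]
    apply filter_congr
    intro i _
    constructor
    · intro h2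
      refine ⟨?_, h2⟩
      rw [abs_lt]; constructor <;> linarith [h2.1, h2.2]
    · intro h2; exact h2.2
  have e2 : ∑ i ∈ S, x i * Psi K h (l i - v) = ∑ i ∈ S1, x i * Psi K h (l i - v) + ∑ i ∈ S2, x i * Psi K h (l i - v) := by
    rw [hS1, hS2, sum_filter_add_sum_filter_not]
  have hpsi : ∀ y, 0 ≤ Psi K h y := by
    intro y
    rw [Psi_eq]
    have := Fj_int_nonneg K (a := y) (b := y + h) (by linarith)
    have := Real.pi_pos
    positivity
  have h2 : ∑ i ∈ S2, x i * Psi K h (l i - v) ≤ 30 * h * P / (K * r ^ 2) := by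
    have h3 : ∀ i ∈ S2, x i * Psi K h (l i - v) ≤ x i * (30 * h / (K * r ^ 2)) := by
      intro i hi
      apply mul_le_mul_of_nonneg_left _ (hx2 i hi)
      rw [hS2, mem_filter, not_lt] at hi
      refine (Psi_far hK hh (by linarith) (hv i hi.1) (hr.trans hi.2)).trans ?_
      have h4 : r ^ 2 ≤ (l i - v) ^ 2 := by
        rw [← sq_abs (l i - v)]
        exact pow_le_pow_left₀ hr0.le hi.2 2
      gcongr
    refine (sum_le_sum h3).trans ?_
    rw [← sum_mul]
    have h4 : ∑ i ∈ S2, x i ≤ P := by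
      refine le_trans ?_ hP
      apply sum_le_sum_of_subset_of_nonneg (filter_subset _ _)
      intro i hi _
      exact hx i hi
    calc (∑ i ∈ S2, x i) * (30 * h / (K * r ^ 2)) ≤ P * (30 * h / (K * r ^ 2)) := by gcongr
      _ = _ := by ring
  have h3 : 0 ≤ ∑ i ∈ S2, x i * Psi K h (l i - v) := sum_nonneg fun i hi => mul_nonneg (hx2 i hi) (hpsi _)
  rw [e1, e2]
  have h4 := abs_le.1 h1
  rw [abs_le]
  constructor <;> linarith [h4.1, h4.2]

/-- **Trilinear counts in windows.** -/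
theorem tri_win {γ ι : Type} (A : Finset ℕ) (C : Finset γ) (m : γ → ℝ) (S : Finset ι) (x l : ι → ℝ) (hx : ∀ i ∈ S, 0 ≤ x i)
    (K : ℕ) (hK : 1 ≤ K) (h r P Δ : ℝ) (hΔ : Δ ≤ 1 / 10)
    (hFS : ∀ s : ℝ, |s| ≤ 3 * r → |FS A C m S x l K s - 2 * Real.pi * (A.card * C.card)| ≤ 2 * Real.pi * (Δ * (A.card * C.card)))
    (hh : 0 < h) (hh1 : h ≤ 1 / 2) (hKh : 1 ≤ K * h) (hr : 2 * h ≤ r) (hKr : 1 ≤ K * r)
    (hP : ∑ i ∈ S, x i ≤ P) (hv : ∀ a ∈ A, ∀ c ∈ C, ∀ i ∈ S, |l i - (Real.log a + m c)| ≤ 3) :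
    |Sh A C m S x l h / h - A.card * C.card| ≤
      (Δ + 14 * (2600 + 112 * Real.log (3 * (K * h) + 3)) / (K * h) + 30 * P / (K * r ^ 2)) * (A.card * C.card) := by
  classical
  have hK0 : (0 : ℝ) < K := by exact_mod_cast hK
  have hpi := Real.pi_gt_d2
  have hpi2 := Real.pi_lt_d2
  have hpi0 := Real.pi_pos
  set D : ℝ := A.card * C.card with hD
  have hD0 : 0 ≤ D := by rw [hD]; exact mul_nonneg (Nat.cast_nonneg _) (Nat.cast_nonneg _)
  set F : Finset (ℕ × γ × ι) := A ×ˢ (C ×ˢ S) with hF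
  set x' : ℕ × γ × ι → ℝ := fun t => x t.2.2 with hx'
  set l' : ℕ × γ × ι → ℝ := fun t => l t.2.2 - Real.log t.1 - m t.2.1 with hl'
  have hmem : ∀ t ∈ F, t.1 ∈ A ∧ t.2.1 ∈ C ∧ t.2.2 ∈ S := by
    intro t ht
    rw [hF, mem_product, mem_product] at ht
    exact ht
  have hx0 : ∀ t ∈ F, 0 ≤ x' t := fun t ht => hx _ (hmem t ht).2.2
  have hsum3 : ∀ f : ℕ → γ → ι → ℝ, ∑ t ∈ F, f t.1 t.2.1 t.2.2 = ∑ a ∈ A, ∑ c ∈ C, ∑ i ∈ S, f a c i := by
    intro f
    rw [hF, sum_product]
    apply sum_congr rfl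
    intro a _
    rw [sum_product]
  have hPtot : ∑ t ∈ F, x' t ≤ D * P := by
    rw [hsum3 (fun _ _ i => x i)]
    simp_rw [sum_const, nsmul_eq_mul]
    rw [hD]
    calc (A.card : ℝ) * (C.card * ∑ i ∈ S, x i) ≤ A.card * (C.card * P) := by
          apply mul_le_mul_of_nonneg_left _ (Nat.cast_nonneg _)
          exact mul_le_mul_of_nonneg_left hP (Nat.cast_nonneg _)
      _ = _ := by ring
  -- cells
  have hcell : ∀ u : ℝ, |u - 0| ≤ 2 * r → ∑ t ∈ F.filter (fun t => u ≤ l' t ∧ l' t < u + 1 / K), x' t ≤ (14 * D) / K := by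
    intro u hu
    rw [sub_zero] at hu
    have h1K : 1 / (K : ℝ) ≤ r := by rw [div_le_iff₀ hK0]; linarith
    have hs : |-(u + 1 / (2 * K))| ≤ 3 * r := by
      rw [abs_neg]
      have e : 1 / (2 * (K : ℝ)) = 1 / K / 2 := by field_simp
      have h2 := abs_add_le u (1 / (2 * (K : ℝ)))
      have h3 : |1 / (2 * (K : ℝ))| = 1 / (2 * K) := abs_of_pos (by positivity)
      rw [h3, e] at h2
      rw [e]
      linarith
    have h1 := (abs_le.1 (hFS _ hs)).2
    have h2 : FS A C m S x l K (-(u + 1 / (2 * K))) = ∑ t ∈ F, x' t * Fj K (l' t - (u + 1 / (2 * K))) := by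
      rw [hsum3 (fun a c i => x i * Fj K ((l i - Real.log a - m c) - (u + 1 / (2 * K))))]
      unfold FS
      apply sum_congr rfl; intro a _
      apply sum_congr rfl; intro c _
      apply sum_congr rfl; intro i _
      rfl
    have h3 : ∑ t ∈ F.filter (fun t => u ≤ l' t ∧ l' t < u + 1 / K), x' t * (K / 2) ≤ FS A C m S x l K (-(u + 1 / (2 * K))) := by
      rw [h2]
      calc ∑ t ∈ F.filter (fun t => u ≤ l' t ∧ l' t < u + 1 / K), x' t * (K / 2)
          ≤ ∑ t ∈ F.filter (fun t => u ≤ l' t ∧ l' t < u + 1 / K), x' t * Fj K (l' t - (u + 1 / (2 * K))) := by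
            apply sum_le_sum
            intro t ht
            rw [mem_filter] at ht
            apply mul_le_mul_of_nonneg_left _ (hx0 t ht.1)
            apply Fj_near hK
            have e : 1 / (2 * (K : ℝ)) = 1 / K / 2 := by field_simp
            rw [abs_le, e]
            constructor <;> linarith [ht.2.1, ht.2.2]
        _ ≤ _ := by
            apply sum_le_sum_of_subset_of_nonneg (filter_subset _ _)
            intro t ht _
            exact mul_nonneg (hx0 t ht) (Fj_nonneg K _)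
    rw [← sum_mul] at h3
    have h4 : FS A C m S x l K (-(u + 1 / (2 * K))) ≤ 7 * D := by
      have h5 : 2 * Real.pi * (Δ * D) ≤ 2 * Real.pi * (1 / 10 * D) := by gcongr
      nlinarith
    rw [le_div_iff₀ hK0]
    linarith
  have hw := win_err2 F x' l' hx0 K hK (14 * D) 0 h r (D * P) hcell (by positivity) hh hh1 hKh hr hKr hPtot (by
    intro t ht
    obtain ⟨h1, h2, h3⟩ := hmem t ht
    have := hv _ h1 _ h2 _ h3
    rw [hl', sub_zero]
    have e : l t.2.2 - Real.log t.1 - m t.2.1 = l t.2.2 - (Real.log t.1 + m t.2.1) := by ring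
    simp only
    rw [e]; exact this)
  -- identification
  have e1 : ∑ t ∈ F.filter (fun t => 0 - h < l' t ∧ l' t < 0), x' t = Sh A C m S x l h := by
    rw [sum_filter]
    have h1 := hsum3 (fun a c i => if (0 - h < l i - Real.log a - m c ∧ l i - Real.log a - m c < 0) then x i else 0)
    rw [h1]
    unfold Sh
    apply sum_congr rfl; intro a _
    apply sum_congr rfl; intro c _
    rw [sum_filter]
    apply sum_congr rfl; intro i _
    by_cases hc : Real.log a + m c - h < l i ∧ l i < Real.log a + m c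
    · rw [if_pos hc, if_pos ⟨by linarith [hc.1], by linarith [hc.2]⟩]
    · rw [if_neg hc, if_neg (fun h3 => hc ⟨by linarith [h3.1], by linarith [h3.2]⟩)]
  have e2 : ∑ t ∈ F, x' t * Psi K h (l' t - 0) = (2 * Real.pi)⁻¹ * ∫ s in (0 : ℝ)..h, FS A C m S x l K s := by
    have h1 : ∀ s : ℝ, FS A C m S x l K s = ∑ t ∈ F, x' t * Fj K (l' t + s) := by
      intro s
      rw [hsum3 (fun a c i => x i * Fj K ((l i - Real.log a - m c) + s))]
      rfl
    simp_rw [h1]
    rw [intervalIntegral.integral_finsetSum]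
    · rw [mul_sum]
      apply sum_congr rfl
      intro t _
      rw [intervalIntegral.integral_const_mul, sub_zero]
      unfold Psi
      ring
    · intro t _
      apply Continuous.intervalIntegrable
      have := Fj_cont K
      fun_prop
  rw [e1, e2] at hw
  -- the integral
  have hint : |(2 * Real.pi)⁻¹ * (∫ s in (0 : ℝ)..h, FS A C m S x l K s) - h * D| ≤ h * (Δ * D) := by
    have hc := FS_cont A C m S x l K
    have e3 : (2 * Real.pi)⁻¹ * (∫ s in (0 : ℝ)..h, FS A C m S x l K s) - h * D =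
        (2 * Real.pi)⁻¹ * ∫ s in (0 : ℝ)..h, (FS A C m S x l K s - 2 * Real.pi * D) := by
      rw [intervalIntegral.integral_sub (hc.intervalIntegrable _ _) (by simp), intervalIntegral.integral_const, smul_eq_mul]
      field_simp
      ring
    rw [e3, abs_mul, abs_of_pos (by positivity)]
    have h1 := intervalIntegral.norm_integral_le_of_norm_le_const (a := (0 : ℝ)) (b := h) (C := 2 * Real.pi * (Δ * D))
      (f := fun s => FS A C m S x l K s - 2 * Real.pi * D) (by
      intro s hs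
      rw [Set.uIoc_of_le hh.le] at hs
      rw [Real.norm_eq_abs]
      apply hFS
      rw [abs_of_pos hs.1]
      linarith [hs.2])
    rw [Real.norm_eq_abs, sub_zero, abs_of_pos hh] at h1
    calc (2 * Real.pi)⁻¹ * |∫ s in (0 : ℝ)..h, (FS A C m S x l K s - 2 * Real.pi * D)| ≤
          (2 * Real.pi)⁻¹ * (2 * Real.pi * (Δ * D) * h) := by gcongr
      _ = _ := by field_simp
  have e4 : Sh A C m S x l h / h - D = ((Sh A C m S x l h - (2 * Real.pi)⁻¹ * ∫ s in (0 : ℝ)..h, FS A C m S x l K s) +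
      ((2 * Real.pi)⁻¹ * (∫ s in (0 : ℝ)..h, FS A C m S x l K s) - h * D)) / h := by
    field_simp
    ring
  rw [e4, abs_div, abs_of_pos hh, div_le_iff₀ hh]
  refine (abs_add_le _ _).trans ((add_le_add hw hint).trans (le_of_eq ?_))
  field_simp
  ring

end Pool.Agent.Y851.PT
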