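import Pool.Agent.Y851.PT.P2
import Pool.Agent.Y851.PS.G8

/-! The block theorem at the finest scale. -/

set_option autoImplicit false

namespace Pool.Agent.Y851.PT
open Finset
open Pool.Agent.H376R2.MR (Fj FK ch)
open Pool.Agent.Y851.PS

lemma L0_exists (δ : ℝ) (hδ : 0 < δ) : ∃ L0 : ℝ, 1 ≤ L0 ∧ ∀ t : ℝ, L0 ≤ t → 14 * (2600 + 112 * Real.log (3 * t + 3)) / t ≤ δ := by
  have h1 : Filter.Tendsto (fun x : ℝ => Real.log x / x ^ (1 : ℝ)) Filter.atTop (nhds 0) :=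
    (isLittleO_log_rpow_atTop (by norm_num)).tendsto_div_nhds_zero
  have h2 := h1.eventually (gt_mem_nhds (show (0 : ℝ) < δ / (2 * 14 * 112 * 6) by positivity))
  obtain ⟨x₀, hx₀⟩ := Filter.eventually_atTop.1 h2
  refine ⟨max 1 (max x₀ (2 * 14 * 2600 / δ)), le_max_left _ _, fun t ht => ?_⟩
  have ht1 : 1 ≤ t := (le_max_left _ _).trans ht
  have ht2 : x₀ ≤ t := ((le_max_left _ _).trans (le_max_right _ _)).trans ht
  have ht3 : 2 * 14 * 2600 / δ ≤ t := ((le_max_right _ _).trans (le_max_right _ _)).trans ht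
  have h3 := hx₀ (3 * t + 3) (by linarith)
  rw [Real.rpow_one, div_lt_iff₀ (by positivity)] at h3
  rw [div_le_iff₀ hδ] at ht3
  rw [div_le_iff₀ (by linarith)]
  have h4 : 14 * 112 * Real.log (3 * t + 3) ≤ δ * t / 2 := by
    calc 14 * 112 * Real.log (3 * t + 3) ≤ 14 * 112 * (δ / (2 * 14 * 112 * 6) * (3 * t + 3)) := by
          apply mul_le_mul_of_nonneg_left h3.le (by norm_num)
      _ = δ * (3 * t + 3) / 12 := by ring
      _ ≤ δ * (6 * t) / 12 := by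
          have : 3 * t + 3 ≤ 6 * t := by linarith
          gcongr
      _ = δ * t / 2 := by ring
  linarith

/-- **The block theorem**, with an energy bound. -/
theorem block2 (δ : ℝ) (hδ : 0 < δ) (hδ1 : δ ≤ 1 / 10) : ∃ L0 : ℝ, 1 ≤ L0 ∧ ∀ B E : ℝ, 1 ≤ B → 0 ≤ E → ∃ κ : ℝ, 0 < κ ∧
    ∀ (μ : ℝ) (T0 : ℕ), 1 ≤ μ → ∃ r K₂ Y₀ : ℝ, 0 < r ∧ ∀ Y : ℝ, Y₀ ≤ Y → ∀ K : ℕ, K₂ ≤ K → (K : ℝ) ≤ Real.exp Y →
    ∑ k ∈ FK K, wt K k * ‖TF (SPr Y) (xP Y) (fun p : ℕ => Real.log p) k‖ ^ 2 ≤ E →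
    ∀ A : Finset ℕ, Maj A μ κ T0 K → ∀ (γ : Type) (C : Finset γ) (mc : γ → ℝ),
    (∀ u : ℝ, ((C.filter (fun c => u ≤ mc c ∧ mc c < u + 1 / K)).card : ℝ) ≤ B * C.card / K) →
    (∀ c ∈ C, ∀ c' ∈ C, |mc c - mc c'| ≤ 4) → (∀ a ∈ A, ∀ c ∈ C, |Real.log a + mc c - Y| ≤ 1 / 2) →
    ∀ h : ℝ, 0 < h → 2 * h ≤ r → L0 ≤ K * h →
    |Sh A C mc (SPr Y) (xP Y) (fun p : ℕ => Real.log p) h / h - A.card * C.card| ≤ δ * (A.card * C.card) := by
  classical
  obtain ⟨L0, hL01, hL0⟩ := L0_exists (δ / 4) (by positivity)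
  refine ⟨L0, hL01, fun B E hB hE => ?_⟩
  obtain ⟨Q, Y1, hQ, hcell⟩ := SPr_cell (1 / 2) (by norm_num) (by norm_num)
  have hQ0 : 0 < Q := by linarith
  have hB0 : 0 < B := by linarith
  refine ⟨(δ / 4) ^ 2 / (2 * (6400 * B * (E + 1))), by positivity, fun μ T0 hμ => ?_⟩
  set κ := (δ / 4) ^ 2 / (2 * (6400 * B * (E + 1))) with hκ
  have hκ0 : 0 < κ := by positivity
  have hμ0 : 0 < μ := by linarith
  -- η
  set η := min 1 ((δ / 4) ^ 2 / (2 * (6400 * B * ((2 * T0 + 1) * μ)))) with hη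
  have hη0 : 0 < η := lt_min one_pos (by positivity)
  have hηsq : η ^ 2 ≤ (δ / 4) ^ 2 / (2 * (6400 * B * ((2 * T0 + 1) * μ))) := by
    have h1 : η ≤ 1 := min_le_left _ _
    have h2 : η ≤ (δ / 4) ^ 2 / (2 * (6400 * B * ((2 * T0 + 1) * μ))) := min_le_right _ _
    nlinarith
  have hsqrt : √(4 * (1600 * B) * ((2 * T0 + 1) * μ * η ^ 2 + κ * E)) ≤ δ / 4 := by
    apply Real.sqrt_le_iff.2
    refine ⟨by positivity, ?_⟩
    have h1 : 6400 * B * ((2 * T0 + 1) * μ * η ^ 2) ≤ (δ / 4) ^ 2 / 2 := by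
      calc 6400 * B * ((2 * T0 + 1) * μ * η ^ 2) = (6400 * B * ((2 * T0 + 1) * μ)) * η ^ 2 := by ring
        _ ≤ (6400 * B * ((2 * T0 + 1) * μ)) * ((δ / 4) ^ 2 / (2 * (6400 * B * ((2 * T0 + 1) * μ)))) := by gcongr
        _ = (δ / 4) ^ 2 / 2 := by field_simp
    have h2 : 6400 * B * (κ * E) ≤ (δ / 4) ^ 2 / 2 := by
      have h3 : 6400 * B * (κ * (E + 1)) = (δ / 4) ^ 2 / 2 := by
        rw [hκ]; field_simp
      have h4 : 6400 * B * (κ * E) ≤ 6400 * B * (κ * (E + 1)) := by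
        gcongr
        linarith
      linarith
    calc 4 * (1600 * B) * ((2 * T0 + 1) * μ * η ^ 2 + κ * E) = 6400 * B * ((2 * T0 + 1) * μ * η ^ 2) + 6400 * B * (κ * E) := by ring
      _ ≤ _ := by linarith
  obtain ⟨T, Y2, hsup⟩ := SPr_sup η hη0
  -- h2
  set h2 := min (1 / 2) (min (δ / 16) (δ / 16 / ((2 * T + 1) * T * 144 + 1))) with hh2
  have hh20 : 0 < h2 := lt_min (by norm_num) (lt_min (by positivity) (by positivity))
  have hh21 : h2 ≤ 1 / 2 := min_le_left _ _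
  have hh22 : h2 ≤ δ / 16 := (min_le_right _ _).trans (min_le_left _ _)
  have hh23 : (2 * (T : ℝ) + 1) * T * h2 * 144 ≤ δ / 16 := by
    have h1 : h2 ≤ δ / 16 / ((2 * T + 1) * T * 144 + 1) := (min_le_right _ _).trans (min_le_right _ _)
    rw [le_div_iff₀ (by positivity)] at h1
    linarith
  -- K₁
  obtain ⟨K₁, hK₁1, hK₁⟩ := log_grow (min (δ / 8 / (112 * Q) * h2) (h2)) (lt_min (by positivity) hh20)
  have hK₁0 : (0 : ℝ) < K₁ := by exact_mod_cast hK₁1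
  have hK₁a : 112 * Q * (1 + Real.log (4 * K₁ + 2)) / (K₁ * h2) ≤ δ / 8 := by
    rw [div_le_iff₀ (by positivity)]
    have h1 : 1 + Real.log (4 * K₁ + 2) ≤ (δ / 8 / (112 * Q) * h2) * K₁ :=
      hK₁.trans (mul_le_mul_of_nonneg_right (min_le_left _ _) hK₁0.le)
    calc 112 * Q * (1 + Real.log (4 * K₁ + 2)) ≤ 112 * Q * ((δ / 8 / (112 * Q) * h2) * K₁) := by gcongr
      _ = δ / 8 * (K₁ * h2) := by field_simp
  have hK₁b : 1 / (K₁ : ℝ) ≤ h2 := by
    rw [div_le_iff₀ hK₁0]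
    have h1 : 1 + Real.log (4 * K₁ + 2) ≤ h2 * K₁ := hK₁.trans (mul_le_mul_of_nonneg_right (min_le_right _ _) hK₁0.le)
    have h3 : 0 ≤ Real.log (4 * K₁ + 2) := Real.log_nonneg (by linarith)
    linarith
  obtain ⟨Y3, hpnt⟩ := pnt_win h2 (h2 * (δ / 16)) hh20 hh21 (by positivity)
  set r := h2 / 3 with hr
  have hr0 : 0 < r := by positivity
  refine ⟨r, max K₁ (max (1 / r) (4 * 30 * 144 / (δ * r ^ 2))), max (max Y1 Y2) (max Y3 (max 1 (2 * Real.log K₁))), hr0, ?_⟩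
  intro Y hY K hK hKe hEP A hA γ C mc hcC hmc hv h hh hhr hKh
  have hYa : Y1 ≤ Y := ((le_max_left _ _).trans (le_max_left _ _)).trans hY
  have hYb : Y2 ≤ Y := ((le_max_right _ _).trans (le_max_left _ _)).trans hY
  have hYc : Y3 ≤ Y := ((le_max_left _ _).trans (le_max_right _ _)).trans hY
  have hYd : 1 ≤ Y := (((le_max_left _ _).trans (le_max_right _ _)).trans (le_max_right _ _)).trans hY
  have hYe : 2 * Real.log K₁ ≤ Y := (((le_max_right _ _).trans (le_max_right _ _)).trans (le_max_right _ _)).trans hY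
  have hK₁K : K₁ ≤ K := by exact_mod_cast (le_max_left _ _).trans hK
  have hK1 : 1 ≤ K := hK₁1.trans hK₁K
  have hK0 : (0 : ℝ) < K := by exact_mod_cast hK1
  have hKr : 1 ≤ K * r := by
    have h1 : 1 / r ≤ K := ((le_max_left _ _).trans (le_max_right _ _)).trans hK
    rw [div_le_iff₀ hr0] at h1
    exact h1
  have hKr2 : 30 * 144 / (K * r ^ 2) ≤ δ / 4 := by
    have h1 : 4 * 30 * 144 / (δ * r ^ 2) ≤ K := ((le_max_right _ _).trans (le_max_right _ _)).trans hK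
    rw [div_le_iff₀ (by positivity)] at h1 ⊢
    linarith
  have hK₁e : (K₁ : ℝ) ≤ Real.exp ((1 - 1 / 2) * Y) := by
    rw [← Real.log_le_iff_le_exp hK₁0]
    linarith
  obtain ⟨Sν, ν, hAS, hν0, hν1, hm, hfar⟩ := hA.ex
  have hl4 : ∀ p ∈ SPr Y, ∀ q ∈ SPr Y, |Real.log (p : ℝ) - Real.log q| ≤ 4 := by
    intro p hp q hq
    unfold SPr at hp hq
    rw [mem_filter] at hp hq
    have h1 := abs_lt.1 hp.2.2
    have h3 := abs_lt.1 hq.2.2
    rw [abs_le]
    constructor <;> linarith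
  have hv3 : ∀ a ∈ A, ∀ c ∈ C, ∀ p ∈ SPr Y, |Real.log (p : ℝ) - (Real.log a + mc c)| ≤ 3 := by
    intro a ha c hc p hp
    unfold SPr at hp
    rw [mem_filter] at hp
    have h1 := abs_lt.1 hp.2.2
    have h3 := abs_le.1 (hv a ha c hc)
    rw [abs_le]
    constructor <;> linarith
  set D : ℝ := A.card * C.card with hD
  have hD0 : 0 ≤ D := by rw [hD]; exact mul_nonneg (Nat.cast_nonneg _) (Nat.cast_nonneg _)
  have hEC : ∑ k ∈ FK K, wt K k * ‖TF C (fun _ => (1 : ℝ)) mc k‖ ^ 2 ≤ (1600 * B) * (C.card : ℝ) ^ 2 := by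
    have h1 := energy_le C (fun _ => (1 : ℝ)) mc (fun _ _ => zero_le_one) K hK1 (B * C.card) C.card (by
      intro u
      rw [sum_const, nsmul_eq_mul, mul_one]
      have := hcC u
      exact this) (mul_nonneg hB0.le (Nat.cast_nonneg _)) (by simp) hmc
    refine h1.trans (le_of_eq ?_)
    ring
  have hfreq : ∀ s s' : ℝ, |s| ≤ 3 * r → 0 ≤ s' → s' ≤ h2 → |FS A C mc (SPr Y) (xP Y) (fun p : ℕ => Real.log p) K s -
      FS A C mc (SPr Y) (xP Y) (fun p : ℕ => Real.log p) K₁ s'| ≤ δ / 2 * D := by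
    intro s s' hs hs1 hs2
    refine (freq A Sν ν hAS hν0 hν1 C mc (SPr Y) (xP Y) (fun p : ℕ => Real.log p) (fun p _ => xP_nonneg Y p) K K₁ hK₁1 hK₁K s s'
      T T0 μ κ η (1600 * B) E 144 hκ0.le hη0.le hμ0.le hm (by
        intro k hk l hl hkl
        apply hfar (k - l) hkl
        unfold Pool.Agent.H376R2.MR.FK at hk hl
        rw [mem_Ioo] at hk hl
        have h1 : |k - l| ≤ 2 * K := by rw [abs_le]; omega
        have h3 : (((|k - l| : ℤ)) : ℝ) ≤ ((2 * K : ℤ) : ℝ) := by exact_mod_cast h1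
        rw [Int.cast_abs] at h3
        push_cast at h3 ⊢
        exact h3) (SPr_total Y) hEC hEP (by
        intro k hk hk2
        apply hsup Y hYb k hk2
        unfold Pool.Agent.H376R2.MR.FK at hk
        rw [mem_Ioo] at hk
        have h1 : |k| ≤ K := by rw [abs_le]; omega
        have h3 : (((|k| : ℤ)) : ℝ) ≤ ((K : ℤ) : ℝ) := by exact_mod_cast h1
        rw [Int.cast_abs] at h3
        push_cast at h3
        linarith)).trans ?_
    rw [← hD]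
    apply mul_le_mul_of_nonneg_right _ hD0
    have hs3 : |s| ≤ h2 := by rw [hr] at hs; linarith
    have hs4 : |s'| ≤ h2 := by rw [abs_of_nonneg hs1]; exact hs2
    have h1 : 1 / (K : ℝ) ≤ h2 := by
      refine le_trans ?_ hK₁b
      apply one_div_le_one_div_of_le hK₁0
      exact_mod_cast hK₁K
    have h3 : (2 * (T : ℝ) + 1) * T * (1 / K + 1 / K₁ + |s| + |s'|) * 144 ≤ δ / 4 := by
      calc (2 * (T : ℝ) + 1) * T * (1 / K + 1 / K₁ + |s| + |s'|) * 144 ≤ (2 * (T : ℝ) + 1) * T * (h2 + h2 + h2 + h2) * 144 := by gcongr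
        _ = 4 * ((2 * (T : ℝ) + 1) * T * h2 * 144) := by ring
        _ ≤ δ / 4 := by linarith
    linarith
  -- the constant scale
  have h5 := Sh_near A C mc (SPr Y) (xP Y) (fun p : ℕ => Real.log p) (fun p _ => xP_nonneg Y p) K₁ hK₁1 Q
    (hcell Y hYa K₁ hK₁1 hK₁e) hQ0.le h2 hh20.le (by linarith) hv3
  have hpn := Sh_pnt A C mc Y h2 (h2 ^ 2 + h2 * (δ / 16)) hh20 hv (fun v hvY => by convert hpnt Y hYc v hvY)
  rw [← hD] at h5 hpn
  set I2 := ∫ s in (0 : ℝ)..h2, FS A C mc (SPr Y) (xP Y) (fun p : ℕ => Real.log p) K₁ s with hI2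
  set S2 := Sh A C mc (SPr Y) (xP Y) (fun p : ℕ => Real.log p) h2 with hS2
  have hpi := Real.pi_gt_d2
  have hpi0 := Real.pi_pos
  have h6 : |(2 * Real.pi)⁻¹ * (I2 / h2) - D| ≤ δ / 4 * D := by
    have e : (2 * Real.pi)⁻¹ * (I2 / h2) - D = (S2 / h2 - D) - (S2 - (2 * Real.pi)⁻¹ * I2) / h2 := by ring
    rw [e]
    have h7 : |(S2 - (2 * Real.pi)⁻¹ * I2) / h2| ≤ δ / 8 * D := by
      rw [abs_div, abs_of_pos hh20, div_le_iff₀ hh20]
      refine h5.trans ?_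
      have h8 : 112 * Q * (1 + Real.log (4 * K₁ + 2)) / K₁ ≤ δ / 8 * h2 := by
        rw [div_le_iff₀ (by positivity)] at hK₁a ⊢
        linarith
      calc 112 * Q * (1 + Real.log (4 * K₁ + 2)) / K₁ * D ≤ (δ / 8 * h2) * D := mul_le_mul_of_nonneg_right h8 hD0
        _ = _ := by ring
    have h9 : |S2 / h2 - D| ≤ δ / 8 * D := by
      refine hpn.trans (mul_le_mul_of_nonneg_right ?_ hD0)
      rw [div_le_iff₀ hh20]
      nlinarith
    refine (abs_sub _ _).trans ?_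
    linarith
  have hFS : ∀ s : ℝ, |s| ≤ 3 * r → |FS A C mc (SPr Y) (xP Y) (fun p : ℕ => Real.log p) K s - 2 * Real.pi * (A.card * C.card)| ≤
      2 * Real.pi * (δ / 2 * (A.card * C.card)) := by
    intro s hs
    rw [← hD]
    have h7 := avg_close (fun _ => FS A C mc (SPr Y) (xP Y) (fun p : ℕ => Real.log p) K s) _ continuous_const
      (FS_cont A C mc (SPr Y) (xP Y) (fun p : ℕ => Real.log p) K₁) 1 h2 (δ / 2 * D) one_pos hh20
      (fun _ s' _ _ h3 h4 => hfreq s s' hs h3 h4)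
    rw [intervalIntegral.integral_const, smul_eq_mul, sub_zero, one_mul, div_one, ← hI2] at h7
    have h8 : |I2 / h2 - 2 * Real.pi * D| ≤ 2 * Real.pi * (δ / 4 * D) := by
      have e : I2 / h2 - 2 * Real.pi * D = 2 * Real.pi * ((2 * Real.pi)⁻¹ * (I2 / h2) - D) := by
        field_simp
      rw [e, abs_mul, abs_of_pos (by positivity)]
      gcongr
    have e : FS A C mc (SPr Y) (xP Y) (fun p : ℕ => Real.log p) K s - 2 * Real.pi * D =
        (FS A C mc (SPr Y) (xP Y) (fun p : ℕ => Real.log p) K s - I2 / h2) + (I2 / h2 - 2 * Real.pi * D) := by ring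
    rw [e]
    refine (abs_add_le _ _).trans ((add_le_add h7 h8).trans ?_)
    have hδD : 0 ≤ δ * D := mul_nonneg hδ.le hD0
    nlinarith
  have hfin := tri_win A C mc (SPr Y) (xP Y) (fun p : ℕ => Real.log p) (fun p _ => xP_nonneg Y p) K hK1 h r 144 (δ / 2)
    (by linarith) hFS hh (by linarith) (hL01.trans hKh) hhr hKr (SPr_total Y) hv3
  refine hfin.trans ?_
  rw [← hD]
  apply mul_le_mul_of_nonneg_right _ hD0
  have := hL0 (K * h) hKh
  linarith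

end Pool.Agent.Y851.PT
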