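import Pool.Agent.Y851.PS.G6
import Pool.Agent.Y851.PS.G12
import Pool.Agent.H357R2.SI.Moment

/-! The energy of the primes at the finest scale. -/

set_option autoImplicit false

namespace Pool.Agent.Y851.PT
open Finset
open Pool.Agent.H376R2.MR (Fj FK ch Fj_nonneg Fj_le)
open Pool.Agent.Y851.PS
open Pool.Agent.H357R2.SI (PZ mem_PZ close_pairs pair_sieve sum_sg_sq sg)

/-- Chebyshev's bound -/
lemma cheb : ∃ C : ℝ, 1 ≤ C ∧ ∀ Z : ℕ, 2 ≤ Z → ((PZ Z).card : ℝ) ≤ C * Z / Real.log Z := by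
  classical
  obtain ⟨C, hC, hBT⟩ := Pool.Agent.Helper923.PPS.brun_titchmarsh
  refine ⟨2 * C + 1, by linarith, fun Z hZ => ?_⟩
  have hZr : (2 : ℝ) ≤ Z := by exact_mod_cast hZ
  have hlog : 0 < Real.log Z := Real.log_pos (by linarith)
  have h1 := hBT 0 1 (Z + 1) (by omega) (Or.inl rfl)
  have h2 : ((PZ Z).card : ℝ) ≤ (((Finset.range (Z + 1)).filter (fun k => (0 + k * 1).Prime)).card : ℝ) := by
    apply Nat.cast_le.2
    apply card_le_card
    intro p hp
    rw [mem_PZ] at hp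
    rw [mem_filter, mem_range, zero_add, mul_one]
    exact ⟨by omega, hp.1⟩
  refine (h2.trans h1).trans ?_
  have h3 : Real.log Z ≤ Real.log ((Z + 1 : ℕ) : ℝ) := by
    apply Real.log_le_log (by linarith)
    push_cast; linarith
  push_cast at h3 ⊢
  calc C * ((Z : ℝ) + 1) / Real.log (Z + 1) ≤ C * (2 * Z) / Real.log Z := by
        gcongr
        linarith
    _ ≤ (2 * C + 1) * Z / Real.log Z := by
        apply div_le_div_of_nonneg_right _ hlog.le
        nlinarith

/-- pairs of primes at a bounded distance -/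
lemma pairs_ar : ∃ (C : ℝ) (Z₀ : ℕ), 1 ≤ C ∧ 3 ≤ Z₀ ∧ ∀ Z T : ℕ, Z₀ ≤ Z →
    ((((PZ Z) ×ˢ (PZ Z)).filter (fun x => x.1 < x.2 + T ∧ x.2 < x.1 + T)).card : ℝ) ≤
      C * (Z / Real.log Z + Z * T / Real.log Z ^ 2) := by
  obtain ⟨C0, hC0, hcheb⟩ := cheb
  obtain ⟨C1, hC1, u0, hps⟩ := pair_sieve
  obtain ⟨C2, hC2, hsg⟩ := sum_sg_sq
  refine ⟨C0 + 2 * (C1 * C2), max u0 3, by nlinarith, le_max_right _ _, fun Z T hZ => ?_⟩
  have hZu : u0 ≤ Z := (le_max_left _ _).trans hZ
  have hZ3 : 3 ≤ Z := (le_max_right _ _).trans hZ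
  have hZr : (3 : ℝ) ≤ Z := by exact_mod_cast hZ3
  have hlog : 0 < Real.log Z := Real.log_pos (by linarith)
  have h1 : ((((PZ Z) ×ˢ (PZ Z)).filter (fun x => x.1 < x.2 + T ∧ x.2 < x.1 + T)).card : ℝ) ≤
      ((PZ Z).card : ℝ) + 2 * ∑ h ∈ Finset.Icc 1 T, (((Finset.Ioc 0 Z).filter (fun n => n.Prime ∧ (n + h).Prime)).card : ℝ) := by
    exact_mod_cast close_pairs Z T
  have h2 : ∑ h ∈ Finset.Icc 1 T, (((Finset.Ioc 0 Z).filter (fun n => n.Prime ∧ (n + h).Prime)).card : ℝ) ≤
      ∑ h ∈ Finset.Icc 1 T, C1 * sg h ^ 2 * Z / Real.log Z ^ 2 := by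
    apply sum_le_sum
    intro h hh
    rw [mem_Icc] at hh
    have := hps h 0 Z (by omega) hZu
    rw [zero_add] at this
    exact this
  have h3 : ∑ h ∈ Finset.Icc 1 T, C1 * sg h ^ 2 * Z / Real.log Z ^ 2 ≤ C1 * C2 * (Z * T / Real.log Z ^ 2) := by
    have e : ∑ h ∈ Finset.Icc 1 T, C1 * sg h ^ 2 * Z / Real.log Z ^ 2 = (∑ h ∈ Finset.Icc 1 T, sg h ^ 2) * (C1 * Z / Real.log Z ^ 2) := by
      rw [sum_mul]
      apply sum_congr rfl
      intro h _
      ring
    rw [e]
    calc (∑ h ∈ Finset.Icc 1 T, sg h ^ 2) * (C1 * Z / Real.log Z ^ 2) ≤ (C2 * T) * (C1 * Z / Real.log Z ^ 2) := by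
          apply mul_le_mul_of_nonneg_right (hsg T) (by positivity)
      _ = _ := by ring
  have h4 := hcheb Z (by omega)
  have h5 : 0 ≤ (Z : ℝ) / Real.log Z := by positivity
  have h6 : 0 ≤ (Z : ℝ) * T / Real.log Z ^ 2 := by positivity
  have h7 : C0 * (Z : ℝ) / Real.log Z = C0 * (Z / Real.log Z) := by ring
  rw [h7] at h4
  have h8 : 0 ≤ C0 * ((Z : ℝ) * T / Real.log Z ^ 2) := by positivity
  have h9 : 0 ≤ 2 * (C1 * C2) * ((Z : ℝ) / Real.log Z) := by positivity
  have h10 : (C0 + 2 * (C1 * C2)) * ((Z : ℝ) / Real.log Z + Z * T / Real.log Z ^ 2) =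
      C0 * (Z / Real.log Z) + C0 * (Z * T / Real.log Z ^ 2) + 2 * (C1 * C2) * (Z / Real.log Z) +
      2 * (C1 * C2 * (Z * T / Real.log Z ^ 2)) := by ring
  rw [h10]
  linarith

open Classical in
/-- pairs in the logarithmic scale -/
lemma pairs_log : ∃ (C Y₀ : ℝ), 1 ≤ C ∧ 1 ≤ Y₀ ∧ ∀ Y : ℝ, Y₀ ≤ Y → ∀ r : ℝ, Y * Real.exp (-Y) ≤ r →
    ∑ p ∈ SPr Y, ∑ q ∈ (SPr Y).filter (fun q : ℕ => |Real.log q - Real.log p| ≤ r), xP Y p * xP Y q ≤ C * r := by
  obtain ⟨C, Z₀, hC, hZ₀, hpairs⟩ := pairs_ar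
  refine ⟨144 ^ 2 + C * 45 ^ 2 * 2000, max 4 (Real.log Z₀), by nlinarith, (by norm_num : (1 : ℝ) ≤ 4).trans (le_max_left _ _),
    fun Y hY r hr => ?_⟩
  have hY4 : 4 ≤ Y := (le_max_left _ _).trans hY
  have hYZ : Real.log Z₀ ≤ Y := (le_max_right _ _).trans hY
  have hr0 : 0 < r := lt_of_lt_of_le (by positivity) hr
  have hx0 := fun p => xP_nonneg Y p
  rcases le_or_gt 1 r with h1 | h1
  · -- trivial range
    have h2 : ∑ p ∈ SPr Y, ∑ q ∈ (SPr Y).filter (fun q : ℕ => |Real.log q - Real.log p| ≤ r), xP Y p * xP Y q ≤ 144 * 144 := by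
      calc ∑ p ∈ SPr Y, ∑ q ∈ (SPr Y).filter (fun q : ℕ => |Real.log q - Real.log p| ≤ r), xP Y p * xP Y q
          ≤ ∑ p ∈ SPr Y, ∑ q ∈ SPr Y, xP Y p * xP Y q := by
            apply sum_le_sum
            intro p _
            apply sum_le_sum_of_subset_of_nonneg (filter_subset _ _)
            intro q _ _
            exact mul_nonneg (hx0 p) (hx0 q)
        _ = (∑ p ∈ SPr Y, xP Y p) * (∑ q ∈ SPr Y, xP Y q) := by rw [sum_mul_sum]
        _ ≤ 144 * 144 := by
            have := SPr_total Y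
            apply mul_le_mul this this (sum_nonneg fun p _ => hx0 p) (by norm_num)
    have h3 : 0 ≤ C * 45 ^ 2 * 2000 * r := by positivity
    nlinarith
  · set Z : ℕ := ⌈Real.exp (Y + 2)⌉₊ with hZ
    set T : ℕ := ⌈Real.exp (Y + 2) * r⌉₊ + 1 with hT
    have hexp : 0 < Real.exp (Y + 2) := Real.exp_pos _
    have hZ1 : Real.exp (Y + 2) ≤ Z := Nat.le_ceil _
    have hZ2 : (Z : ℝ) ≤ 2 * Real.exp (Y + 2) := by
      have := Nat.ceil_lt_add_one hexp.le
      have h2 : 1 ≤ Real.exp (Y + 2) := Real.one_le_exp (by linarith)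
      linarith
    have hexpY : Real.exp (Y + 2) = Real.exp Y * Real.exp 2 := Real.exp_add _ _
    have he2 : Real.exp 2 ≤ 7.4 := by
      have : Real.exp 2 = Real.exp 1 * Real.exp 1 := by rw [← Real.exp_add]; norm_num
      have h2 := Real.exp_one_lt_d9
      have h3 := Real.exp_pos 1
      rw [this]; nlinarith
    have he2' : 7 ≤ Real.exp 2 := by
      have : Real.exp 2 = Real.exp 1 * Real.exp 1 := by rw [← Real.exp_add]; norm_num
      have h2 := Real.exp_one_gt_d9
      rw [this]; nlinarith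
    have hZZ : Z₀ ≤ Z := by
      have h2 : (Z₀ : ℝ) ≤ Real.exp (Y + 2) := by
        rw [← Real.log_le_iff_le_exp (by exact_mod_cast (show 0 < Z₀ by omega))]
        linarith
      exact_mod_cast h2.trans hZ1
    -- size of T
    have hEr : Y * Real.exp 2 ≤ Real.exp (Y + 2) * r := by
      have h2 : Real.exp (Y + 2) * (Y * Real.exp (-Y)) ≤ Real.exp (Y + 2) * r := by gcongr
      have h3 : Real.exp (Y + 2) * (Y * Real.exp (-Y)) = Y * Real.exp 2 := by
        rw [hexpY, Real.exp_neg]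
        have := Real.exp_pos Y
        field_simp
      linarith
    have hT1 : Real.exp (Y + 2) * r < T := by
      rw [hT]; push_cast
      linarith [Nat.le_ceil (Real.exp (Y + 2) * r)]
    have hT2 : (T : ℝ) ≤ 2 * (Real.exp (Y + 2) * r) := by
      rw [hT]; push_cast
      have := Nat.ceil_lt_add_one (show 0 ≤ Real.exp (Y + 2) * r by positivity)
      nlinarith
    have hlogZ1 : Y ≤ Real.log Z := by
      have := Real.log_le_log hexp hZ1
      rw [Real.log_exp] at this
      linarith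
    have hlogZ2 : Real.log Z ≤ T := by
      have h2 : Real.log Z ≤ Real.log (2 * Real.exp (Y + 2)) := Real.log_le_log (by linarith) hZ2
      rw [Real.log_mul (by norm_num) hexp.ne', Real.log_exp] at h2
      have h3 := Real.log_two_lt_d9
      nlinarith
    have hlogZ0 : 0 < Real.log Z := by linarith
    have hp := hpairs Z T hZZ
    have hp2 : (Z : ℝ) / Real.log Z + Z * T / Real.log Z ^ 2 ≤ 2000 * (Real.exp Y ^ 2 * r / Y ^ 2) := by
      have h2 : (Z : ℝ) / Real.log Z ≤ Z * T / Real.log Z ^ 2 := by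
        rw [div_le_div_iff₀ hlogZ0 (by positivity)]
        calc (Z : ℝ) * Real.log Z ^ 2 = Z * Real.log Z * Real.log Z := by ring
          _ ≤ Z * T * Real.log Z := by gcongr
      have h3 : (Z : ℝ) * T / Real.log Z ^ 2 ≤ (2 * Real.exp (Y + 2)) * (2 * (Real.exp (Y + 2) * r)) / Y ^ 2 := by gcongr
      have h4 : (2 * Real.exp (Y + 2)) * (2 * (Real.exp (Y + 2) * r)) / Y ^ 2 = 4 * Real.exp 2 ^ 2 * (Real.exp Y ^ 2 * r / Y ^ 2) := by
        rw [hexpY]; ring
      have h5 : 4 * Real.exp 2 ^ 2 ≤ 1000 := by nlinarith [Real.exp_pos 2]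
      have h6 : 0 ≤ Real.exp Y ^ 2 * r / Y ^ 2 := by positivity
      have h7 := mul_le_mul_of_nonneg_right h5 h6
      linarith
    -- weights
    have hxle : ∀ p ∈ SPr Y, xP Y p ≤ 45 * (Y / Real.exp Y) := by
      intro p hp
      unfold SPr at hp
      rw [mem_filter] at hp
      have hpp : (0 : ℝ) < p := by exact_mod_cast hp.2.1.pos
      have h2 := abs_lt.1 hp.2.2
      have h3 : Real.exp (Y - 2) ≤ p := by
        rw [← Real.le_log_iff_exp_le hpp]; linarith
      have h4 : Real.log p ≤ Y + 2 := by linarith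
      have h5 := g3_le (Real.log p - Y)
      have h6 := g3_nonneg (Real.log p - Y)
      have h7 : Real.exp (Y - 2) = Real.exp Y / Real.exp 2 := Real.exp_sub _ _
      unfold xP
      calc Real.log p / p * g3 (Real.log p - Y) ≤ (Y + 2) / Real.exp (Y - 2) * 3 := by gcongr
        _ = 3 * Real.exp 2 * ((Y + 2) / Real.exp Y) := by rw [h7]; field_simp
        _ ≤ 45 * (Y / Real.exp Y) := by
          have h8 : (Y + 2) / Real.exp Y ≤ (3 / 2 * Y) / Real.exp Y := by
            apply div_le_div_of_nonneg_right _ (Real.exp_pos Y).le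
            linarith
          have h9 : 0 ≤ Y / Real.exp Y := by positivity
          calc 3 * Real.exp 2 * ((Y + 2) / Real.exp Y) ≤ 3 * 7.4 * ((3 / 2 * Y) / Real.exp Y) := by gcongr
            _ = 33.3 * (Y / Real.exp Y) := by ring
            _ ≤ 45 * (Y / Real.exp Y) := by nlinarith
    -- the count
    have hcount : ∑ p ∈ SPr Y, ∑ q ∈ (SPr Y).filter (fun q : ℕ => |Real.log q - Real.log p| ≤ r), (1 : ℝ) ≤
        ((((PZ Z) ×ˢ (PZ Z)).filter (fun x => x.1 < x.2 + T ∧ x.2 < x.1 + T)).card : ℝ) := by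
      have e : ∑ p ∈ SPr Y, ∑ q ∈ (SPr Y).filter (fun q : ℕ => |Real.log q - Real.log p| ≤ r), (1 : ℝ) =
          (((SPr Y ×ˢ SPr Y).filter (fun x : ℕ × ℕ => |Real.log x.2 - Real.log x.1| ≤ r)).card : ℝ) := by
        rw [card_eq_sum_ones]
        push_cast
        rw [sum_filter, sum_product]
        apply sum_congr rfl
        intro p _
        rw [sum_filter]
      rw [e]
      apply Nat.cast_le.2
      apply card_le_card
      intro x hx
      rw [mem_filter, mem_product] at hx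
      obtain ⟨⟨hx1, hx2⟩, hx3⟩ := hx
      have hlt : ∀ a b : ℕ, a ∈ SPr Y → b ∈ SPr Y → |Real.log a - Real.log b| ≤ r → a < b + T := by
        intro a b ha hb hab
        unfold SPr at ha hb
        rw [mem_filter] at ha hb
        have ha0 : (0 : ℝ) < a := by exact_mod_cast ha.2.1.pos
        have hb0 : (0 : ℝ) < b := by exact_mod_cast hb.2.1.pos
        have h2 := (abs_le.1 hab).2
        have ha1 : (a : ℝ) ≤ Real.exp (Y + 2) := by
          rw [← Real.log_le_iff_le_exp ha0]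
          linarith [(abs_lt.1 ha.2.2).2]
        have h3 : (a : ℝ) * Real.exp (-r) ≤ b := by
          rw [← Real.exp_log ha0, ← Real.exp_add, ← Real.le_log_iff_exp_le hb0]
          linarith
        have h4 : 1 - r ≤ Real.exp (-r) := Real.one_sub_le_exp_neg r
        have h5 : (a : ℝ) * (1 - r) ≤ a * Real.exp (-r) := by gcongr
        have h6 : (a : ℝ) * r ≤ Real.exp (Y + 2) * r := by gcongr
        have h7 : (a : ℝ) < ((b + T : ℕ) : ℝ) := by
          push_cast
          linarith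
        exact_mod_cast h7
      have hmemZ : ∀ a ∈ SPr Y, a ∈ PZ Z := by
        intro a ha
        unfold SPr at ha
        rw [mem_filter, mem_Icc] at ha
        rw [mem_PZ]
        exact ⟨ha.2.1, ha.1.2⟩
      rw [mem_filter, mem_product]
      refine ⟨⟨hmemZ _ hx1, hmemZ _ hx2⟩, hlt _ _ hx1 hx2 (by rw [abs_sub_comm]; exact hx3), hlt _ _ hx2 hx1 hx3⟩
    have h45 : 0 ≤ 45 * (Y / Real.exp Y) := by positivity
    calc ∑ p ∈ SPr Y, ∑ q ∈ (SPr Y).filter (fun q : ℕ => |Real.log q - Real.log p| ≤ r), xP Y p * xP Y q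
        ≤ ∑ p ∈ SPr Y, ∑ q ∈ (SPr Y).filter (fun q : ℕ => |Real.log q - Real.log p| ≤ r), (45 * (Y / Real.exp Y)) ^ 2 * 1 := by
          apply sum_le_sum
          intro p hp
          apply sum_le_sum
          intro q hq
          rw [mem_filter] at hq
          rw [mul_one, sq]
          exact mul_le_mul (hxle p hp) (hxle q hq.1) (hx0 q) h45
      _ = (45 * (Y / Real.exp Y)) ^ 2 * ∑ p ∈ SPr Y, ∑ q ∈ (SPr Y).filter (fun q : ℕ => |Real.log q - Real.log p| ≤ r), (1 : ℝ) := by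
          simp_rw [mul_sum]
      _ ≤ (45 * (Y / Real.exp Y)) ^ 2 * (C * (2000 * (Real.exp Y ^ 2 * r / Y ^ 2))) := by
          apply mul_le_mul_of_nonneg_left _ (by positivity)
          refine (hcount.trans hp).trans ?_
          gcongr
      _ = C * 45 ^ 2 * 2000 * r := by
          have := Real.exp_pos Y
          field_simp
      _ ≤ (144 ^ 2 + C * 45 ^ 2 * 2000) * r := by nlinarith

/-- **The energy of the primes.** -/
theorem EP_bound (R : ℝ) (hR : 1 ≤ R) : ∃ E Y₀ : ℝ, 0 ≤ E ∧ ∀ Y : ℝ, Y₀ ≤ Y → ∀ K : ℕ, 1 ≤ K → (K : ℝ) ≤ R * (Real.exp Y / Y) →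
    ∑ k ∈ FK K, wt K k * ‖TF (SPr Y) (xP Y) (fun p : ℕ => Real.log p) k‖ ^ 2 ≤ E := by
  classical
  obtain ⟨C, Y₀, hC, hY₀, hpl⟩ := pairs_log
  refine ⟨320 * (C * R), Y₀, by positivity, fun Y hY K hK hKR => ?_⟩
  have hY1 : 1 ≤ Y := hY₀.trans hY
  have hK0 : (0 : ℝ) < K := by exact_mod_cast hK
  have hx0 := fun p => xP_nonneg Y p
  rw [energy_eq]
  -- number of scales
  set n : ℕ := Nat.clog 2 (4 * K) + 1 with hn
  have hn1 : 4 * K ≤ 2 ^ (Nat.clog 2 (4 * K)) := Nat.le_pow_clog (by norm_num) _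
  have hF : ∀ y : ℝ, |y| ≤ 4 → Fj K y ≤ ∑ i ∈ range n, (160 * K * (1 / 4) ^ i) * (if |y| ≤ 2 ^ i / K then (1 : ℝ) else 0) := by
    intro y hy
    have hnn : ∀ i ∈ range n, 0 ≤ (160 * K * (1 / 4 : ℝ) ^ i) * (if |y| ≤ 2 ^ i / K then (1 : ℝ) else 0) := by
      intro i _
      split_ifs <;> positivity
    rcases le_or_gt (K * |y|) 1 with h1 | h1
    · refine (Fj_le K y).trans ?_
      refine le_trans ?_ (single_le_sum hnn (mem_range.2 (show 0 < n by omega)))
      rw [pow_zero, pow_zero, if_pos (by rw [le_div_iff₀ hK0]; linarith)]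
      linarith
    · -- the dyadic scale
      have hex : ∃ i : ℕ, K * |y| ≤ 2 ^ i := ⟨Nat.clog 2 (4 * K), by
        have h2 : ((4 * K : ℕ) : ℝ) ≤ ((2 ^ (Nat.clog 2 (4 * K)) : ℕ) : ℝ) := by exact_mod_cast hn1
        push_cast at h2
        calc K * |y| ≤ K * 4 := by gcongr
          _ = 4 * K := by ring
          _ ≤ _ := h2⟩
      set i := Nat.find hex with hi
      have hi1 : K * |y| ≤ 2 ^ i := Nat.find_spec hex
      have hi0 : i ≠ 0 := by
        intro h0
        rw [h0, pow_zero] at hi1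
        linarith
      obtain ⟨j, hj⟩ := Nat.exists_eq_succ_of_ne_zero hi0
      have hj1 : ¬ K * |y| ≤ 2 ^ j := Nat.find_min hex (by omega)
      rw [not_le] at hj1
      have hin : i < n := by
        have h2 : i ≤ Nat.clog 2 (4 * K) := Nat.find_min' hex (by
          have h2 : ((4 * K : ℕ) : ℝ) ≤ ((2 ^ (Nat.clog 2 (4 * K)) : ℕ) : ℝ) := by exact_mod_cast hn1
          push_cast at h2
          calc K * |y| ≤ K * 4 := by gcongr
            _ = 4 * K := by ring
            _ ≤ _ := h2)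
        omega
      have hy0 : 0 < |y| := by
        by_contra hcon
        have : |y| = 0 := le_antisymm (not_lt.1 hcon) (abs_nonneg y)
        rw [this] at h1
        linarith
      have hyne : y ≠ 0 := abs_pos.1 hy0
      refine (Fj_dec hK hyne hy).trans ?_
      refine le_trans ?_ (single_le_sum hnn (mem_range.2 hin))
      rw [if_pos (by rw [le_div_iff₀ hK0]; linarith), mul_one]
      have h3 : (2 : ℝ) ^ i = 2 * 2 ^ j := by rw [hj, Nat.succ_eq_add_one, pow_succ]; ring
      have h4 : ((2 : ℝ) ^ i) ^ 2 ≤ 4 * (K * |y|) ^ 2 := by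
        rw [h3, mul_pow]
        have h5 : ((2 : ℝ) ^ j) ^ 2 ≤ (K * |y|) ^ 2 := pow_le_pow_left₀ (by positivity) hj1.le 2
        linarith
      have h5 : (1 / 4 : ℝ) ^ i = 1 / (2 ^ i) ^ 2 := by
        rw [one_div_pow, ← pow_mul, mul_comm i 2, pow_mul]
        norm_num
      rw [h5]
      have h6 : (K * |y|) ^ 2 = K ^ 2 * y ^ 2 := by rw [mul_pow, sq_abs]
      rw [h6] at h4
      have h7 : (0 : ℝ) < (2 ^ i) ^ 2 := by positivity
      have e : 160 * (K : ℝ) * (1 / (2 ^ i) ^ 2) = 160 * K / (2 ^ i) ^ 2 := by ring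
      rw [e, div_le_div_iff₀ (by positivity) h7]
      calc 40 * ((2 : ℝ) ^ i) ^ 2 ≤ 40 * (4 * (K ^ 2 * y ^ 2)) := by gcongr
        _ = 160 * K * (K * y ^ 2) := by ring
  calc ∑ p ∈ SPr Y, xP Y p * ∑ q ∈ SPr Y, xP Y q * Fj K (Real.log q - Real.log p)
      ≤ ∑ p ∈ SPr Y, xP Y p * ∑ q ∈ SPr Y, xP Y q * ∑ i ∈ range n, (160 * K * (1 / 4) ^ i) * (if |Real.log q - Real.log p| ≤ 2 ^ i / K then (1 : ℝ) else 0) := by
        apply sum_le_sum
        intro p hp
        apply mul_le_mul_of_nonneg_left _ (hx0 p)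
        apply sum_le_sum
        intro q hq
        apply mul_le_mul_of_nonneg_left _ (hx0 q)
        apply hF
        unfold SPr at hp hq
        rw [mem_filter] at hp hq
        have h1 := abs_lt.1 hp.2.2
        have h3 := abs_lt.1 hq.2.2
        rw [abs_le]
        constructor <;> linarith
    _ = ∑ p ∈ SPr Y, ∑ q ∈ SPr Y, ∑ i ∈ range n, (160 * K * (1 / 4) ^ i) *
        (if |Real.log q - Real.log p| ≤ 2 ^ i / K then xP Y p * xP Y q else 0) := by
        apply sum_congr rfl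
        intro p _
        rw [mul_sum]
        apply sum_congr rfl
        intro q _
        rw [mul_sum, mul_sum]
        apply sum_congr rfl
        intro i _
        split_ifs <;> ring
    _ = ∑ p ∈ SPr Y, ∑ i ∈ range n, ∑ q ∈ SPr Y, (160 * K * (1 / 4) ^ i) *
        (if |Real.log q - Real.log p| ≤ 2 ^ i / K then xP Y p * xP Y q else 0) :=
        sum_congr rfl fun p _ => sum_comm
    _ = ∑ i ∈ range n, ∑ p ∈ SPr Y, ∑ q ∈ SPr Y, (160 * K * (1 / 4) ^ i) *
        (if |Real.log q - Real.log p| ≤ 2 ^ i / K then xP Y p * xP Y q else 0) := sum_comm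
    _ = ∑ i ∈ range n, (160 * K * (1 / 4) ^ i) * ∑ p ∈ SPr Y, ∑ q ∈ (SPr Y).filter (fun q : ℕ => |Real.log q - Real.log p| ≤ 2 ^ i / K), xP Y p * xP Y q := by
        apply sum_congr rfl
        intro i _
        rw [mul_sum]
        apply sum_congr rfl
        intro p _
        rw [← mul_sum, sum_filter]
    _ ≤ ∑ i ∈ range n, (160 * K * (1 / 4) ^ i) * (C * (R * (2 ^ i / K))) := by
        apply sum_le_sum
        intro i _
        apply mul_le_mul_of_nonneg_left _ (by positivity)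
        have hrr : Y * Real.exp (-Y) ≤ R * (2 ^ i / K) := by
          have h1 : Y * Real.exp (-Y) ≤ R / K := by
            rw [le_div_iff₀ hK0]
            calc Y * Real.exp (-Y) * K ≤ Y * Real.exp (-Y) * (R * (Real.exp Y / Y)) := by gcongr
              _ = R := by
                rw [Real.exp_neg]
                have := Real.exp_pos Y
                field_simp
          have h2 : (1 : ℝ) ≤ 2 ^ i := one_le_pow₀ (by norm_num)
          calc Y * Real.exp (-Y) ≤ R / K := h1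
            _ = R * (1 / K) := by ring
            _ ≤ _ := by gcongr
        refine le_trans ?_ (hpl Y hY (R * (2 ^ i / K)) hrr)
        apply sum_le_sum
        intro p _
        apply sum_le_sum_of_subset_of_nonneg
        · intro q hq
          rw [mem_filter] at hq ⊢
          refine ⟨hq.1, hq.2.trans ?_⟩
          have : 0 ≤ (2 : ℝ) ^ i / K := by positivity
          nlinarith
        · intro q _ _
          exact mul_nonneg (hx0 p) (hx0 q)
    _ = 160 * (C * R) * ∑ i ∈ range n, (1 / 2 : ℝ) ^ i := by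
        rw [mul_sum]
        apply sum_congr rfl
        intro i _
        have h1 : (1 / 4 : ℝ) ^ i * 2 ^ i = (1 / 2) ^ i := by rw [← mul_pow]; norm_num
        have e : 160 * (K : ℝ) * (1 / 4) ^ i * (C * (R * (2 ^ i / K))) = 160 * (C * R) * ((1 / 4) ^ i * 2 ^ i) := by
          field_simp
        rw [e, h1]
    _ ≤ 160 * (C * R) * 2 := by
        apply mul_le_mul_of_nonneg_left _ (by positivity)
        have h1 := Summable.sum_le_tsum (range n) (fun i _ => (by positivity : (0 : ℝ) ≤ (1 / 2 : ℝ) ^ i)) (summable_geometric_of_lt_one (by norm_num) (by norm_num))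
        rw [tsum_geometric_of_lt_one (by norm_num) (by norm_num)] at h1
        norm_num at h1 ⊢
        linarith
    _ = 320 * (C * R) := by ring

end Pool.Agent.Y851.PT
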