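import Pool.Agent.Y851.PT.P3
import Pool.Agent.Y851.PT.P4
import Pool.Agent.Y851.PS.G15

/-! Windows of arbitrary length in a block. -/

set_option autoImplicit false

namespace Pool.Agent.Y851.PT
open Finset Filter
open Pool.Agent.H376R2.MR (Fj FK ch)
open Pool.Agent.Y851.PS

open Classical in
/-- the primes in `(x - H, x)` -/
noncomputable def PH (H x : ℝ) : Finset ℕ := (Icc 1 ⌊x⌋₊).filter (fun p => p.Prime ∧ x - H < p ∧ (p : ℝ) < x)

lemma mem_PH {H x : ℝ} (hx : 0 ≤ x) (p : ℕ) : p ∈ PH H x ↔ p.Prime ∧ x - H < p ∧ (p : ℝ) < x := by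
  classical
  have _ := hx
  unfold PH
  rw [mem_filter, mem_Icc]
  constructor
  · rintro ⟨_, h⟩; exact h
  · intro h
    exact ⟨⟨h.1.one_lt.le, Nat.le_floor h.2.2.le⟩, h⟩

lemma PH_empty {H x : ℝ} (hx : x < 2) : PH H x = ∅ := by
  classical
  unfold PH
  apply filter_eq_empty_iff.2
  rintro p _ ⟨h1, _, h3⟩
  have : (2 : ℝ) ≤ p := by exact_mod_cast h1.two_le
  linarith

/-- the normalised number of primes in `(x - H, x)` -/
noncomputable def ZH (H x : ℝ) : ℝ := ((PH H x).card : ℝ) * Real.log x / H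

lemma ZH_nonneg {H : ℝ} (hH : 0 ≤ H) (x : ℝ) : 0 ≤ ZH H x := by
  unfold ZH
  by_cases hx : x < 2
  · rw [PH_empty hx]; simp
  · push Not at hx
    have := Real.log_nonneg (show (1 : ℝ) ≤ x by linarith)
    positivity

lemma ZH_pos_iff {H : ℝ} (hH : 0 < H) (x : ℝ) : 0 < ZH H x ↔ ∃ p : ℕ, p.Prime ∧ x - H < p ∧ (p : ℝ) < x := by
  by_cases hx : x < 2
  · unfold ZH
    rw [PH_empty hx]
    constructor
    · intro h; simp at h
    · rintro ⟨p, h1, h2, h3⟩
      have : (2 : ℝ) ≤ p := by exact_mod_cast h1.two_le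
      linarith
  · push Not at hx
    have hx0 : 0 ≤ x := by linarith
    constructor
    · intro h
      have h1 : (PH H x).Nonempty := by
        rw [nonempty_iff_ne_empty]
        intro h2
        unfold ZH at h
        rw [h2] at h
        simp at h
      obtain ⟨p, hp⟩ := h1
      exact ⟨p, (mem_PH hx0 p).1 hp⟩
    · rintro ⟨p, hp⟩
      have h1 : p ∈ PH H x := (mem_PH hx0 p).2 hp
      have h2 : 0 < (PH H x).card := card_pos.2 ⟨p, h1⟩
      have h3 : (0 : ℝ) < (PH H x).card := by exact_mod_cast h2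
      have h5 : 0 < Real.log x := Real.log_pos (by linarith)
      unfold ZH
      positivity

lemma win_lowH {H w Y v h : ℝ} (hH : 0 < H) (hw : 0 < w) (hw1 : w ≤ 1 / 4) (hv : |v - Y| ≤ w) (hY : 1 ≤ Y)
    (hh : h = H * Real.exp (-(Y + w))) (hhw : h ≤ w) : SW Y h v / h ≤ Real.exp (3 * w) * ZH H (Real.exp v) := by
  classical
  have hv' := abs_le.1 hv
  have hh0 : 0 < h := by rw [hh]; positivity
  set x := Real.exp v with hx
  have hx0 : 0 < x := Real.exp_pos v
  have hlogx : Real.log x = v := Real.log_exp v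
  have hv0 : 0 ≤ v := by linarith
  have hhx : h * x ≤ H := by
    rw [hh, hx, mul_assoc, ← Real.exp_add]
    have : Real.exp (-(Y + w) + v) ≤ 1 := Real.exp_le_one_iff.2 (by linarith)
    nlinarith
  have hmem : ∀ p ∈ (SPr Y).filter (fun p : ℕ => v - h < Real.log p ∧ Real.log p < v), p ∈ PH H x ∧ xP Y p ≤ v * Real.exp h / x := by
    intro p hp
    rw [mem_filter] at hp
    obtain ⟨hp1, hp2, hp3⟩ := hp
    unfold SPr at hp1
    rw [mem_filter] at hp1
    have hpp := hp1.2.1
    have hp0 : (0 : ℝ) < p := by exact_mod_cast hpp.pos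
    have h1 : Real.exp (v - h) < p := by
      rw [← Real.lt_log_iff_exp_lt hp0]; exact hp2
    have h2 : (p : ℝ) < x := by
      rw [hx, ← Real.log_lt_iff_lt_exp hp0]; exact hp3
    have h3 : x * Real.exp (-h) < p := by
      rw [hx, ← Real.exp_add]
      have : v + -h = v - h := by ring
      rw [this]; exact h1
    constructor
    · rw [mem_PH hx0.le]
      refine ⟨hpp, ?_, h2⟩
      have h4 : 1 - h ≤ Real.exp (-h) := by
        have := Real.add_one_le_exp (-h)
        linarith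
      have h5 : x * (1 - h) ≤ x * Real.exp (-h) := mul_le_mul_of_nonneg_left h4 hx0.le
      linarith
    · unfold xP
      have hg : g3 (Real.log p - Y) = 1 := by
        apply g3_one
        rw [abs_le]
        constructor <;> linarith
      rw [hg, mul_one, div_le_div_iff₀ hp0 hx0]
      have h4 : 0 ≤ Real.log p := Real.log_natCast_nonneg p
      have h5 : x ≤ Real.exp h * p := by
        have e : x = Real.exp h * (x * Real.exp (-h)) := by
          rw [Real.exp_neg]
          have := Real.exp_pos h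
          field_simp
        rw [e]
        exact mul_le_mul_of_nonneg_left h3.le (Real.exp_pos h).le
      calc Real.log p * x ≤ v * (Real.exp h * p) := mul_le_mul hp3.le h5 hx0.le hv0
        _ = v * Real.exp h * p := by ring
  have h1 : SW Y h v ≤ (PH H x).card * (v * Real.exp h / x) := by
    unfold SW
    calc ∑ p ∈ (SPr Y).filter (fun p : ℕ => v - h < Real.log p ∧ Real.log p < v), xP Y p
        ≤ ∑ _p ∈ (SPr Y).filter (fun p : ℕ => v - h < Real.log p ∧ Real.log p < v), v * Real.exp h / x :=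
          sum_le_sum fun p hp => (hmem p hp).2
      _ ≤ ∑ _p ∈ PH H x, v * Real.exp h / x := by
          apply sum_le_sum_of_subset_of_nonneg (fun p hp => (hmem p hp).1)
          intro _ _ _
          positivity
      _ = _ := by rw [sum_const, nsmul_eq_mul]
  have h2 : Real.exp h * H ≤ Real.exp (3 * w) * (h * x) := by
    have h3 : h * x = H * Real.exp (-(Y + w) + v) := by rw [hh, hx, mul_assoc, ← Real.exp_add]
    rw [h3]
    have h4 : Real.exp (3 * w) * (H * Real.exp (-(Y + w) + v)) = H * Real.exp (3 * w + (-(Y + w) + v)) := by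
      rw [Real.exp_add (3 * w)]; ring
    rw [h4, mul_comm]
    apply mul_le_mul_of_nonneg_left _ hH.le
    rw [Real.exp_le_exp]
    linarith
  unfold ZH
  rw [hlogx, div_le_iff₀ hh0]
  refine h1.trans ?_
  have hN : (0 : ℝ) ≤ ((PH H x).card : ℝ) * v := by positivity
  calc ((PH H x).card : ℝ) * (v * Real.exp h / x) = (((PH H x).card : ℝ) * v) * ((Real.exp h * H) / (x * H)) := by
        field_simp
    _ ≤ (((PH H x).card : ℝ) * v) * ((Real.exp (3 * w) * (h * x)) / (x * H)) := by gcongr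
    _ = _ := by field_simp

lemma win_uppH {H w Y v h : ℝ} (hH : 0 < H) (hw : 0 < w) (hw1 : w ≤ 1 / 4) (hv : |v - Y| ≤ w) (hY : 3 ≤ Y)
    (ht : H * Real.exp (-(Y - w)) ≤ w / 2) (hh : h = (1 + w) * (H * Real.exp (-(Y - w)))) :
    ZH H (Real.exp v) ≤ Real.exp (3 * w) * (SW Y h v / h) := by
  classical
  have hv' := abs_le.1 hv
  set t := H * Real.exp (-(Y - w)) with ht'
  have ht0 : 0 < t := by positivity
  have hh0 : 0 < h := by rw [hh]; positivity
  have hh1 : h ≤ w := by rw [hh]; nlinarith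
  set x := Real.exp v with hx
  have hx0 : 0 < x := Real.exp_pos v
  have hlogx : Real.log x = v := Real.log_exp v
  have hv0 : 0 ≤ v := by linarith
  have htx : t * x = H * Real.exp (-(Y - w) + v) := by rw [ht', hx, mul_assoc, ← Real.exp_add]
  have hxt : H ≤ t * x := by
    rw [htx]
    have : 1 ≤ Real.exp (-(Y - w) + v) := Real.one_le_exp (by linarith)
    nlinarith
  have hmem : ∀ p ∈ PH H x, p ∈ (SPr Y).filter (fun p : ℕ => v - h < Real.log p ∧ Real.log p < v) ∧ v / x ≤ xP Y p := by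
    intro p hp
    rw [mem_PH hx0.le] at hp
    obtain ⟨hpp, hp1, hp2⟩ := hp
    have hp0 : (0 : ℝ) < p := by exact_mod_cast hpp.pos
    have h1 : (1 - t) * x < p := by linarith
    have h2 : Real.log p < v := by
      rw [← hlogx]
      exact Real.log_lt_log hp0 hp2
    have h1t : 0 < 1 - t := by linarith
    have h3 : v - h < Real.log p := by
      have h4 : Real.log ((1 - t) * x) < Real.log p := Real.log_lt_log (by positivity) h1
      rw [Real.log_mul h1t.ne' hx0.ne', hlogx] at h4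
      have h5 : 1 - (1 - t)⁻¹ ≤ Real.log (1 - t) := Real.one_sub_inv_le_log_of_pos h1t
      have h6 : (1 - t)⁻¹ - 1 ≤ (1 + w) * t := by
        have : (1 - t)⁻¹ ≤ 1 + (1 + w) * t := by
          rw [inv_le_iff_one_le_mul₀ h1t]
          nlinarith
        linarith
      rw [hh]
      linarith
    have habs : |Real.log p - Y| ≤ 1 := by
      rw [abs_le]
      constructor <;> linarith
    constructor
    · rw [mem_filter]
      exact ⟨mem_SPr hpp (by linarith), h3, h2⟩
    · unfold xP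
      rw [g3_one habs, mul_one]
      have he1 : Real.exp 1 ≤ p := by
        rw [← Real.le_log_iff_exp_le hp0]
        linarith
      have := Real.log_div_self_antitoneOn (Set.mem_setOf.2 he1) (Set.mem_setOf.2 (he1.trans hp2.le)) hp2.le
      simp only at this
      rw [hlogx] at this
      exact this
  have h1 : (PH H x).card * (v / x) ≤ SW Y h v := by
    unfold SW
    calc ((PH H x).card : ℝ) * (v / x) = ∑ _p ∈ PH H x, v / x := by rw [sum_const, nsmul_eq_mul]
      _ ≤ ∑ p ∈ PH H x, xP Y p := sum_le_sum fun p hp => (hmem p hp).2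
      _ ≤ _ := sum_le_sum_of_subset_of_nonneg (fun p hp => (hmem p hp).1) fun p _ _ => xP_nonneg Y p
  have h2 : h * x ≤ Real.exp (3 * w) * H := by
    have h3 : 1 + w ≤ Real.exp w := by
      have := Real.add_one_le_exp w
      linarith
    calc h * x = (1 + w) * (t * x) := by rw [hh]; ring
      _ ≤ Real.exp w * (t * x) := by gcongr
      _ = H * Real.exp (w + (-(Y - w) + v)) := by rw [htx, Real.exp_add w]; ring
      _ ≤ H * Real.exp (3 * w) := by
        apply mul_le_mul_of_nonneg_left _ hH.le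
        rw [Real.exp_le_exp]
        linarith
      _ = _ := mul_comm _ _
  unfold ZH
  rw [hlogx, div_le_iff₀ hH]
  have hSW : 0 ≤ SW Y h v := by
    unfold SW
    exact sum_nonneg fun p _ => xP_nonneg Y p
  calc ((PH H x).card : ℝ) * v = (((PH H x).card : ℝ) * (v / x)) * x := by field_simp
    _ ≤ SW Y h v * x := by gcongr
    _ = (SW Y h v / h) * (h * x) := by field_simp
    _ ≤ (SW Y h v / h) * (Real.exp (3 * w) * H) := by gcongr
    _ = _ := by ring

/-- **The counts in a block.** -/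
theorem blockH (δ : ℝ) (hδ : 0 < δ) (hδ1 : δ ≤ 1 / 10) : ∃ L0 : ℝ, 1 ≤ L0 ∧ ∀ B lam : ℝ, 1 ≤ B → 0 < lam → ∃ κ : ℝ, 0 < κ ∧
    ∀ (μ : ℝ) (T0 : ℕ), 1 ≤ μ → ∃ r₀ Y₀ : ℝ, 0 < r₀ ∧
    ∀ Y : ℝ, Y₀ ≤ Y → ∀ H : ℝ, lam * Y ≤ H → H ≤ r₀ * Real.exp Y → ∀ K : ℕ, 2 * L0 * (Real.exp Y / H) ≤ K → (K : ℝ) ≤ 8 * L0 * (Real.exp Y / H) →
    ∀ A : Finset ℕ, (∀ a ∈ A, 1 ≤ a) → Maj A μ κ T0 K → ∀ (C : Finset ℝ), (∀ c ∈ C, 0 < c) →
    (∀ u : ℝ, ((C.filter (fun c => u ≤ Real.log c ∧ Real.log c < u + 1 / K)).card : ℝ) ≤ B * C.card / K) →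
    (∀ c ∈ C, ∀ c' ∈ C, |Real.log c - Real.log c'| ≤ 4) → (∀ a ∈ A, ∀ c ∈ C, |Real.log a + Real.log c - Y| ≤ min (1 / 8) (δ / 24)) →
    |∑ a ∈ A, ∑ c ∈ C, (ZH H (a * c) - 1)| ≤ δ * (A.card * C.card) := by
  classical
  obtain ⟨L0, hL0, hblock⟩ := block2 (δ / 4) (by positivity) (by linarith)
  refine ⟨L0, hL0, fun B lam hB hlam => ?_⟩
  have hL00 : 0 < L0 := by linarith
  obtain ⟨E, YE, hE, hEP⟩ := EP_bound (max 1 (8 * L0 / lam)) (le_max_left _ _)
  obtain ⟨κ, hκ, hblock2⟩ := hblock B E hB hE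
  set w := min (1 / 8) (δ / 24) with hw
  have hw0 : 0 < w := lt_min (by norm_num) (by positivity)
  have hw1 : w ≤ 1 / 8 := min_le_left _ _
  have hw2 : w ≤ δ / 24 := min_le_right _ _
  refine ⟨κ, hκ, fun μ T0 hμ => ?_⟩
  obtain ⟨r, K₂, Y₂, hr, hb⟩ := hblock2 μ T0 hμ
  set r₀ := min (min (w / 8) (r / 8)) (2 * L0 / (max K₂ 1)) with hr₀
  have hK₂m : 0 < max K₂ 1 := lt_of_lt_of_le one_pos (le_max_right _ _)
  have hr₀0 : 0 < r₀ := lt_min (lt_min (by positivity) (by positivity)) (by positivity)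
  have hr₀w : r₀ ≤ w / 8 := (min_le_left _ _).trans (min_le_left _ _)
  have hr₀r : r₀ ≤ r / 8 := (min_le_left _ _).trans (min_le_right _ _)
  have hr₀K : r₀ ≤ 2 * L0 / (max K₂ 1) := min_le_right _ _
  refine ⟨r₀, max (max YE Y₂) (max 3 (8 * L0 / lam)), hr₀0, ?_⟩
  intro Y hY H hH1 hH2 K hK1 hK2 A hA1 hMaj C hC0 hcell hCC hAC
  have hYE : YE ≤ Y := ((le_max_left _ _).trans (le_max_left _ _)).trans hY
  have hY₂ : Y₂ ≤ Y := ((le_max_right _ _).trans (le_max_left _ _)).trans hY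
  have hY3 : 3 ≤ Y := ((le_max_left _ _).trans (le_max_right _ _)).trans hY
  have hYL : 8 * L0 / lam ≤ Y := ((le_max_right _ _).trans (le_max_right _ _)).trans hY
  have hH0 : 0 < H := lt_of_lt_of_le (by positivity) hH1
  have heY : 0 < Real.exp Y := Real.exp_pos Y
  have hKpos : (0 : ℝ) < K := lt_of_lt_of_le (by positivity) hK1
  have hKnat : 1 ≤ K := by
    have : 0 < K := by exact_mod_cast hKpos
    omega
  -- size of `K`
  have hKR : (K : ℝ) ≤ 8 * L0 / lam * (Real.exp Y / Y) := by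
    refine hK2.trans ?_
    calc 8 * L0 * (Real.exp Y / H) ≤ 8 * L0 * (Real.exp Y / (lam * Y)) := by gcongr
      _ = _ := by field_simp
  have hKe : (K : ℝ) ≤ Real.exp Y := by
    refine hKR.trans ?_
    have h1 : 8 * L0 / lam * (Real.exp Y / Y) = Real.exp Y * ((8 * L0 / lam) / Y) := by ring
    rw [h1]
    have h2 : (8 * L0 / lam) / Y ≤ 1 := by
      rw [div_le_one (by linarith)]; exact hYL
    nlinarith
  have hKR2 : (K : ℝ) ≤ max 1 (8 * L0 / lam) * (Real.exp Y / Y) := by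
    refine hKR.trans ?_
    have : 0 < Y := by linarith
    gcongr
    exact le_max_right _ _
  have hEPY := hEP Y hYE K hKnat hKR2
  have hKK₂ : K₂ ≤ K := by
    have h1 : r₀ * max K₂ 1 ≤ 2 * L0 := by rwa [le_div_iff₀ hK₂m] at hr₀K
    have h2 : max K₂ 1 ≤ 2 * L0 * (Real.exp Y / H) := by
      have h3 : 1 / r₀ ≤ Real.exp Y / H := by
        rw [div_le_div_iff₀ hr₀0 hH0]; linarith
      have h4 : max K₂ 1 ≤ 2 * L0 / r₀ := by
        rw [le_div_iff₀ hr₀0]; linarith
      calc max K₂ 1 ≤ 2 * L0 / r₀ := h4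
        _ = 2 * L0 * (1 / r₀) := by ring
        _ ≤ _ := by gcongr
    exact (le_max_left _ _).trans (h2.trans hK1)
  -- the windows
  set h₁ := H * Real.exp (-(Y + w)) with hh₁
  have hh₁0 : 0 < h₁ := by positivity
  set t := H * Real.exp (-(Y - w)) with ht
  have ht0 : 0 < t := by positivity
  have hexpw : Real.exp w ≤ 2 := by
    have h1 : Real.exp w ≤ Real.exp (1 / 2) := Real.exp_le_exp.2 (by linarith)
    have h2 : Real.exp (1 / 2 : ℝ) ≤ 2 := by
      have h3 : Real.exp (1 / 2 : ℝ) * Real.exp (1 / 2) = Real.exp 1 := by rw [← Real.exp_add]; norm_num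
      have h4 := Real.exp_one_lt_d9
      have h5 := Real.exp_pos (1 / 2 : ℝ)
      nlinarith
    linarith
  have htle : t ≤ 2 * r₀ := by
    rw [ht]
    have e : Real.exp (-(Y - w)) = Real.exp w / Real.exp Y := by
      rw [← Real.exp_sub]; congr 1; ring
    rw [e]
    calc H * (Real.exp w / Real.exp Y) ≤ (r₀ * Real.exp Y) * (2 / Real.exp Y) := by gcongr
      _ = 2 * r₀ := by field_simp
  set h₂ := (1 + w) * t with hh₂
  have hh₂0 : 0 < h₂ := by positivity
  have hh₂le : h₂ ≤ 4 * r₀ := by rw [hh₂]; nlinarith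
  have hh₁t : h₁ ≤ t := by
    rw [hh₁, ht]
    apply mul_le_mul_of_nonneg_left _ hH0.le
    rw [Real.exp_le_exp]; linarith
  have hh₁₂ : h₁ ≤ h₂ := by
    rw [hh₂]; nlinarith
  have hKh₁ : L0 ≤ K * h₁ := by
    have e : h₁ = H * (1 / (Real.exp Y * Real.exp w)) := by
      rw [hh₁, neg_add, Real.exp_add, Real.exp_neg, Real.exp_neg]
      field_simp
    calc L0 = (2 * L0 * (Real.exp Y / H)) * (H * (1 / (Real.exp Y * 2))) := by field_simp
      _ ≤ K * h₁ := by
        rw [e]
        have h1 : H * (1 / (Real.exp Y * 2)) ≤ H * (1 / (Real.exp Y * Real.exp w)) := by gcongr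
        apply mul_le_mul hK1 h1 (by positivity) hKpos.le
  have hKh₂ : L0 ≤ K * h₂ := hKh₁.trans (by gcongr)
  have hv : ∀ a ∈ A, ∀ c ∈ C, |Real.log a + Real.log c - Y| ≤ 1 / 2 := fun a ha c hc => (hAC a ha c hc).trans (by linarith)
  have r1 := hb Y hY₂ K hKK₂ hKe hEPY A hMaj ℝ C Real.log hcell hCC hv h₁ hh₁0 (by linarith) hKh₁
  have r2 := hb Y hY₂ K hKK₂ hKe hEPY A hMaj ℝ C Real.log hcell hCC hv h₂ hh₂0 (by linarith) hKh₂
  -- comparison
  have hAC0 : (0 : ℝ) ≤ A.card * C.card := mul_nonneg (Nat.cast_nonneg _) (Nat.cast_nonneg _)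
  have hex : ∀ a ∈ A, ∀ c ∈ C, (a : ℝ) * c = Real.exp (Real.log a + Real.log c) := by
    intro a ha c hc
    have ha0 : (0 : ℝ) < a := by exact_mod_cast hA1 a ha
    rw [Real.exp_add, Real.exp_log ha0, Real.exp_log (hC0 c hc)]
  have hlow : Sh A C Real.log (SPr Y) (xP Y) (fun p : ℕ => Real.log p) h₁ / h₁ ≤ Real.exp (3 * w) * ∑ a ∈ A, ∑ c ∈ C, ZH H (a * c) := by
    unfold Sh
    simp_rw [sum_div, mul_sum]
    apply sum_le_sum
    intro a ha
    apply sum_le_sum
    intro c hc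
    rw [hex a ha c hc]
    have := win_lowH (v := Real.log a + Real.log c) hH0 hw0 (by linarith) (hAC a ha c hc) (by linarith) hh₁ (by linarith)
    unfold SW at this
    rw [sum_div] at this
    convert this
  have hupp : ∑ a ∈ A, ∑ c ∈ C, ZH H (a * c) ≤ Real.exp (3 * w) * (Sh A C Real.log (SPr Y) (xP Y) (fun p : ℕ => Real.log p) h₂ / h₂) := by
    unfold Sh
    simp_rw [sum_div, mul_sum]
    apply sum_le_sum
    intro a ha
    apply sum_le_sum
    intro c hc
    rw [hex a ha c hc]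
    have := win_uppH (v := Real.log a + Real.log c) hH0 hw0 (by linarith) (hAC a ha c hc) hY3 (by linarith) hh₂
    unfold SW at this
    rw [sum_div, mul_sum] at this
    convert this
  have hexp : Real.exp (3 * w) ≤ 1 + δ / 4 := by
    have h1 : Real.exp (3 * w) * (1 - 3 * w) ≤ 1 := by
      have h2 := Real.one_sub_le_exp_neg (3 * w)
      have h3 := Real.exp_pos (3 * w)
      calc Real.exp (3 * w) * (1 - 3 * w) ≤ Real.exp (3 * w) * Real.exp (-(3 * w)) := by gcongr
        _ = 1 := by rw [← Real.exp_add, add_neg_cancel, Real.exp_zero]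
    have h2 : 1 ≤ (1 + δ / 4) * (1 - 3 * w) := by nlinarith
    have h3 : 0 < 1 - 3 * w := by linarith
    by_contra hcon
    push Not at hcon
    have := mul_lt_mul_of_pos_right hcon h3
    linarith
  have hexp1 : 1 ≤ Real.exp (3 * w) := Real.one_le_exp (by positivity)
  set Sz := ∑ a ∈ A, ∑ c ∈ C, ZH H (a * c) with hSz
  have hSz0 : 0 ≤ Sz := sum_nonneg fun a _ => sum_nonneg fun c _ => ZH_nonneg hH0.le _
  have e0 : ∑ a ∈ A, ∑ c ∈ C, (ZH H (a * c) - 1) = Sz - A.card * C.card := by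
    rw [hSz]
    simp_rw [sum_sub_distrib, sum_const, nsmul_eq_mul]
    ring
  rw [e0]
  set D : ℝ := A.card * C.card with hD
  set s1 := Sh A C Real.log (SPr Y) (xP Y) (fun p : ℕ => Real.log p) h₁ / h₁ with hs1
  set s2 := Sh A C Real.log (SPr Y) (xP Y) (fun p : ℕ => Real.log p) h₂ / h₂ with hs2
  clear_value D s1 s2 Sz
  have r1' := (abs_le.1 r1).1
  have r2' := (abs_le.1 r2).2
  rw [abs_le]
  constructor
  · have h1 : (1 - δ / 4) * D ≤ (1 + δ / 4) * Sz := by
      have h2 : Real.exp (3 * w) * Sz ≤ (1 + δ / 4) * Sz := mul_le_mul_of_nonneg_right hexp hSz0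
      linarith
    by_contra hcon
    push Not at hcon
    have h3 : Sz < (1 - δ) * D := by linarith
    have h4 : (1 + δ / 4) * Sz < (1 + δ / 4) * ((1 - δ) * D) := mul_lt_mul_of_pos_left h3 (by positivity)
    have h5 : (1 + δ / 4) * ((1 - δ) * D) ≤ (1 - δ / 4) * D := by
      have : (1 + δ / 4) * (1 - δ) ≤ 1 - δ / 4 := by nlinarith
      calc (1 + δ / 4) * ((1 - δ) * D) = ((1 + δ / 4) * (1 - δ)) * D := by ring
        _ ≤ _ := mul_le_mul_of_nonneg_right this hAC0
    linarith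
  · have h1 : s2 ≤ (1 + δ / 4) * D := by linarith
    have h2 : Sz ≤ (1 + δ / 4) * ((1 + δ / 4) * D) := by
      refine hupp.trans ?_
      have h3 : Real.exp (3 * w) * s2 ≤ Real.exp (3 * w) * ((1 + δ / 4) * D) := by gcongr
      refine h3.trans ?_
      gcongr
    have h3 : (1 + δ / 4) * ((1 + δ / 4) * D) ≤ (1 + δ) * D := by
      have : (1 + δ / 4) * (1 + δ / 4) ≤ 1 + δ := by nlinarith
      calc (1 + δ / 4) * ((1 + δ / 4) * D) = ((1 + δ / 4) * (1 + δ / 4)) * D := by ring
        _ ≤ _ := mul_le_mul_of_nonneg_right this hAC0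
    linarith

end Pool.Agent.Y851.PT
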