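import Pool.Agent.Y851.PT.P5
import Pool.Agent.Y851.PS.G16

/-! First and second moments of the window counts. -/

set_option autoImplicit false

namespace Pool.Agent.Y851.PT
open Finset Filter
open Pool.Agent.Y851.PS
open Pool.Agent.H357R2.SI (PZ mem_PZ)

/-- `C` is spread at the scale `H / X ^ θ` -/
structure SpH (B H θ X : ℝ) (C : Finset ℝ) : Prop where
  pos : ∀ c ∈ C, 0 < c
  le : ∀ c ∈ C, c ≤ X ^ (1 - θ)
  spread : ∀ u : ℝ, ((C.filter (fun c => u ≤ c ∧ c ≤ u + H / X ^ θ)).card : ℝ) ≤ B * (H / X) * C.card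

lemma rpow_eta {X H : ℝ} (hX : 1 < X) (hH : 0 < H) : X ^ (Real.log H / Real.log X) = H := by
  have hX0 : 0 < X := by linarith
  have hlog : 0 < Real.log X := Real.log_pos hX
  rw [Real.rpow_def_of_pos hX0, mul_div_cancel₀ _ hlog.ne', Real.exp_log hH]

lemma SpH.toSpr {B H θ X : ℝ} {C : Finset ℝ} (h : SpH B H θ X C) (hX : 1 < X) (hH : 0 < H) :
    Spr B (Real.log H / Real.log X) θ X C := by
  have hX0 : 0 < X := by linarith
  refine ⟨h.pos, h.le, fun u => ?_⟩
  have h1 : X ^ (Real.log H / Real.log X - θ) = H / X ^ θ := by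
    rw [Real.rpow_sub hX0, rpow_eta hX hH]
  have h2 : X ^ (Real.log H / Real.log X - 1) = H / X := by
    rw [Real.rpow_sub hX0, rpow_eta hX hH, Real.rpow_one]
  rw [h1, h2]
  exact h.spread u

lemma SpH.long {B H θ X : ℝ} {C : Finset ℝ} (h : SpH B H θ X C) (hX : 1 < X) (hH : 0 < H) (hB : 0 ≤ B) (u L : ℝ) (hL : H / X ^ θ ≤ L) :
    ((C.filter (fun c => u ≤ c ∧ c ≤ u + L)).card : ℝ) ≤ 2 * B * L * X ^ (θ - 1) * C.card := by
  have hX0 : 0 < X := by linarith
  apply (h.toSpr hX hH).long hX0 hB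
  rw [Real.rpow_sub hX0, rpow_eta hX hH]
  exact hL

/-- the dilations which see a given prime -/
lemma SpH.see {B H θ X : ℝ} {C : Finset ℝ} (h : SpH B H θ X C) (hX : 1 < X) (hH : 0 < H) (hB : 0 ≤ B) {a : ℕ} (ha : 1 ≤ a)
    (haX : (a : ℝ) ≤ X ^ θ) (p : ℕ) :
    ((C.filter (fun c => p ∈ PH H (a * c))).card : ℝ) ≤ 2 * B * (H / a) * X ^ (θ - 1) * C.card := by
  classical
  have hX0 : 0 < X := by linarith
  have ha0 : (0 : ℝ) < a := by exact_mod_cast ha
  have hL : H / X ^ θ ≤ H / a := by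
    apply div_le_div_of_nonneg_left hH.le ha0 haX
  refine le_trans ?_ (h.long hX hH hB (p / a) (H / a) hL)
  apply Nat.cast_le.2
  apply card_le_card
  intro c hc
  rw [mem_filter] at hc ⊢
  obtain ⟨hcC, hp⟩ := hc
  have hc0 := h.pos c hcC
  rw [mem_PH (by positivity)] at hp
  refine ⟨hcC, ?_, ?_⟩
  · rw [div_le_iff₀ ha0]
    linarith [hp.2.2]
  · rw [← add_div, le_div_iff₀ ha0]
    linarith [hp.2.1]

/-- **First moment** for a fixed `a`. -/
theorem fm : ∃ C0 : ℝ, 1 ≤ C0 ∧ ∀ B H θ X : ℝ, 1 < X → 0 < H → 0 ≤ B → ∀ C : Finset ℝ, SpH B H θ X C → ∀ a : ℕ, 1 ≤ a →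
    (a : ℝ) ≤ X ^ θ → ∀ κ : ℝ, 0 < κ → ∑ c ∈ C.filter (fun c => c ≤ κ * X ^ (1 - θ)), ZH H (a * c) ≤ C0 * B * κ * C.card := by
  classical
  obtain ⟨C, hC, hcheb⟩ := cheb
  refine ⟨4 * C, by linarith, ?_⟩
  intro B H θ X hX hH hB Cs hCs a ha haX κ hκ
  have hX0 : 0 < X := by linarith
  have ha0 : (0 : ℝ) < a := by exact_mod_cast ha
  have hcard0 : (0 : ℝ) ≤ Cs.card := Nat.cast_nonneg _
  set U : ℝ := a * (κ * X ^ (1 - θ)) with hU
  have hXt : 0 < X ^ (1 - θ) := by positivity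
  have hU0 : 0 < U := by positivity
  have hacU : ∀ c ∈ Cs.filter (fun c => c ≤ κ * X ^ (1 - θ)), (a : ℝ) * c ≤ U := by
    intro c hc
    rw [mem_filter] at hc
    rw [hU]
    exact mul_le_mul_of_nonneg_left hc.2 ha0.le
  by_cases hU2 : U < 2
  · have h0 : ∑ c ∈ Cs.filter (fun c => c ≤ κ * X ^ (1 - θ)), ZH H (a * c) = 0 := by
      apply sum_eq_zero
      intro c hc
      unfold ZH
      rw [PH_empty (lt_of_le_of_lt (hacU c hc) hU2)]
      simp
    rw [h0]
    exact mul_nonneg (mul_nonneg (mul_nonneg (by linarith) hB) hκ.le) hcard0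
  · push Not at hU2
    set N : ℕ := ⌊U⌋₊ with hN
    have hN2 : 2 ≤ N := Nat.le_floor (by exact_mod_cast hU2)
    have hNr : (2 : ℝ) ≤ N := by exact_mod_cast hN2
    have hNU : (N : ℝ) ≤ U := Nat.floor_le hU0.le
    have hUN : U < N + 1 := Nat.lt_floor_add_one U
    have hlogN : 0 < Real.log N := Real.log_pos (by linarith)
    have hlogU : Real.log U ≤ 2 * Real.log N := by
      have h1 : U ≤ (N : ℝ) ^ 2 := by nlinarith
      have h2 := Real.log_le_log hU0 h1
      rw [Real.log_pow] at h2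
      push_cast at h2
      exact h2
    have hlogU0 : 0 ≤ Real.log U := Real.log_nonneg (by linarith)
    have hpi := hcheb N hN2
    have h1 : ∀ c ∈ Cs.filter (fun c => c ≤ κ * X ^ (1 - θ)), ZH H (a * c) ≤ (Real.log U / H) * ∑ p ∈ PZ N, (if p ∈ PH H (a * c) then (1 : ℝ) else 0) := by
      intro c hc
      have hc2 := hacU c hc
      rw [mem_filter] at hc
      have hc0 := hCs.pos c hc.1
      have hac0 : 0 < (a : ℝ) * c := by positivity
      have h2 : ((PH H (a * c)).card : ℝ) = ∑ p ∈ PZ N, (if p ∈ PH H (a * c) then (1 : ℝ) else 0) := by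
        rw [← sum_filter, sum_const, nsmul_eq_mul, mul_one]
        congr 2
        ext p
        rw [mem_filter, mem_PZ]
        constructor
        · intro hp
          have hp2 := hp
          rw [mem_PH hac0.le] at hp2
          refine ⟨⟨hp2.1, Nat.le_floor (by linarith [hp2.2.2])⟩, hp⟩
        · intro h; exact h.2
      unfold ZH
      rw [← h2]
      have h3 : Real.log (a * c) ≤ Real.log U := Real.log_le_log hac0 hc2
      calc ((PH H (a * c)).card : ℝ) * Real.log (a * c) / H ≤ ((PH H (a * c)).card : ℝ) * Real.log U / H := by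
            apply div_le_div_of_nonneg_right _ hH.le
            exact mul_le_mul_of_nonneg_left h3 (Nat.cast_nonneg _)
        _ = _ := by ring
    refine (sum_le_sum h1).trans ?_
    rw [← mul_sum, sum_comm]
    have h2 : ∀ p ∈ PZ N, ∑ c ∈ Cs.filter (fun c => c ≤ κ * X ^ (1 - θ)), (if p ∈ PH H (a * c) then (1 : ℝ) else 0) ≤
        2 * B * (H / a) * X ^ (θ - 1) * Cs.card := by
      intro p _
      refine le_trans ?_ (hCs.see hX hH hB ha haX p)
      rw [← sum_filter, sum_const, nsmul_eq_mul, mul_one]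
      exact_mod_cast card_le_card (filter_subset_filter _ (filter_subset _ _))
    have h3 : ∑ p ∈ PZ N, ∑ c ∈ Cs.filter (fun c => c ≤ κ * X ^ (1 - θ)), (if p ∈ PH H (a * c) then (1 : ℝ) else 0) ≤
        (PZ N).card * (2 * B * (H / a) * X ^ (θ - 1) * Cs.card) := by
      refine (sum_le_sum h2).trans (le_of_eq ?_)
      rw [sum_const, nsmul_eq_mul]
    have hW : 0 ≤ 2 * B * (H / a) * X ^ (θ - 1) * Cs.card := by
      apply mul_nonneg _ hcard0
      positivity
    have h4 : Real.log U * ((PZ N).card : ℝ) ≤ 2 * C * U := by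
      calc Real.log U * ((PZ N).card : ℝ) ≤ (2 * Real.log N) * (C * N / Real.log N) := by
            apply mul_le_mul hlogU hpi (Nat.cast_nonneg _) (by positivity)
        _ = 2 * C * N := by field_simp
        _ ≤ 2 * C * U := by gcongr
    have e : X ^ (1 - θ) * X ^ (θ - 1) = 1 := by
      rw [← Real.rpow_add hX0]
      have : 1 - θ + (θ - 1) = 0 := by ring
      rw [this, Real.rpow_zero]
    calc Real.log U / H * ∑ p ∈ PZ N, ∑ c ∈ Cs.filter (fun c => c ≤ κ * X ^ (1 - θ)), (if p ∈ PH H (a * c) then (1 : ℝ) else 0)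
        ≤ Real.log U / H * ((PZ N).card * (2 * B * (H / a) * X ^ (θ - 1) * Cs.card)) := by
          apply mul_le_mul_of_nonneg_left h3 (by positivity)
      _ = (Real.log U * (PZ N).card) * ((2 * B * (H / a) * X ^ (θ - 1) * Cs.card) / H) := by ring
      _ ≤ (2 * C * U) * ((2 * B * (H / a) * X ^ (θ - 1) * Cs.card) / H) := by
          apply mul_le_mul_of_nonneg_right h4
          positivity
      _ = 4 * C * B * κ * (X ^ (1 - θ) * X ^ (θ - 1)) * Cs.card := by
          rw [hU]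
          field_simp
          ring
      _ = _ := by rw [e]; ring

/-- **Second moment** for a fixed `a`. -/
theorem sm (lam κ : ℝ) (hlam : 0 < lam) (hκ : 0 < κ) : ∃ C1 X₀ : ℝ, 1 ≤ C1 ∧ ∀ X : ℝ, X₀ ≤ X → ∀ B H θ : ℝ, lam * Real.log X ≤ H → 0 ≤ B →
    ∀ C : Finset ℝ, SpH B H θ X C → ∀ a : ℕ, 1 ≤ a → κ * X ^ θ ≤ a → (a : ℝ) ≤ X ^ θ →
    ∑ c ∈ C, ZH H (a * c) ^ 2 ≤ C1 * B * C.card := by
  classical
  obtain ⟨C, Z₀, hC, hZ₀, hpairs⟩ := pairs_ar
  refine ⟨8 * C * (1 / κ) * (1 + 2 / lam) + 1, max 3 Z₀, by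
    have : 0 ≤ 8 * C * (1 / κ) * (1 + 2 / lam) := by positivity
    linarith, ?_⟩
  intro X hX B H θ hH hB Cs hCs a ha haκ haX
  have hX3 : 3 ≤ X := (le_max_left _ _).trans hX
  have hXZ : (Z₀ : ℝ) ≤ X := (le_max_right _ _).trans hX
  have hX0 : 0 < X := by linarith
  have ha0 : (0 : ℝ) < a := by exact_mod_cast ha
  have hcard0 : (0 : ℝ) ≤ Cs.card := Nat.cast_nonneg _
  have hlog1 : 1 ≤ Real.log X := by
    rw [Real.le_log_iff_exp_le hX0]
    linarith [Real.exp_one_lt_d9]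
  have hlog0 : 0 < Real.log X := by linarith
  have hH0 : 0 < H := lt_of_lt_of_le (by positivity) hH
  have hHlam : lam ≤ H := by nlinarith
  have hXθ : 0 < X ^ θ := by positivity
  set Z : ℕ := ⌈X⌉₊ with hZ
  have hZ1 : X ≤ Z := Nat.le_ceil _
  have hZ2 : (Z : ℝ) ≤ 2 * X := by
    have := Nat.ceil_lt_add_one hX0.le
    linarith
  have hZZ : Z₀ ≤ Z := by exact_mod_cast hXZ.trans hZ1
  set T : ℕ := ⌈H⌉₊ with hT
  have hT1 : H ≤ T := Nat.le_ceil _
  have hT2 : (T : ℝ) ≤ H + 1 := (Nat.ceil_lt_add_one hH0.le).le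
  set Q := ((PZ Z) ×ˢ (PZ Z)).filter (fun x => x.1 < x.2 + T ∧ x.2 < x.1 + T) with hQ
  have hlogZ : Real.log X ≤ Real.log Z := Real.log_le_log hX0 hZ1
  have hlogZ0 : 0 < Real.log Z := by linarith
  have hQc : (Q.card : ℝ) ≤ C * (2 * X / Real.log X ^ 2 * (Real.log X + H + 1)) := by
    refine (hpairs Z T hZZ).trans ?_
    apply mul_le_mul_of_nonneg_left _ (by linarith)
    have h1 : (Z : ℝ) / Real.log Z ≤ 2 * X / Real.log X := by gcongr
    have h2 : (Z : ℝ) * T / Real.log Z ^ 2 ≤ 2 * X * (H + 1) / Real.log X ^ 2 := by gcongr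
    have h3 : 2 * X / Real.log X + 2 * X * (H + 1) / Real.log X ^ 2 = 2 * X / Real.log X ^ 2 * (Real.log X + H + 1) := by
      field_simp
      ring
    linarith
  have hac : ∀ c ∈ Cs, 0 < (a : ℝ) * c ∧ (a : ℝ) * c ≤ X := by
    intro c hc
    have hc0 := hCs.pos c hc
    refine ⟨by positivity, ?_⟩
    calc (a : ℝ) * c ≤ X ^ θ * X ^ (1 - θ) := by
          apply mul_le_mul haX (hCs.le c hc) hc0.le hXθ.le
      _ = X := by
          rw [← Real.rpow_add hX0]
          have : θ + (1 - θ) = 1 := by ring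
          rw [this, Real.rpow_one]
  -- pointwise
  have h1 : ∀ c ∈ Cs, ZH H (a * c) ^ 2 ≤ (Real.log X / H) ^ 2 * ∑ x ∈ Q, (if x.1 ∈ PH H (a * c) then (1 : ℝ) else 0) := by
    intro c hc
    obtain ⟨hac0, hacX⟩ := hac c hc
    have h2 : ((PH H (a * c)).card : ℝ) ^ 2 ≤ ∑ x ∈ Q, (if x.1 ∈ PH H (a * c) then (1 : ℝ) else 0) := by
      have h3 : ((PH H (a * c)).card : ℝ) ^ 2 = ∑ x ∈ (PH H (a * c)) ×ˢ (PH H (a * c)), (1 : ℝ) := by
        rw [sum_const, card_product, nsmul_eq_mul, mul_one]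
        push_cast
        ring
      rw [h3, ← sum_filter]
      apply sum_le_sum_of_subset_of_nonneg
      · intro x hx
        rw [mem_product] at hx
        obtain ⟨hx1, hx2⟩ := hx
        rw [mem_filter]
        refine ⟨?_, hx1⟩
        rw [mem_PH hac0.le] at hx1 hx2
        rw [hQ, mem_filter, mem_product, mem_PZ, mem_PZ]
        have hle : ∀ p : ℕ, (p : ℝ) < a * c → p ≤ Z := by
          intro p hp
          have : (p : ℝ) ≤ Z := by linarith
          exact_mod_cast this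
        refine ⟨⟨⟨hx1.1, hle _ hx1.2.2⟩, ⟨hx2.1, hle _ hx2.2.2⟩⟩, ?_, ?_⟩
        · have : (x.1 : ℝ) < ((x.2 + T : ℕ) : ℝ) := by push_cast; linarith [hx1.2.2, hx2.2.1]
          exact_mod_cast this
        · have : (x.2 : ℝ) < ((x.1 + T : ℕ) : ℝ) := by push_cast; linarith [hx2.2.2, hx1.2.1]
          exact_mod_cast this
      · intro _ _ _; norm_num
    unfold ZH
    by_cases hlt : (a : ℝ) * c < 1
    · rw [PH_empty (by linarith)]
      simp only [card_empty, Nat.cast_zero, zero_mul, zero_div]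
      rw [zero_pow two_ne_zero]
      apply mul_nonneg (by positivity)
      apply sum_nonneg
      intro x _
      split_ifs <;> norm_num
    · push Not at hlt
      have h3 : Real.log (a * c) ≤ Real.log X := Real.log_le_log hac0 hacX
      have h4 : 0 ≤ Real.log (a * c) := Real.log_nonneg hlt
      calc (((PH H (a * c)).card : ℝ) * Real.log (a * c) / H) ^ 2 = (Real.log (a * c) / H) ^ 2 * ((PH H (a * c)).card : ℝ) ^ 2 := by ring
        _ ≤ (Real.log X / H) ^ 2 * ∑ x ∈ Q, (if x.1 ∈ PH H (a * c) then (1 : ℝ) else 0) := by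
          apply mul_le_mul _ h2 (by positivity) (by positivity)
          gcongr
  refine (sum_le_sum h1).trans ?_
  rw [← mul_sum, sum_comm]
  have h2 : ∑ x ∈ Q, ∑ c ∈ Cs, (if x.1 ∈ PH H (a * c) then (1 : ℝ) else 0) ≤ Q.card * (2 * B * (H / a) * X ^ (θ - 1) * Cs.card) := by
    have h3 : ∀ x ∈ Q, ∑ c ∈ Cs, (if x.1 ∈ PH H (a * c) then (1 : ℝ) else 0) ≤ 2 * B * (H / a) * X ^ (θ - 1) * Cs.card := by
      intro x _
      rw [← sum_filter, sum_const, nsmul_eq_mul, mul_one]
      exact hCs.see (by linarith) hH0 hB ha haX x.1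
    refine (sum_le_sum h3).trans (le_of_eq ?_)
    rw [sum_const, nsmul_eq_mul]
  have hW : 0 ≤ 2 * B * (H / a) * X ^ (θ - 1) * Cs.card := by
    apply mul_nonneg _ hcard0
    positivity
  have hW2 : 2 * B * (H / a) * X ^ (θ - 1) * Cs.card ≤ 2 * B * (H / (κ * X)) * Cs.card := by
    apply mul_le_mul_of_nonneg_right _ hcard0
    have e : X ^ (θ - 1) = X ^ θ / X := by rw [Real.rpow_sub hX0, Real.rpow_one]
    rw [e]
    have h3 : H / a * (X ^ θ / X) ≤ H / (κ * X) := by
      rw [div_mul_div_comm, div_le_div_iff₀ (by positivity) (by positivity)]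
      have h4 : (κ * X ^ θ) * (H * X) ≤ a * (H * X) := mul_le_mul_of_nonneg_right haκ (by positivity)
      linarith
    calc 2 * B * (H / a) * (X ^ θ / X) = 2 * B * (H / a * (X ^ θ / X)) := by ring
      _ ≤ 2 * B * (H / (κ * X)) := by gcongr
  have h3 : (Real.log X + H + 1) / H ≤ 1 + 2 / lam := by
    rw [div_le_iff₀ hH0]
    have h4 : Real.log X ≤ H / lam := by rw [le_div_iff₀ hlam]; linarith
    have h5 : 1 ≤ H / lam := by rw [le_div_iff₀ hlam]; linarith
    have e : (1 + 2 / lam) * H = H + H / lam + H / lam := by ring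
    rw [e]; linarith
  calc (Real.log X / H) ^ 2 * ∑ x ∈ Q, ∑ c ∈ Cs, (if x.1 ∈ PH H (a * c) then (1 : ℝ) else 0)
      ≤ (Real.log X / H) ^ 2 * (Q.card * (2 * B * (H / a) * X ^ (θ - 1) * Cs.card)) := by
        apply mul_le_mul_of_nonneg_left h2 (by positivity)
    _ ≤ (Real.log X / H) ^ 2 * ((C * (2 * X / Real.log X ^ 2 * (Real.log X + H + 1))) * (2 * B * (H / (κ * X)) * Cs.card)) := by
        apply mul_le_mul_of_nonneg_left _ (by positivity)
        exact mul_le_mul hQc hW2 hW (by positivity)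
    _ = 4 * C * (1 / κ) * ((Real.log X + H + 1) / H) * B * Cs.card := by
        field_simp
        ring
    _ ≤ 4 * C * (1 / κ) * (1 + 2 / lam) * B * Cs.card := by
        apply mul_le_mul_of_nonneg_right _ hcard0
        apply mul_le_mul_of_nonneg_right _ hB
        apply mul_le_mul_of_nonneg_left h3 (by positivity)
    _ ≤ (8 * C * (1 / κ) * (1 + 2 / lam) + 1) * B * Cs.card := by
        apply mul_le_mul_of_nonneg_right _ hcard0
        apply mul_le_mul_of_nonneg_right _ hB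
        have : 0 ≤ C * (1 / κ) * (1 + 2 / lam) := by positivity
        linarith

end Pool.Agent.Y851.PT
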