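import Pool.Agent.Y851.PS.G18

/-! Tuples, for functions with small cut norm and bounded second moment. -/

set_option autoImplicit false

namespace Pool.Agent.Y851.PT
open Finset Filter
open Pool.Agent.Y851.PS

/-- the induction for the simultaneous statement -/
theorem simul (α β : Type) (n : ℕ) : ∀ M δ : ℝ, 1 ≤ M → 0 < δ → ∃ Λ δ₂ : ℝ, 1 ≤ Λ ∧ 0 < δ₂ ∧
    ∀ (A : Finset α) (C : Finset β) (W : α → β → ℝ), (∀ a ∈ A, ∀ c ∈ C, 0 ≤ W a c) → Cut A C W δ₂ →
    ∑ a ∈ A, ∑ c ∈ C, W a c ^ 2 ≤ M * (A.card * C.card) →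
    ∃ u : (Fin n → β) → α → ℝ, (∀ y ∈ Fintype.piFinset (fun _ : Fin n => C), ∀ a ∈ A,
      0 ≤ u y a ∧ u y a ≤ Λ ∧ (0 < u y a → ∀ j, 0 < W a (y j))) ∧
    ∑ y ∈ Fintype.piFinset (fun _ : Fin n => C), |∑ a ∈ A, u y a - A.card| ≤ δ * (A.card * (C.card : ℝ) ^ n) := by
  induction n with
  | zero =>
    intro M δ hM hδ
    refine ⟨1, 1, le_rfl, one_pos, fun A C W hW hcut hM2 => ⟨fun _ _ => 1, fun y _ a _ => ⟨zero_le_one, le_rfl, fun _ j => j.elim0⟩, ?_⟩⟩
    simp only [sum_const, nsmul_eq_mul, mul_one, sub_self, abs_zero, mul_zero]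
    positivity
  | succ n ih =>
    intro M δ hM hδ
    obtain ⟨Λ, δ₂, hΛ, hδ₂, h⟩ := ih M (δ / 2) hM (half_pos hδ)
    have hΛ0 : 0 < Λ := by linarith only [hΛ]
    have hM0 : 0 < M := by linarith only [hM]
    obtain ⟨L, hL⟩ : ∃ L, L = 4 * Λ * M / δ + 1 := ⟨_, rfl⟩
    have hL1 : 1 ≤ L := by
      have : 0 ≤ 4 * Λ * M / δ := by positivity
      linarith only [hL, this]
    have hL0 : 0 < L := by linarith only [hL1]
    have hLM : Λ * M / L ≤ δ / 4 := by
      rw [div_le_iff₀ hL0, hL]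
      have : δ / 4 * (4 * Λ * M / δ + 1) = Λ * M + δ / 4 := by field_simp
      linarith only [this, hδ]
    refine ⟨Λ * L, min δ₂ (δ / (8 * Λ)), ?_, lt_min hδ₂ (by positivity), fun A C W hW hcut hM2 => ?_⟩
    · calc (1 : ℝ) = 1 * 1 := by norm_num
        _ ≤ Λ * L := mul_le_mul hΛ hL1 zero_le_one hΛ0.le
    have hAC : (0 : ℝ) ≤ (A.card : ℝ) * C.card := mul_nonneg (Nat.cast_nonneg _) (Nat.cast_nonneg _)
    have hcut2 : Cut A C W δ₂ := fun A' hA' C' hC' => (hcut A' hA' C' hC').trans (mul_le_mul_of_nonneg_right (min_le_left _ _) hAC)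
    have hcut3 : Cut A C W (δ / (8 * Λ)) := fun A' hA' C' hC' => (hcut A' hA' C' hC').trans (mul_le_mul_of_nonneg_right (min_le_right _ _) hAC)
    obtain ⟨u, hu1, hu2⟩ := h A C W hW hcut2 hM2
    refine ⟨fun y a => u (Fin.tail y) a * min (W a (y 0)) L, ?_, ?_⟩
    · intro y hy a ha
      rw [Fintype.mem_piFinset] at hy
      have hty : Fin.tail y ∈ Fintype.piFinset (fun _ : Fin n => C) := by
        rw [Fintype.mem_piFinset]; intro j; exact hy j.succ
      obtain ⟨g1, g2, g3⟩ := hu1 _ hty a ha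
      have hm0 : 0 ≤ min (W a (y 0)) L := le_min (hW a ha _ (hy 0)) hL0.le
      refine ⟨mul_nonneg g1 hm0, mul_le_mul g2 (min_le_right _ _) hm0 hΛ0.le, fun hpos j => ?_⟩
      change 0 < u (Fin.tail y) a * min (W a (y 0)) L at hpos
      have hup : 0 < u (Fin.tail y) a := by
        rcases g1.lt_or_eq with h1 | h1
        · exact h1
        · rw [← h1, zero_mul] at hpos
          exact absurd hpos (lt_irrefl _)
      have hmp : 0 < min (W a (y 0)) L := by
        rcases hm0.lt_or_eq with h1 | h1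
        · exact h1
        · rw [← h1, mul_zero] at hpos
          exact absurd hpos (lt_irrefl _)
      refine Fin.cases ?_ ?_ j
      · exact lt_of_lt_of_le hmp (min_le_left _ _)
      · intro i; exact g3 hup i
    · rw [PS.sum_cons]
      have key : ∀ y ∈ Fintype.piFinset (fun _ : Fin n => C), ∑ c ∈ C, |∑ a ∈ A, u (Fin.tail (Fin.cons c y : Fin (n + 1) → β)) a *
          min (W a ((Fin.cons c y : Fin (n + 1) → β) 0)) L - A.card| ≤
          δ / 2 * (A.card * C.card) + C.card * |∑ a ∈ A, u y a - A.card| := by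
        intro y hy
        have e : ∀ c ∈ C, |∑ a ∈ A, u (Fin.tail (Fin.cons c y : Fin (n + 1) → β)) a *
          min (W a ((Fin.cons c y : Fin (n + 1) → β) 0)) L - A.card| ≤
            |∑ a ∈ A, u y a * (W a c - 1)| + ∑ a ∈ A, Λ * (W a c ^ 2 / L) + |∑ a ∈ A, u y a - A.card| := by
          intro c hc
          simp only [Fin.tail_cons, Fin.cons_zero]
          have e1 : ∑ a ∈ A, u y a * min (W a c) L - A.card = ∑ a ∈ A, u y a * (W a c - 1) - ∑ a ∈ A, u y a * (W a c - min (W a c) L) +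
              (∑ a ∈ A, u y a - A.card) := by
            rw [← sum_sub_distrib]
            have : ∑ a ∈ A, (u y a * (W a c - 1) - u y a * (W a c - min (W a c) L)) + ∑ a ∈ A, u y a = ∑ a ∈ A, u y a * min (W a c) L := by
              rw [← sum_add_distrib]
              exact sum_congr rfl fun a _ => by ring
            linarith only [this]
          have e2 : 0 ≤ ∑ a ∈ A, u y a * (W a c - min (W a c) L) :=
            sum_nonneg fun a ha => mul_nonneg (hu1 y hy a ha).1 (sub_nonneg.2 (min_le_left _ _))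
          have e3 : ∑ a ∈ A, u y a * (W a c - min (W a c) L) ≤ ∑ a ∈ A, Λ * (W a c ^ 2 / L) := by
            apply sum_le_sum
            intro a ha
            have hw := hW a ha c hc
            have h2 : W a c - min (W a c) L ≤ W a c ^ 2 / L := by
              by_cases hWL : W a c ≤ L
              · rw [min_eq_left hWL, sub_self]
                positivity
              · push Not at hWL
                rw [min_eq_right hWL.le, le_div_iff₀ hL0]
                have h3 : W a c * L ≤ W a c * W a c := mul_le_mul_of_nonneg_left hWL.le hw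
                have h4 : 0 ≤ L * L := mul_nonneg hL0.le hL0.le
                have h5 : (W a c - L) * L = W a c * L - L * L := by ring
                have h6 : W a c ^ 2 = W a c * W a c := by ring
                rw [h5, h6]
                linarith only [h3, h4]
            exact mul_le_mul (hu1 y hy a ha).2.1 h2 (sub_nonneg.2 (min_le_left _ _)) hΛ0.le
          rw [e1]
          refine (abs_add_le _ _).trans ?_
          have h5 := abs_sub (∑ a ∈ A, u y a * (W a c - 1)) (∑ a ∈ A, u y a * (W a c - min (W a c) L))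
          rw [abs_of_nonneg e2] at h5
          linarith only [h5, e3]
        refine (sum_le_sum e).trans ?_
        rw [sum_add_distrib, sum_add_distrib, sum_const, nsmul_eq_mul]
        have h1 := cut_abs hcut3 (u y) Λ hΛ0.le (fun a ha => (hu1 y hy a ha).1) (fun a ha => (hu1 y hy a ha).2.1)
        have h2 : ∑ c ∈ C, ∑ a ∈ A, Λ * (W a c ^ 2 / L) ≤ δ / 4 * (A.card * C.card) := by
          rw [sum_comm]
          have h3 : ∑ a ∈ A, ∑ c ∈ C, Λ * (W a c ^ 2 / L) = Λ / L * ∑ a ∈ A, ∑ c ∈ C, W a c ^ 2 := by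
            rw [mul_sum]
            apply sum_congr rfl
            intro a _
            rw [mul_sum]
            apply sum_congr rfl
            intro c _
            ring
          rw [h3]
          calc Λ / L * ∑ a ∈ A, ∑ c ∈ C, W a c ^ 2 ≤ Λ / L * (M * (A.card * C.card)) :=
                mul_le_mul_of_nonneg_left hM2 (by positivity)
            _ = (Λ * M / L) * (A.card * C.card) := by ring
            _ ≤ δ / 4 * (A.card * C.card) := mul_le_mul_of_nonneg_right hLM hAC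
        have h3 : 2 * Λ * (δ / (8 * Λ) * (A.card * C.card)) = δ / 4 * ((A.card : ℝ) * C.card) := by
          have e0 : 2 * Λ * (δ / (8 * Λ)) = δ / 4 := by
            field_simp
            norm_num
          rw [← mul_assoc, e0]
        rw [h3] at h1
        linarith only [h1, h2]
      refine (sum_le_sum key).trans ?_
      rw [sum_add_distrib, sum_const, nsmul_eq_mul, ← mul_sum, Fintype.card_piFinset, prod_const, Finset.card_univ, Fintype.card_fin]
      push_cast
      have h4 : (C.card : ℝ) * ∑ y ∈ Fintype.piFinset (fun _ : Fin n => C), |∑ a ∈ A, u y a - A.card| ≤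
          C.card * (δ / 2 * (A.card * (C.card : ℝ) ^ n)) := mul_le_mul_of_nonneg_left hu2 (Nat.cast_nonneg _)
      have h5 : (C.card : ℝ) ^ n * (δ / 2 * (A.card * C.card)) + C.card * (δ / 2 * (A.card * (C.card : ℝ) ^ n)) =
          δ * (A.card * (C.card : ℝ) ^ (n + 1)) := by ring
      linarith only [h4, h5]

open Classical in
/-- **simultaneous positivity** for almost all tuples -/
theorem simul_good (α β : Type) (n : ℕ) (M δ : ℝ) (hM : 1 ≤ M) (hδ : 0 < δ) : ∃ κ δ₂ : ℝ, 0 < κ ∧ 0 < δ₂ ∧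
    ∀ (A : Finset α) (C : Finset β) (W : α → β → ℝ), (∀ a ∈ A, ∀ c ∈ C, 0 ≤ W a c) → Cut A C W δ₂ →
    ∑ a ∈ A, ∑ c ∈ C, W a c ^ 2 ≤ M * (A.card * C.card) →
    (((Fintype.piFinset (fun _ : Fin n => C)).filter (fun y => ¬
      (κ * A.card ≤ ((A.filter (fun a => ∀ j, 0 < W a (y j))).card : ℝ)))).card : ℝ) ≤ δ * (C.card : ℝ) ^ n := by
  obtain ⟨Λ, δ₂, hΛ, hδ₂, h⟩ := simul α β n M (δ / 2) hM (half_pos hδ)
  have hΛ0 : 0 < Λ := by linarith only [hΛ]
  refine ⟨1 / (2 * Λ), δ₂, by positivity, hδ₂, fun A C W hW hcut hM2 => ?_⟩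
  obtain ⟨u, hu1, hu2⟩ := h A C W hW hcut hM2
  by_cases hA : A.card = 0
  · rw [filter_false_of_mem]
    · simp only [card_empty, Nat.cast_zero]
      positivity
    · intro y _
      rw [hA, not_not]
      simp
  · have hA0 : (0 : ℝ) < A.card := by exact_mod_cast Nat.pos_of_ne_zero hA
    have hmk := markov (Fintype.piFinset (fun _ : Fin n => C)) (fun y => |∑ a ∈ A, u y a - A.card|) (fun _ _ => abs_nonneg _)
      (δ / 2 * (A.card * (C.card : ℝ) ^ n)) (A.card / 2) (half_pos hA0) hu2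
      (fun y => ¬ (1 / (2 * Λ) * A.card ≤ ((A.filter (fun a => ∀ j, 0 < W a (y j))).card : ℝ))) (by
        intro y hy hbad
        by_contra hcon
        push Not at hcon
        apply hbad
        have h1 : (A.card : ℝ) / 2 < ∑ a ∈ A, u y a := by
          have := (abs_lt.1 hcon).1
          linarith only [this]
        have h2 : ∑ a ∈ A, u y a ≤ Λ * ((A.filter (fun a => ∀ j, 0 < W a (y j))).card : ℝ) := by
          calc ∑ a ∈ A, u y a ≤ ∑ a ∈ A, (if (∀ j, 0 < W a (y j)) then Λ else 0) := by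
                apply sum_le_sum
                intro a ha
                obtain ⟨g1, g2, g3⟩ := hu1 y hy a ha
                split_ifs with hc
                · exact g2
                · rcases g1.lt_or_eq with h3 | h3
                  · exact absurd (g3 h3) hc
                  · rw [← h3]
            _ = _ := by rw [← sum_filter, sum_const, nsmul_eq_mul, mul_comm]
        rw [div_mul_eq_mul_div, one_mul, div_le_iff₀ (by positivity)]
        linarith only [h1, h2])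
    refine hmk.trans (le_of_eq ?_)
    field_simp

/-- second moments over tuples -/
lemma sq_tuples {β : Type} (C : Finset β) (v : β → ℝ) (n : ℕ) :
    (C.card : ℝ) * ∑ y ∈ Fintype.piFinset (fun _ : Fin n => C), ∑ j, v (y j) = n * (C.card : ℝ) ^ n * ∑ c ∈ C, v c ∧
    (C.card : ℝ) ^ 2 * ∑ y ∈ Fintype.piFinset (fun _ : Fin n => C), (∑ j, v (y j)) ^ 2 =
      n * (C.card : ℝ) ^ (n + 1) * ∑ c ∈ C, v c ^ 2 + n * (n - 1) * (C.card : ℝ) ^ n * (∑ c ∈ C, v c) ^ 2 := by
  induction n with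
  | zero => simp
  | succ n ih =>
    obtain ⟨ih1, ih2⟩ := ih
    obtain ⟨N, hN⟩ : ∃ N : ℝ, N = C.card := ⟨_, rfl⟩
    obtain ⟨s, hs⟩ : ∃ s : ℝ, s = ∑ c ∈ C, v c := ⟨_, rfl⟩
    obtain ⟨q, hq⟩ : ∃ q : ℝ, q = ∑ c ∈ C, v c ^ 2 := ⟨_, rfl⟩
    obtain ⟨U, hU⟩ : ∃ U : ℝ, U = ∑ y ∈ Fintype.piFinset (fun _ : Fin n => C), ∑ j, v (y j) := ⟨_, rfl⟩
    obtain ⟨T, hT⟩ : ∃ T : ℝ, T = ∑ y ∈ Fintype.piFinset (fun _ : Fin n => C), (∑ j, v (y j)) ^ 2 := ⟨_, rfl⟩
    have hcardn : ((Fintype.piFinset (fun _ : Fin n => C)).card : ℝ) = N ^ n := by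
      rw [Fintype.card_piFinset, prod_const, Finset.card_univ, Fintype.card_fin, hN]
      push_cast
      rfl
    have e1 : ∑ y ∈ Fintype.piFinset (fun _ : Fin (n + 1) => C), ∑ j, v (y j) = N ^ n * s + N * U := by
      rw [PS.sum_cons]
      have : ∀ y ∈ Fintype.piFinset (fun _ : Fin n => C), ∑ c ∈ C, ∑ j, v ((Fin.cons c y : Fin (n + 1) → β) j) = s + N * ∑ j, v (y j) := by
        intro y _
        simp_rw [Fin.sum_univ_succ, Fin.cons_zero, Fin.cons_succ]
        rw [sum_add_distrib, sum_const, nsmul_eq_mul, hs, hN]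
      rw [sum_congr rfl this, sum_add_distrib, sum_const, nsmul_eq_mul, hcardn, ← mul_sum, hU]
    have e2 : ∑ y ∈ Fintype.piFinset (fun _ : Fin (n + 1) => C), (∑ j, v (y j)) ^ 2 = N ^ n * q + 2 * s * U + N * T := by
      rw [PS.sum_cons]
      have : ∀ y ∈ Fintype.piFinset (fun _ : Fin n => C), ∑ c ∈ C, (∑ j, v ((Fin.cons c y : Fin (n + 1) → β) j)) ^ 2 =
          q + 2 * s * (∑ j, v (y j)) + N * (∑ j, v (y j)) ^ 2 := by
        intro y _
        simp_rw [Fin.sum_univ_succ, Fin.cons_zero, Fin.cons_succ]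
        have h1 : ∀ c ∈ C, (v c + ∑ j, v (y j)) ^ 2 = v c ^ 2 + 2 * (∑ j, v (y j)) * v c + (∑ j, v (y j)) ^ 2 := by
          intro c _; ring
        rw [sum_congr rfl h1, sum_add_distrib, sum_add_distrib, sum_const, nsmul_eq_mul, ← mul_sum, hs, hN, hq]
        ring
      rw [sum_congr rfl this, sum_add_distrib, sum_add_distrib, sum_const, nsmul_eq_mul, hcardn, ← mul_sum, ← mul_sum, hU, hT]
    rw [← hN, ← hs, ← hU] at ih1
    rw [← hN, ← hs, ← hq, ← hT] at ih2
    rw [e1, e2, ← hN, ← hs, ← hq]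
    push_cast
    constructor
    · calc N * (N ^ n * s + N * U) = N * (N ^ n * s) + N * (N * U) := by ring
        _ = N * (N ^ n * s) + N * (n * N ^ n * s) := by rw [ih1]
        _ = _ := by ring
    · calc N ^ 2 * (N ^ n * q + 2 * s * U + N * T) = N ^ 2 * (N ^ n * q) + 2 * s * N * (N * U) + N * (N ^ 2 * T) := by ring
        _ = N ^ 2 * (N ^ n * q) + 2 * s * N * (n * N ^ n * s) + N * (n * N ^ (n + 1) * q + n * (n - 1) * N ^ n * s ^ 2) := by rw [ih1, ih2]
        _ = _ := by ring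

open Classical in
/-- **positivity for almost all elements** somewhere in almost every long tuple -/
theorem union_good (α β : Type) (M δ : ℝ) (hM : 1 ≤ M) (hδ : 0 < δ) : ∃ n₀ : ℕ, ∀ n : ℕ, n₀ ≤ n →
    ∀ (A : Finset α) (C : Finset β) (W : α → β → ℝ), (∀ a ∈ A, ∀ c ∈ C, 0 ≤ W a c) → Cut A C W (δ ^ 2 / 8) →
    ∑ a ∈ A, ∑ c ∈ C, W a c ^ 2 ≤ M * (A.card * C.card) →
    (((Fintype.piFinset (fun _ : Fin n => C)).filter (fun y => ¬
      ((1 - δ) * A.card ≤ ((A.filter (fun a => ∃ j, 0 < W a (y j))).card : ℝ)))).card : ℝ) ≤ δ * (C.card : ℝ) ^ n := by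
  refine ⟨⌈4 * (M + 1) / δ ^ 2⌉₊ + 1, fun n hn A C W hW hcut hM2 => ?_⟩
  have hn1 : 1 ≤ n := by omega
  have hn0 : (0 : ℝ) < n := by exact_mod_cast hn1
  have hnM : 4 * (M + 1) / δ ^ 2 ≤ n := by
    have h1 := Nat.le_ceil (4 * (M + 1) / δ ^ 2)
    have h2 : ((⌈4 * (M + 1) / δ ^ 2⌉₊ : ℕ) : ℝ) ≤ n := by exact_mod_cast (by omega : ⌈4 * (M + 1) / δ ^ 2⌉₊ ≤ n)
    exact h1.trans h2
  rw [div_le_iff₀ (by positivity)] at hnM
  by_cases hA : A.card = 0
  · rw [filter_false_of_mem]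
    · simp only [card_empty, Nat.cast_zero]
      positivity
    · intro y _
      rw [hA, not_not]
      simp
  by_cases hC : C.card = 0
  · have hC' : C = ∅ := card_eq_zero.1 hC
    have : Fintype.piFinset (fun _ : Fin n => C) = ∅ := by
      rw [← card_eq_zero, Fintype.card_piFinset, prod_const, Finset.card_univ, Fintype.card_fin, hC]
      exact zero_pow (by omega)
    rw [this, filter_empty, card_empty, Nat.cast_zero]
    positivity
  have hA0 : (0 : ℝ) < A.card := by exact_mod_cast Nat.pos_of_ne_zero hA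
  have hC0 : (0 : ℝ) < C.card := by exact_mod_cast Nat.pos_of_ne_zero hC
  obtain ⟨N, hN⟩ : ∃ N : ℝ, N = C.card := ⟨_, rfl⟩
  rw [← hN] at hC0 hM2 ⊢
  obtain ⟨Ab, hAb⟩ : ∃ Ab, Ab = A.filter (fun a => δ / 2 * C.card < |∑ c ∈ C, W a c - C.card|) := ⟨_, rfl⟩
  obtain ⟨Ag, hAg⟩ : ∃ Ag, Ag = A.filter (fun a => ¬ δ / 2 * C.card < |∑ c ∈ C, W a c - C.card|) := ⟨_, rfl⟩
  have hb1 : (Ab.card : ℝ) ≤ δ / 2 * A.card := by
    rw [hAb]
    have := hcut.swap.mean (half_pos hδ) (by
      have : (δ / 2) ^ 2 = 2 * (δ ^ 2 / 8) := by ring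
      rw [this])
    convert this
  have hg1 : Ag ⊆ A := by rw [hAg]; exact filter_subset _ _
  -- the second moment
  have hT : ∀ a ∈ Ag, N ^ 2 * ∑ y ∈ Fintype.piFinset (fun _ : Fin n => C), (∑ j, (W a (y j) - 1)) ^ 2 ≤
      n * N ^ (n + 1) * (∑ c ∈ C, W a c ^ 2 + N) + n ^ 2 * N ^ n * (δ / 2 * N) ^ 2 := by
    intro a ha
    have haA := hg1 ha
    rw [hAg, mem_filter, not_lt, ← hN] at ha
    have h1 := (sq_tuples C (fun c => W a c - 1) n).2
    rw [← hN] at h1
    rw [h1]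
    have h2 : ∑ c ∈ C, (W a c - 1) ^ 2 ≤ ∑ c ∈ C, W a c ^ 2 + N := by
      have : ∑ c ∈ C, (W a c ^ 2 + 1) = ∑ c ∈ C, W a c ^ 2 + N := by
        rw [sum_add_distrib, sum_const, nsmul_eq_mul, mul_one, hN]
      rw [← this]
      apply sum_le_sum
      intro c hc
      have := hW a haA c hc
      have e : (W a c - 1) ^ 2 = W a c ^ 2 + 1 - 2 * W a c := by ring
      rw [e]; linarith only [this]
    have h3 : (∑ c ∈ C, (W a c - 1)) ^ 2 ≤ (δ / 2 * N) ^ 2 := by
      have e : ∑ c ∈ C, (W a c - 1) = ∑ c ∈ C, W a c - N := by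
        rw [sum_sub_distrib, sum_const, nsmul_eq_mul, mul_one, hN]
      rw [e, ← sq_abs (∑ c ∈ C, W a c - N)]
      exact pow_le_pow_left₀ (abs_nonneg _) ha.2 2
    have h4 : (n : ℝ) * (n - 1) * N ^ n * (∑ c ∈ C, (W a c - 1)) ^ 2 ≤ n ^ 2 * N ^ n * (δ / 2 * N) ^ 2 := by
      have h5 : (n : ℝ) * (n - 1) ≤ n ^ 2 := by
        have : (n : ℝ) ^ 2 = n * (n - 1) + n := by ring
        linarith only [this, hn0]
      have h6 : 0 ≤ N ^ n := by positivity
      exact mul_le_mul (mul_le_mul_of_nonneg_right h5 h6) h3 (sq_nonneg _) (by positivity)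
    have h5 : (n : ℝ) * N ^ (n + 1) * ∑ c ∈ C, (W a c - 1) ^ 2 ≤ n * N ^ (n + 1) * (∑ c ∈ C, W a c ^ 2 + N) :=
      mul_le_mul_of_nonneg_left h2 (by positivity)
    linarith only [h4, h5]
  have hTs : ∑ y ∈ Fintype.piFinset (fun _ : Fin n => C), ∑ a ∈ Ag, (∑ j, (W a (y j) - 1)) ^ 2 ≤ δ ^ 2 / 2 * n ^ 2 * (A.card * N ^ n) := by
    rw [sum_comm]
    have h1 : N ^ 2 * ∑ a ∈ Ag, ∑ y ∈ Fintype.piFinset (fun _ : Fin n => C), (∑ j, (W a (y j) - 1)) ^ 2 ≤
        ∑ a ∈ A, (n * N ^ (n + 1) * (∑ c ∈ C, W a c ^ 2 + N) + n ^ 2 * N ^ n * (δ / 2 * N) ^ 2) := by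
      rw [mul_sum]
      refine (sum_le_sum hT).trans ?_
      apply sum_le_sum_of_subset_of_nonneg hg1
      intro a _ _
      have : 0 ≤ ∑ c ∈ C, W a c ^ 2 := sum_nonneg fun c _ => sq_nonneg _
      positivity
    have h2 : ∑ a ∈ A, (n * N ^ (n + 1) * (∑ c ∈ C, W a c ^ 2 + N) + n ^ 2 * N ^ n * (δ / 2 * N) ^ 2) =
        n * N ^ (n + 1) * (∑ a ∈ A, ∑ c ∈ C, W a c ^ 2 + A.card * N) + A.card * (n ^ 2 * N ^ n * (δ / 2 * N) ^ 2) := by
      rw [sum_add_distrib, ← mul_sum, sum_add_distrib, sum_const, sum_const, nsmul_eq_mul, nsmul_eq_mul]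
    rw [h2] at h1
    have h3 : n * N ^ (n + 1) * (∑ a ∈ A, ∑ c ∈ C, W a c ^ 2 + A.card * N) ≤ n * N ^ (n + 1) * ((M + 1) * (A.card * N)) := by
      apply mul_le_mul_of_nonneg_left _ (by positivity)
      linarith only [hM2]
    have h4 : (n : ℝ) * N ^ (n + 1) * ((M + 1) * (A.card * N)) ≤ N ^ 2 * (δ ^ 2 / 4 * n ^ 2 * (A.card * N ^ n)) := by
      have e1 : (n : ℝ) * N ^ (n + 1) * ((M + 1) * (A.card * N)) = (n * (A.card * N ^ (n + 2)) / 4) * (4 * (M + 1)) := by ring
      have e2 : N ^ 2 * (δ ^ 2 / 4 * n ^ 2 * (A.card * N ^ n)) = (n * (A.card * N ^ (n + 2)) / 4) * (n * δ ^ 2) := by ring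
      rw [e1, e2]
      exact mul_le_mul_of_nonneg_left hnM (by positivity)
    have h5 : (A.card : ℝ) * (n ^ 2 * N ^ n * (δ / 2 * N) ^ 2) = N ^ 2 * (δ ^ 2 / 4 * n ^ 2 * (A.card * N ^ n)) := by ring
    have h6 : N ^ 2 * (∑ a ∈ Ag, ∑ y ∈ Fintype.piFinset (fun _ : Fin n => C), (∑ j, (W a (y j) - 1)) ^ 2) ≤
        N ^ 2 * (δ ^ 2 / 2 * n ^ 2 * (A.card * N ^ n)) := by
      have e3 : N ^ 2 * (δ ^ 2 / 2 * n ^ 2 * (A.card * N ^ n)) = N ^ 2 * (δ ^ 2 / 4 * n ^ 2 * (A.card * N ^ n)) + N ^ 2 * (δ ^ 2 / 4 * n ^ 2 * (A.card * N ^ n)) := by ring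
      rw [e3]
      linarith only [h1, h3, h4, h5]
    exact le_of_mul_le_mul_left h6 (by positivity)
  have hmk := markov (Fintype.piFinset (fun _ : Fin n => C)) (fun y => ∑ a ∈ Ag, (∑ j, (W a (y j) - 1)) ^ 2)
    (fun y _ => sum_nonneg fun a _ => sq_nonneg _) (δ ^ 2 / 2 * n ^ 2 * (A.card * N ^ n)) (n ^ 2 * (δ / 2 * A.card)) (by positivity) hTs
    (fun y => ¬ ((1 - δ) * A.card ≤ ((A.filter (fun a => ∃ j, 0 < W a (y j))).card : ℝ))) (by
      intro y hy hbad
      rw [Fintype.mem_piFinset] at hy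
      push Not at hbad
      obtain ⟨S, hS⟩ : ∃ S, S = Ag.filter (fun a => ¬ ∃ j, 0 < W a (y j)) := ⟨_, rfl⟩
      have h1 : δ / 2 * A.card ≤ (S.card : ℝ) := by
        have h2 : A ⊆ A.filter (fun a => ∃ j, 0 < W a (y j)) ∪ (S ∪ Ab) := by
          intro a ha
          rw [mem_union, mem_union]
          by_cases h3 : ∃ j, 0 < W a (y j)
          · left; exact mem_filter.2 ⟨ha, h3⟩
          · right
            by_cases h4 : δ / 2 * C.card < |∑ c ∈ C, W a c - C.card|
            · right; rw [hAb]; exact mem_filter.2 ⟨ha, h4⟩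
            · left; rw [hS, hAg]; exact mem_filter.2 ⟨mem_filter.2 ⟨ha, h4⟩, h3⟩
        have h3 : (A.card : ℝ) ≤ ((A.filter (fun a => ∃ j, 0 < W a (y j))).card : ℝ) + (S.card + Ab.card) := by
          exact_mod_cast (card_le_card h2).trans ((card_union_le _ _).trans (Nat.add_le_add_left (card_union_le _ _) _))
        linarith only [h3, hbad, hb1]
      calc (n : ℝ) ^ 2 * (δ / 2 * A.card) ≤ n ^ 2 * S.card := mul_le_mul_of_nonneg_left h1 (by positivity)
        _ = ∑ a ∈ S, (∑ j, (W a (y j) - 1)) ^ 2 := by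
          rw [sum_congr rfl (g := fun _ => (n : ℝ) ^ 2)]
          · rw [sum_const, nsmul_eq_mul, mul_comm]
          · intro a ha
            rw [hS, mem_filter] at ha
            have h3 : ∀ j, W a (y j) - 1 = -1 := by
              intro j
              have h4 : W a (y j) ≤ 0 := by
                by_contra hc
                push Not at hc
                exact ha.2 ⟨j, hc⟩
              have h5 := hW a (hg1 ha.1) (y j) (hy j)
              linarith only [h4, h5]
            rw [sum_congr rfl (fun j _ => h3 j), sum_const, Finset.card_univ, Fintype.card_fin, nsmul_eq_mul]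
            ring
        _ ≤ ∑ a ∈ Ag, (∑ j, (W a (y j) - 1)) ^ 2 := by
          apply sum_le_sum_of_subset_of_nonneg
          · rw [hS]; exact filter_subset _ _
          · intro a _ _; exact sq_nonneg _)
  refine hmk.trans (le_of_eq ?_)
  field_simp

end Pool.Agent.Y851.PT
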