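import Pool.Agent.Y851.PT.P7
import Pool.Agent.Y851.PT.P8

/-! Product sets and windows of length `H`. -/

set_option autoImplicit false

namespace Pool.Agent.Y851.PT
open Finset Filter
open Pool.Agent.Y851.PS

/-- the interval `(x - H, x)` contains a prime -/
def HPH (H x : ℝ) : Prop := ∃ p : ℕ, p.Prime ∧ x - H < p ∧ (p : ℝ) < x

/-- the number of primes in `(x - H, x)` -/
noncomputable def NH (H x : ℝ) : ℕ := Set.ncard {p : ℕ | p.Prime ∧ x - H < p ∧ (p : ℝ) < x}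

lemma NH_eq (H x : ℝ) : NH H x = (PH H x).card := by
  unfold NH
  by_cases hx : 0 ≤ x
  · have : {p : ℕ | p.Prime ∧ x - H < p ∧ (p : ℝ) < x} = (PH H x : Set ℕ) := by
      ext p
      rw [mem_coe, mem_PH hx]
      rfl
    rw [this, Set.ncard_coe_finset]
  · push Not at hx
    rw [PH_empty (by linarith), card_empty]
    have : {p : ℕ | p.Prime ∧ x - H < p ∧ (p : ℝ) < x} = ∅ := by
      ext p
      simp only [Set.mem_setOf_eq, Set.mem_empty_iff_false, iff_false]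
      rintro ⟨h1, h2, h3⟩
      have : (0 : ℝ) < p := by exact_mod_cast h1.pos
      linarith
    rw [this, Set.ncard_empty]

lemma ZH_eq (H x : ℝ) : ZH H x = (NH H x : ℝ) * Real.log x / H := by
  rw [NH_eq]; rfl

lemma cut_mono {α β : Type} {A : Finset α} {C : Finset β} {Z : α → β → ℝ} {δ δ' : ℝ} (h : Cut A C Z δ) (hδ : δ ≤ δ') :
    Cut A C Z δ' :=
  fun A' hA' C' hC' => (h A' hA' C' hC').trans (mul_le_mul_of_nonneg_right hδ (mul_nonneg (Nat.cast_nonneg _) (Nat.cast_nonneg _)))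

lemma cut_restrict {α β : Type} {A A1 : Finset α} {C : Finset β} {Z : α → β → ℝ} {δ : ℝ} (h : Cut A C Z δ) (hδ : 0 ≤ δ)
    (hA1 : A1 ⊆ A) (hc : (A.card : ℝ) ≤ 2 * A1.card) : Cut A1 C Z (2 * δ) := by
  intro A' hA' C' hC'
  refine (h A' (hA'.trans hA1) C' hC').trans ?_
  have h1 : (A.card : ℝ) * C.card ≤ 2 * A1.card * C.card := mul_le_mul_of_nonneg_right hc (Nat.cast_nonneg _)
  calc δ * ((A.card : ℝ) * C.card) ≤ δ * (2 * A1.card * C.card) := mul_le_mul_of_nonneg_left h1 hδ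
    _ = 2 * δ * (A1.card * C.card) := by ring

open Classical in
lemma cut_trunc {α β : Type} {A : Finset α} {C : Finset β} {Z : α → β → ℝ} {δ f : ℝ} (h : Cut A C Z δ) (P : α → Prop)
    (hf : ((A.filter (fun a => ¬ P a)).card : ℝ) ≤ f * A.card) : Cut A C (fun a c => if P a then Z a c else 0) (δ + f) := by
  intro A' hA' C' hC'
  have e : ∑ a ∈ A', ∑ c ∈ C', ((if P a then Z a c else 0) - 1) = ∑ a ∈ A'.filter P, ∑ c ∈ C', (Z a c - 1) -
      (A'.filter (fun a => ¬ P a)).card * C'.card := by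
    rw [← sum_filter_add_sum_filter_not A' P]
    congr 1
    · apply sum_congr rfl
      intro a ha
      rw [mem_filter] at ha
      simp only [ha.2, if_true]
    · rw [sum_congr rfl (g := fun _ => -(C'.card : ℝ))]
      · rw [sum_const, nsmul_eq_mul]
        ring
      · intro a ha
        rw [mem_filter] at ha
        simp only [ha.2, if_false, zero_sub, sum_const, nsmul_eq_mul]
        ring
  change |∑ a ∈ A', ∑ c ∈ C', ((if P a then Z a c else 0) - 1)| ≤ _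
  rw [e]
  have h1 := h (A'.filter P) ((filter_subset _ _).trans hA') C' hC'
  have h2 : ((A'.filter (fun a => ¬ P a)).card : ℝ) * C'.card ≤ f * A.card * C.card := by
    apply mul_le_mul _ (by exact_mod_cast card_le_card hC') (Nat.cast_nonneg _) ((Nat.cast_nonneg _).trans hf)
    refine le_trans ?_ hf
    exact_mod_cast card_le_card (filter_subset_filter _ hA')
  have h3 : 0 ≤ ((A'.filter (fun a => ¬ P a)).card : ℝ) * C'.card := mul_nonneg (Nat.cast_nonneg _) (Nat.cast_nonneg _)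
  refine (abs_sub _ _).trans ?_
  rw [abs_of_nonneg h3]
  have h4 : (δ + f) * ((A.card : ℝ) * C.card) = δ * (A.card * C.card) + f * A.card * C.card := by ring
  rw [h4]
  exact add_le_add h1 h2

/-- from tuples of a large subset to all tuples -/
lemma tuples_lift {γ : Type} (A A1 : Finset γ) (h : A1 ⊆ A) (n : ℕ) (f b : ℝ) (hf1 : f ≤ 1) (hcard : (1 - f) * A.card ≤ A1.card)
    (hb : 0 ≤ b) (P : (Fin n → γ) → Prop) [DecidablePred P]
    (hP : (((Fintype.piFinset (fun _ : Fin n => A1)).filter P).card : ℝ) ≤ b * (A1.card : ℝ) ^ n) :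
    (((Fintype.piFinset (fun _ : Fin n => A)).filter P).card : ℝ) ≤ (b + n * f) * (A.card : ℝ) ^ n := by
  classical
  have hA0 : (0 : ℝ) ≤ A.card := Nat.cast_nonneg _
  have hsub : Fintype.piFinset (fun _ : Fin n => A1) ⊆ Fintype.piFinset (fun _ : Fin n => A) :=
    Fintype.piFinset_subset _ _ fun _ => h
  have h1 : (Fintype.piFinset (fun _ : Fin n => A)).filter P ⊆ (Fintype.piFinset (fun _ : Fin n => A1)).filter P ∪
      (Fintype.piFinset (fun _ : Fin n => A) \ Fintype.piFinset (fun _ : Fin n => A1)) := by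
    intro y hy
    rw [mem_filter] at hy
    rw [mem_union, mem_filter, Finset.mem_sdiff]
    by_cases h2 : y ∈ Fintype.piFinset (fun _ : Fin n => A1)
    · exact Or.inl ⟨h2, hy.2⟩
    · exact Or.inr ⟨hy.1, h2⟩
  have c1 : ((Fintype.piFinset (fun _ : Fin n => A)).card : ℝ) = (A.card : ℝ) ^ n := by
    rw [Fintype.card_piFinset, prod_const, Finset.card_univ, Fintype.card_fin]; push_cast; rfl
  have c2 : ((Fintype.piFinset (fun _ : Fin n => A1)).card : ℝ) = (A1.card : ℝ) ^ n := by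
    rw [Fintype.card_piFinset, prod_const, Finset.card_univ, Fintype.card_fin]; push_cast; rfl
  have h2 : ((Fintype.piFinset (fun _ : Fin n => A) \ Fintype.piFinset (fun _ : Fin n => A1)).card : ℝ) = (A.card : ℝ) ^ n - (A1.card : ℝ) ^ n := by
    rw [← c1, ← c2, card_sdiff_of_subset hsub, Nat.cast_sub (card_le_card hsub)]
  have h3 : (((Fintype.piFinset (fun _ : Fin n => A)).filter P).card : ℝ) ≤ b * (A1.card : ℝ) ^ n + ((A.card : ℝ) ^ n - (A1.card : ℝ) ^ n) := by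
    rw [← h2]
    refine le_trans ?_ (add_le_add_left hP _)
    exact_mod_cast (card_le_card h1).trans (card_union_le _ _)
  have h4 : (1 - n * f) * (A.card : ℝ) ^ n ≤ (A1.card : ℝ) ^ n := by
    have h5 : 1 + (n : ℝ) * (-f) ≤ (1 + -f) ^ n := one_add_mul_le_pow (by linarith only [hf1]) n
    have h6 : ((1 - f) * A.card) ^ n ≤ (A1.card : ℝ) ^ n :=
      pow_le_pow_left₀ (mul_nonneg (by linarith only [hf1]) hA0) hcard n
    rw [mul_pow] at h6
    refine le_trans ?_ h6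
    apply mul_le_mul_of_nonneg_right _ (pow_nonneg hA0 n)
    have e1 : 1 - (n : ℝ) * f = 1 + n * (-f) := by ring
    have e2 : (1 - f) ^ n = (1 + -f) ^ n := by ring
    rw [e1, e2]; exact h5
  have h5 : b * (A1.card : ℝ) ^ n ≤ b * (A.card : ℝ) ^ n := by
    apply mul_le_mul_of_nonneg_left _ hb
    exact pow_le_pow_left₀ (Nat.cast_nonneg _) (by exact_mod_cast card_le_card h) n
  have e3 : (b + n * f) * (A.card : ℝ) ^ n = b * (A.card : ℝ) ^ n + ((A.card : ℝ) ^ n - (1 - n * f) * (A.card : ℝ) ^ n) := by ring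
  rw [e3]
  linarith only [h3, h4, h5]

/-- the basic facts -/
theorem base (θ lam ϱ δ B f : ℝ) (hθ : 0 < θ) (hlam : 0 < lam) (hϱ : 0 < ϱ) (hδ : 0 < δ) (hB : 1 ≤ B) (hf : 0 < f) :
    ∃ κ M : ℝ, 0 < κ ∧ 1 ≤ M ∧ ∀ δ' : ℝ, 0 < δ' → ∀ᶠ X : ℝ in atTop, ∀ H : ℝ, lam * Real.log X ≤ H → H ≤ X ^ (1 - ϱ) →
    ∀ (A : Finset ℕ) (C : Finset ℝ), Adm δ θ X A → SpH B H θ X C →
    0 < H ∧ Cut A C (fun a c => ZH H (a * c)) δ' ∧ ((A.filter (fun a : ℕ => (a : ℝ) < κ * X ^ θ)).card : ℝ) ≤ f * A.card ∧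
    ∀ a ∈ A, κ * X ^ θ ≤ (a : ℝ) → ∑ c ∈ C, ZH H (a * c) ^ 2 ≤ M * C.card := by
  obtain ⟨κ, hκ, hκ1, hsm⟩ := small_adm δ θ f hδ hθ hf
  obtain ⟨C1, X₀, hC1, h2⟩ := sm lam κ hlam hκ
  refine ⟨κ, C1 * B, hκ, ?_, fun δ' hδ' => ?_⟩
  · calc (1 : ℝ) = 1 * 1 := by norm_num
      _ ≤ C1 * B := mul_le_mul hC1 hB zero_le_one (by linarith only [hC1])
  filter_upwards [hsm, eventually_ge_atTop X₀, cutH θ lam ϱ δ B δ' hθ hlam hϱ hδ hB hδ', eventually_gt_atTop 1]
    with X g1 g2 g3 g4 H hH1 hH2 A C hA hC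
  have hlog : 0 < Real.log X := Real.log_pos g4
  refine ⟨lt_of_lt_of_le (mul_pos hlam hlog) hH1, g3 H hH1 hH2 A C hA hC, g1 A hA, fun a ha hκa => ?_⟩
  exact h2 X g2 B H θ hH1 (by linarith only [hB]) C hC a (hA.1 a ha).1 hκa (hA.1 a ha).2

open Classical in
/-- **Product sets.** -/
theorem productsH (θ lam ϱ δ B : ℝ) (hθ : 0 < θ) (hlam : 0 < lam) (hϱ : 0 < ϱ) (hδ : 0 < δ) (hB : 1 ≤ B) : ∃ n₀ : ℕ, ∀ n : ℕ, 1 ≤ n →
    ∃ κ : ℝ, 0 < κ ∧ ∀ᶠ X : ℝ in atTop, ∀ H : ℝ, lam * Real.log X ≤ H → H ≤ X ^ (1 - ϱ) → ∀ (A : Finset ℕ) (C : Finset ℝ),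
    Adm δ θ X A → SpH B H θ X C →
    ((C.filter (fun c => δ * A.card < |∑ a ∈ A, (NH H (a * c) : ℝ) * Real.log (a * c) / H - A.card|)).card : ℝ) ≤ δ * C.card ∧
    ((A.filter (fun a : ℕ => δ * C.card < |∑ c ∈ C, (NH H (a * c) : ℝ) * Real.log (a * c) / H - C.card|)).card : ℝ) ≤ δ * A.card ∧
    (((Fintype.piFinset (fun _ : Fin n => C)).filter (fun y => ¬
      (κ * A.card ≤ ((A.filter (fun a : ℕ => ∀ j, HPH H (a * y j))).card : ℝ)))).card : ℝ) ≤ δ * (C.card : ℝ) ^ n ∧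
    (((Fintype.piFinset (fun _ : Fin n => A)).filter (fun y => ¬
      (κ * C.card ≤ ((C.filter (fun c => ∀ j, HPH H (y j * c))).card : ℝ)))).card : ℝ) ≤ δ * (A.card : ℝ) ^ n ∧
    (n₀ ≤ n →
      (((Fintype.piFinset (fun _ : Fin n => C)).filter (fun y => ¬
        ((1 - δ) * A.card ≤ ((A.filter (fun a : ℕ => ∃ j, HPH H (a * y j))).card : ℝ)))).card : ℝ) ≤ δ * (C.card : ℝ) ^ n ∧
      (((Fintype.piFinset (fun _ : Fin n => A)).filter (fun y => ¬
        ((1 - δ) * C.card ≤ ((C.filter (fun c => ∃ j, HPH H (y j * c))).card : ℝ)))).card : ℝ) ≤ δ * (A.card : ℝ) ^ n) := by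
  obtain ⟨κ₂, M₂, hκ₂, hM₂, hbase₂⟩ := base θ lam ϱ δ B (δ ^ 2 / 16) hθ hlam hϱ hδ hB (by positivity)
  obtain ⟨na, hna⟩ := union_good ℕ ℝ M₂ δ hM₂ hδ
  obtain ⟨nb, hnb⟩ := union_good ℝ ℕ M₂ δ hM₂ hδ
  refine ⟨max na nb, fun n hn => ?_⟩
  have hn0 : (0 : ℝ) < n := by exact_mod_cast hn
  obtain ⟨f, hf⟩ : ∃ f, f = min (1 / 2) (δ / (2 * n)) := ⟨_, rfl⟩
  have hf0 : 0 < f := by rw [hf]; exact lt_min (by norm_num) (by positivity)
  have hf1 : f ≤ 1 / 2 := by rw [hf]; exact min_le_left _ _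
  have hf2 : n * f ≤ δ / 2 := by
    have h1 : f ≤ δ / (2 * n) := by rw [hf]; exact min_le_right _ _
    calc n * f ≤ n * (δ / (2 * n)) := mul_le_mul_of_nonneg_left h1 hn0.le
      _ = δ / 2 := by field_simp
  obtain ⟨κ₁, M, hκ₁, hM, hbase⟩ := base θ lam ϱ δ B f hθ hlam hϱ hδ hB hf0
  obtain ⟨κa, δa, hκa, hδa, hgooda⟩ := simul_good ℕ ℝ n M δ hM hδ
  obtain ⟨κb, δb, hκb, hδb, hgoodb⟩ := simul_good ℝ ℕ n M (δ / 2) hM (half_pos hδ)
  obtain ⟨δ', hδ'⟩ : ∃ δ', δ' = min (min (δa / 2) (δb / 2)) (δ ^ 2 / 16) := ⟨_, rfl⟩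
  have hδ'0 : 0 < δ' := by rw [hδ']; exact lt_min (lt_min (by positivity) (by positivity)) (by positivity)
  have hδ'a : 2 * δ' ≤ δa := by
    have : δ' ≤ δa / 2 := by rw [hδ']; exact (min_le_left _ _).trans (min_le_left _ _)
    linarith only [this]
  have hδ'b : 2 * δ' ≤ δb := by
    have : δ' ≤ δb / 2 := by rw [hδ']; exact (min_le_left _ _).trans (min_le_right _ _)
    linarith only [this]
  have hδ'c : δ' ≤ δ ^ 2 / 16 := by rw [hδ']; exact min_le_right _ _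
  refine ⟨min (κa / 2) κb, lt_min (half_pos hκa) hκb, ?_⟩
  filter_upwards [hbase₂ δ' hδ'0, hbase δ' hδ'0] with X h1 h2 H hH1 hH2 A C hA hC
  obtain ⟨hH0, hcut, hs₂, hm₂⟩ := h1 H hH1 hH2 A C hA hC
  obtain ⟨-, -, hs, hm⟩ := h2 H hH1 hH2 A C hA hC
  have hZ0 : ∀ (a : ℕ) (c : ℝ), 0 ≤ ZH H (a * c) := fun a c => ZH_nonneg hH0.le _
  have hP : ∀ x, HPH H x ↔ 0 < ZH H x := fun x => (ZH_pos_iff hH0 x).symm
  -- the large elements
  obtain ⟨A1, hA1⟩ : ∃ A1, A1 = A.filter (fun a : ℕ => κ₁ * X ^ θ ≤ (a : ℝ)) := ⟨_, rfl⟩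
  have hA1A : A1 ⊆ A := by rw [hA1]; exact filter_subset _ _
  have hA1c : (1 - f) * A.card ≤ (A1.card : ℝ) := by
    have h3 : A1.card + (A.filter (fun a : ℕ => (a : ℝ) < κ₁ * X ^ θ)).card = A.card := by
      rw [hA1, ← card_filter_add_card_filter_not (s := A) (fun a : ℕ => κ₁ * X ^ θ ≤ (a : ℝ))]
      congr 2
      apply filter_congr
      intro a _
      rw [not_le]
    have h4 : (A1.card : ℝ) + ((A.filter (fun a : ℕ => (a : ℝ) < κ₁ * X ^ θ)).card : ℝ) = A.card := by exact_mod_cast h3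
    linarith only [h4, hs]
  have hA1h : (A.card : ℝ) ≤ 2 * A1.card := by
    have h3 : (1 - 1 / 2) * (A.card : ℝ) ≤ (1 - f) * A.card := mul_le_mul_of_nonneg_right (by linarith only [hf1]) (Nat.cast_nonneg _)
    linarith only [h3, hA1c]
  have hcut1 : Cut A1 C (fun a c => ZH H (a * c)) (2 * δ') := cut_restrict hcut hδ'0.le hA1A hA1h
  have hM1 : ∑ a ∈ A1, ∑ c ∈ C, ZH H (a * c) ^ 2 ≤ M * (A1.card * C.card) := by
    have h3 : ∀ a ∈ A1, ∑ c ∈ C, ZH H (a * c) ^ 2 ≤ M * C.card := by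
      intro a ha
      rw [hA1, mem_filter] at ha
      exact hm a ha.1 ha.2
    refine (sum_le_sum h3).trans (le_of_eq ?_)
    rw [sum_const, nsmul_eq_mul]; ring
  -- the truncated function
  have hcut2 : Cut A C (fun a c => if κ₂ * X ^ θ ≤ (a : ℝ) then ZH H (a * c) else 0) (δ ^ 2 / 8) := by
    have h3 := cut_trunc hcut (fun a : ℕ => κ₂ * X ^ θ ≤ (a : ℝ)) (f := δ ^ 2 / 16) (by
      refine le_trans (le_of_eq ?_) hs₂
      congr 2
      apply filter_congr
      intro a _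
      rw [not_le])
    refine cut_mono ?_ (show δ' + δ ^ 2 / 16 ≤ δ ^ 2 / 8 by linarith only [hδ'c])
    convert h3
  have hW0 : ∀ (a : ℕ) (c : ℝ), 0 ≤ (if κ₂ * X ^ θ ≤ (a : ℝ) then ZH H (a * c) else 0) := by
    intro a c
    split_ifs
    · exact hZ0 a c
    · exact le_rfl
  have hWpos : ∀ (a : ℕ) (c : ℝ), 0 < (if κ₂ * X ^ θ ≤ (a : ℝ) then ZH H (a * c) else 0) → HPH H (a * c) := by
    intro a c h
    rw [hP]
    split_ifs at h with h3
    · exact h
    · exact absurd h (lt_irrefl _)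
  have hM2 : ∑ a ∈ A, ∑ c ∈ C, (if κ₂ * X ^ θ ≤ (a : ℝ) then ZH H (a * c) else 0) ^ 2 ≤ M₂ * (A.card * C.card) := by
    have h3 : ∀ a ∈ A, ∑ c ∈ C, (if κ₂ * X ^ θ ≤ (a : ℝ) then ZH H (a * c) else 0) ^ 2 ≤ M₂ * C.card := by
      intro a ha
      by_cases h4 : κ₂ * X ^ θ ≤ (a : ℝ)
      · simp only [h4, if_true]
        exact hm₂ a ha h4
      · simp only [h4, if_false]
        rw [sum_congr rfl (g := fun _ => (0 : ℝ)) (fun _ _ => by norm_num), sum_const_zero]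
        exact mul_nonneg (by linarith only [hM₂]) (Nat.cast_nonneg _)
    refine (sum_le_sum h3).trans (le_of_eq ?_)
    rw [sum_const, nsmul_eq_mul]; ring
  have hmean : 2 * δ' ≤ δ ^ 2 := by
    have := sq_nonneg δ
    linarith only [hδ'c, this]
  refine ⟨?_, ?_, ?_, ?_, ?_⟩
  · have := hcut.mean hδ hmean
    simp_rw [ZH_eq] at this
    convert this
  · have := hcut.swap.mean hδ hmean
    simp_rw [ZH_eq] at this
    convert this
  · have h3 := hgooda A1 C (fun a c => ZH H (a * c)) (fun a _ c _ => hZ0 a c) (cut_mono hcut1 hδ'a) hM1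
    refine le_trans ?_ h3
    apply Nat.cast_le.2
    apply card_le_card
    intro y hy
    rw [mem_filter] at hy ⊢
    refine ⟨hy.1, fun hcon => hy.2 ?_⟩
    have h4 : min (κa / 2) κb * (A.card : ℝ) ≤ κa * A1.card := by
      calc min (κa / 2) κb * (A.card : ℝ) ≤ κa / 2 * A.card := mul_le_mul_of_nonneg_right (min_le_left _ _) (Nat.cast_nonneg _)
        _ ≤ κa / 2 * (2 * A1.card) := mul_le_mul_of_nonneg_left hA1h (half_pos hκa).le
        _ = κa * A1.card := by ring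
    refine h4.trans (hcon.trans ?_)
    apply Nat.cast_le.2
    apply card_le_card
    intro a ha
    rw [mem_filter] at ha ⊢
    exact ⟨hA1A ha.1, fun j => (hP _).2 (ha.2 j)⟩
  · have h3 := hgoodb C A1 (fun c a => ZH H (a * c)) (fun c _ a _ => hZ0 a c) (cut_mono hcut1 hδ'b).swap (by
      rw [sum_comm, mul_comm (C.card : ℝ)]; exact hM1)
    have h4 := tuples_lift A A1 hA1A n f (δ / 2) (by linarith only [hf1]) hA1c (half_pos hδ).le (fun y => ¬
      (min (κa / 2) κb * C.card ≤ ((C.filter (fun c => ∀ j, HPH H (y j * c))).card : ℝ))) (by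
        refine le_trans ?_ h3
        apply Nat.cast_le.2
        apply card_le_card
        intro y hy
        rw [mem_filter] at hy ⊢
        refine ⟨hy.1, fun hcon => hy.2 ?_⟩
        refine (mul_le_mul_of_nonneg_right (min_le_right _ _) (Nat.cast_nonneg _)).trans (hcon.trans ?_)
        apply Nat.cast_le.2
        apply card_le_card
        intro c hc
        rw [mem_filter] at hc ⊢
        exact ⟨hc.1, fun j => (hP _).2 (hc.2 j)⟩)
    refine h4.trans ?_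
    apply mul_le_mul_of_nonneg_right _ (pow_nonneg (Nat.cast_nonneg _) n)
    linarith only [hf2]
  · intro hn2
    constructor
    · have h3 := hna n ((le_max_left _ _).trans hn2) A C (fun a c => if κ₂ * X ^ θ ≤ (a : ℝ) then ZH H (a * c) else 0)
        (fun a _ c _ => hW0 a c) hcut2 hM2
      refine le_trans ?_ h3
      apply Nat.cast_le.2
      apply card_le_card
      intro y hy
      rw [mem_filter] at hy ⊢
      refine ⟨hy.1, fun hcon => hy.2 (hcon.trans ?_)⟩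
      apply Nat.cast_le.2
      apply card_le_card
      intro a ha
      rw [mem_filter] at ha ⊢
      obtain ⟨j, hj⟩ := ha.2
      exact ⟨ha.1, j, hWpos _ _ hj⟩
    · have h3 := hnb n ((le_max_right _ _).trans hn2) C A (fun c a => if κ₂ * X ^ θ ≤ (a : ℝ) then ZH H (a * c) else 0)
        (fun c _ a _ => hW0 a c) hcut2.swap (by rw [sum_comm, mul_comm (C.card : ℝ)]; exact hM2)
      refine le_trans ?_ h3
      apply Nat.cast_le.2
      apply card_le_card
      intro y hy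
      rw [mem_filter] at hy ⊢
      refine ⟨hy.1, fun hcon => hy.2 (hcon.trans ?_)⟩
      apply Nat.cast_le.2
      apply card_le_card
      intro c hc
      rw [mem_filter] at hc ⊢
      obtain ⟨j, hj⟩ := hc.2
      exact ⟨hc.1, j, hWpos _ _ hj⟩

end Pool.Agent.Y851.PT
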